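import Pool.Agent.Lib.MP_694cb9_lc.Defs

/-!
# Thinning of perfect trees by a Cohen real

Nodes are finite 0-1 sequences written backwards: the children of `s` are `true :: s` and
`false :: s`.
-/

namespace SymExt

namespace Thin

/-- `s` is a splitting node of `T`. -/
def Split (T : Set (List Bool)) (s : List Bool) : Prop := (true :: s) ∈ T ∧ (false :: s) ∈ T

open Classical in
/-- The number of splitting nodes strictly below `s`, modulo 3. -/
noncomputable def ct (T : Set (List Bool)) : List Bool → Fin 3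
  | [] => 0
  | _ :: s => if Split T s then ct T s + 1 else ct T s

/-- The thinned tree. -/
def thin (T g : Set (List Bool)) : List Bool → Prop
  | [] => [] ∈ T
  | b :: s => thin T g s ∧ (b :: s) ∈ T ∧ (Split T s → ct T s ≠ 0 → (s ∈ g ↔ b = true))

theorem ct_cons_split {T : Set (List Bool)} {s : List Bool} (h : Split T s) (b : Bool) :
    ct T (b :: s) = ct T s + 1 := by rw [ct, if_pos h]

theorem ct_cons_nsplit {T : Set (List Bool)} {s : List Bool} (h : ¬ Split T s) (b : Bool) :
    ct T (b :: s) = ct T s := by rw [ct, if_neg h]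

theorem thin_mem {T g : Set (List Bool)} {s : List Bool} (h : thin T g s) : s ∈ T := by
  cases s with
  | nil => exact h
  | cons b s => exact h.2.1

theorem thin_suffix {T g : Set (List Bool)} {s t : List Bool} (h : thin T g s) (ht : t <:+ s) :
    thin T g t := by
  induction s with
  | nil => rw [List.suffix_nil] at ht; rwa [ht]
  | cons b s ih =>
    rcases List.suffix_cons_iff.1 ht with rfl | ht
    · exact h
    · exact ih h.1 ht

theorem split_iff_of_agree {T T' : Set (List Bool)} {n : ℕ}
    (h : ∀ s : List Bool, s.length ≤ n → (s ∈ T ↔ s ∈ T')) {s : List Bool} (hs : s.length < n) :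
    Split T s ↔ Split T' s := by
  rw [Split, Split, h _ (by simpa using hs), h _ (by simpa using hs)]

theorem ct_eq_of_agree {T T' : Set (List Bool)} {n : ℕ}
    (h : ∀ s : List Bool, s.length ≤ n → (s ∈ T ↔ s ∈ T')) {s : List Bool} (hs : s.length ≤ n) :
    ct T s = ct T' s := by
  classical
  induction s with
  | nil => rfl
  | cons b s ih =>
    have hs' : s.length < n := by simpa using hs
    rw [ct, ct, ih hs'.le]
    simp only [split_iff_of_agree h hs']

theorem thin_iff_of_agree {T T' g g' : Set (List Bool)} {n : ℕ}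
    (h : ∀ s : List Bool, s.length ≤ n → (s ∈ T ↔ s ∈ T'))
    (hg : ∀ s : List Bool, s.length < n → (s ∈ g ↔ s ∈ g')) {s : List Bool} (hs : s.length ≤ n) :
    thin T g s ↔ thin T' g' s := by
  induction s with
  | nil => exact h [] (by simp)
  | cons b s ih =>
    have hs' : s.length < n := by simpa using hs
    rw [thin, thin, ih hs'.le, h _ hs, split_iff_of_agree h hs', ct_eq_of_agree h hs'.le, hg s hs']

theorem exists_split_aux {T : Set (List Bool)} (hcl : ∀ s ∈ T, ∀ t, t <:+ s → t ∈ T) (n : ℕ) :
    ∀ l l' s : List Bool, l.length = n → (l ++ s) ∈ T → (l' ++ s) ∈ T → ¬ (l ++ s <:+ l' ++ s) →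
      ¬ (l' ++ s <:+ l ++ s) → ∃ l'', Split T (l'' ++ s) := by
  induction n with
  | zero =>
    intro l l' s hl _ _ h _
    rw [List.length_eq_zero_iff] at hl
    subst hl
    exact absurd (List.suffix_append l' s) h
  | succ n ih =>
    intro l l' s hl h1 h2 h3 h4
    rcases List.eq_nil_or_concat l with rfl | ⟨l1, b, rfl⟩
    · simp at hl
    rcases List.eq_nil_or_concat l' with rfl | ⟨l1', b', rfl⟩
    · exact absurd (List.suffix_append (l1.concat b) s) h4
    simp only [List.concat_eq_append, List.append_assoc, List.singleton_append] at h1 h2 h3 h4 hl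
    by_cases hb : b = b'
    · subst hb
      have hl' : l1.length = n := by simpa using hl
      obtain ⟨l'', h⟩ := ih l1 l1' (b :: s) hl' h1 h2 h3 h4
      exact ⟨l'' ++ [b], by simpa using h⟩
    · refine ⟨[], ?_⟩
      have h5 : b :: s ∈ T := hcl _ h1 _ (List.suffix_append _ _)
      have h6 : b' :: s ∈ T := hcl _ h2 _ (List.suffix_append _ _)
      cases b <;> cases b'
      · exact absurd rfl hb
      · exact ⟨h6, h5⟩
      · exact ⟨h5, h6⟩
      · exact absurd rfl hb

/-- Every node of a perfect tree has a splitting extension. -/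
theorem exists_split {T : Set (List Bool)} (hT : PerfectTree T) {s : List Bool} (hs : s ∈ T) :
    ∃ l, Split T (l ++ s) := by
  obtain ⟨_, hcl, hp⟩ := hT
  obtain ⟨t, ht, t', ht', ⟨l, hl⟩, ⟨l', hl'⟩, h1, h2⟩ := hp s hs
  subst hl hl'
  exact exists_split_aux hcl _ l l' s rfl ht ht' h1 h2

theorem thin_first_split {T g : Set (List Bool)} (hcl : ∀ s ∈ T, ∀ t, t <:+ s → t ∈ T) (n : ℕ) :
    ∀ l s : List Bool, l.length = n → Split T (l ++ s) → thin T g s →
      ∃ u, s <:+ u ∧ thin T g u ∧ Split T u ∧ ct T u = ct T s := by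
  induction n with
  | zero =>
    intro l s hl h1 h2
    rw [List.length_eq_zero_iff] at hl
    subst hl
    exact ⟨s, List.suffix_refl s, h2, h1, rfl⟩
  | succ n ih =>
    intro l s hl h1 h2
    by_cases hs : Split T s
    · exact ⟨s, List.suffix_refl s, h2, hs, rfl⟩
    rcases List.eq_nil_or_concat l with rfl | ⟨l1, b, rfl⟩
    · simp at hl
    simp only [List.concat_eq_append, List.append_assoc, List.singleton_append] at h1 hl
    have h3 : b :: s ∈ T := hcl _ h1.1 _
      ((List.suffix_append _ _).trans (List.suffix_cons _ _))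
    have h4 : thin T g (b :: s) := ⟨h2, h3, fun h => absurd h hs⟩
    obtain ⟨u, hu1, hu2, hu3, hu4⟩ := ih l1 (b :: s) (by simpa using hl) h1 h4
    exact ⟨u, (List.suffix_cons _ _).trans hu1, hu2, hu3, hu4.trans (ct_cons_nsplit hs b)⟩

theorem thin_next {T g : Set (List Bool)} (hT : PerfectTree T) {s : List Bool}
    (hs : thin T g s) : ∃ u, s <:+ u ∧ thin T g u ∧ Split T u ∧ ct T u = ct T s := by
  obtain ⟨l, hl⟩ := exists_split hT (thin_mem hs)
  exact thin_first_split hT.2.1 _ l s rfl hl hs

theorem thin_child {T g : Set (List Bool)} {u : List Bool}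
    (hu : thin T g u) (hsp : Split T u) : ∃ b, thin T g (b :: u) := by
  classical
  refine ⟨decide (u ∈ g), hu, ?_, fun _ _ => by simp⟩
  cases decide (u ∈ g)
  · exact hsp.2
  · exact hsp.1

theorem thin_free {T g : Set (List Bool)} (hT : PerfectTree T) {s : List Bool}
    (hs : thin T g s) : ∃ u, s <:+ u ∧ thin T g u ∧ Split T u ∧ ct T u = 0 := by
  obtain ⟨u, h1, h2, h3, h4⟩ := thin_next hT hs
  by_cases h0 : ct T u = 0
  · exact ⟨u, h1, h2, h3, h0⟩
  obtain ⟨b, hb⟩ := thin_child h2 h3
  obtain ⟨u', h1', h2', h3', h4'⟩ := thin_next hT hb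
  have e1 : ct T u' = ct T u + 1 := h4'.trans (ct_cons_split h3 b)
  have h1'' : s <:+ u' := h1.trans ((List.suffix_cons _ _).trans h1')
  by_cases h0' : ct T u' = 0
  · exact ⟨u', h1'', h2', h3', h0'⟩
  obtain ⟨b', hb'⟩ := thin_child h2' h3'
  obtain ⟨u2, k1, k2, k3, k4⟩ := thin_next hT hb'
  have e2 : ct T u2 = ct T u' + 1 := k4.trans (ct_cons_split h3' b')
  refine ⟨u2, h1''.trans ((List.suffix_cons _ _).trans k1), k2, k3, ?_⟩
  rw [e1] at h0'
  rw [e2, e1]
  revert h0 h0'
  generalize ct T u = c
  revert c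
  decide

/-- Thinning preserves perfect trees. -/
theorem thin_perfect {T g : Set (List Bool)} (hT : PerfectTree T) :
    PerfectTree {s | thin T g s} := by
  refine ⟨⟨[], ?_⟩, fun s hs t ht => thin_suffix hs ht, fun s hs => ?_⟩
  · obtain ⟨⟨s, hs⟩, hcl, _⟩ := hT
    exact hcl s hs [] (List.nil_suffix)
  · obtain ⟨u, h1, h2, h3, h4⟩ := thin_free hT hs
    refine ⟨true :: u, ⟨h2, h3.1, fun _ h => absurd h4 h⟩, false :: u,
      ⟨h2, h3.2, fun _ h => absurd h4 h⟩, h1.trans (List.suffix_cons _ _),
      h1.trans (List.suffix_cons _ _), ?_, ?_⟩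
    · intro h
      have := h.eq_of_length (by simp)
      simp at this
    · intro h
      have := h.eq_of_length (by simp)
      simp at this

/-- A branch in a perfect tree splits infinitely often. -/
theorem branch_splits {T : Set (List Bool)} (hT : PerfectTree T) (x : ℕ → List Bool)
    (hx : ∀ n, x n ∈ T) (hx' : ∀ n, ∃ b, x (n + 1) = b :: x n) (n : ℕ) :
    ∃ k, n ≤ k ∧ Split T (x k) := by
  by_contra hcon
  push Not at hcon
  have key : ∀ m : ℕ, ∀ l : List Bool, l.length = m → (l ++ x n) ∈ T → l ++ x n = x (n + m) := by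
    intro m
    induction m with
    | zero =>
      intro l hl _
      rw [List.length_eq_zero_iff] at hl
      subst hl; rfl
    | succ m ih =>
      intro l hl hl'
      cases l with
      | nil => simp at hl
      | cons c l =>
        have h1 : l ++ x n ∈ T := hT.2.1 _ hl' _ (List.suffix_cons _ _)
        have h2 := ih l (by simpa using hl) h1
        obtain ⟨b, hb⟩ := hx' (n + m)
        rw [List.cons_append, h2] at hl' ⊢
        change c :: x (n + m) = x (n + m + 1)
        rw [hb]
        by_contra hne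
        have hbc : c ≠ b := fun h => hne (by rw [h])
        have h3 : b :: x (n + m) ∈ T := hb ▸ hx (n + m + 1)
        apply hcon (n + m) (Nat.le_add_right _ _)
        cases b <;> cases c
        · exact absurd rfl hbc
        · exact ⟨hl', h3⟩
        · exact ⟨h3, hl'⟩
        · exact absurd rfl hbc
  obtain ⟨l, hl⟩ := exists_split hT (hx n)
  have h1 : l ++ x n ∈ T := hT.2.1 _ hl.1 _ (List.suffix_cons _ _)
  have h2 := key l.length l rfl h1
  rw [h2] at hl
  exact hcon _ (Nat.le_add_right _ _) hl

/-- Koenig's lemma for binary trees. -/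
theorem koenig {I : List Bool → Prop} (hcl : ∀ s, I s → ∀ t, t <:+ s → I t)
    (h : ∀ L : ℕ, ∃ s : List Bool, s.length = L ∧ I s) :
    ∃ x : ℕ → List Bool, (∀ n, I (x n)) ∧ (∀ n, (x n).length = n) ∧
      ∀ n, ∃ b, x (n + 1) = b :: x n := by
  classical
  let big : List Bool → Prop := fun s => ∀ L, s.length ≤ L → ∃ u, u.length = L ∧ s <:+ u ∧ I u
  have h0 : big [] := fun L _ => by
    obtain ⟨u, hu, hu'⟩ := h L
    exact ⟨u, hu, List.nil_suffix, hu'⟩
  have hstep : ∀ s, big s → ∃ b, big (b :: s) := by
    intro s hs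
    by_contra hcon
    push Not at hcon
    have h1 := hcon true
    have h2 := hcon false
    simp only [big] at h1 h2
    push Not at h1 h2
    obtain ⟨L1, hL1, h1⟩ := h1
    obtain ⟨L2, hL2, h2⟩ := h2
    simp only [List.length_cons] at hL1 hL2
    obtain ⟨u, hu, hsu, hI⟩ := hs (max L1 L2) (by omega)
    have hlen : s.length < u.length := by omega
    obtain ⟨l, rfl⟩ := hsu
    rcases List.eq_nil_or_concat l with rfl | ⟨l1, b, rfl⟩
    · simp at hlen
    simp only [List.concat_eq_append, List.append_assoc, List.singleton_append] at hu hI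
    have key : ∀ L, (b :: s).length ≤ L → L ≤ (l1 ++ b :: s).length →
        ∃ v, v.length = L ∧ b :: s <:+ v ∧ I v := by
      intro L hL hL'
      refine ⟨(l1 ++ b :: s).drop ((l1 ++ b :: s).length - L), ?_, ?_, ?_⟩
      · rw [List.length_drop]; omega
      · refine List.suffix_of_suffix_length_le (List.suffix_append _ _) (List.drop_suffix _ _) ?_
        rw [List.length_drop]; omega
      · exact hcl _ hI _ (List.drop_suffix _ _)
    cases b
    · obtain ⟨v, hv, hv', hv''⟩ := key L2 (by simpa using hL2) (by omega)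
      exact h2 v hv hv' hv''
    · obtain ⟨v, hv, hv', hv''⟩ := key L1 (by simpa using hL1) (by omega)
      exact h1 v hv hv' hv''
  choose! c hc using hstep
  let x : ℕ → List Bool := fun n => Nat.rec [] (fun _ s => c s :: s) n
  have hx : ∀ n, x (n + 1) = c (x n) :: x n := fun n => rfl
  have hbig : ∀ n, big (x n) := by
    intro n
    induction n with
    | zero => exact h0
    | succ n ih => rw [hx]; exact hc _ ih
  refine ⟨x, fun n => ?_, fun n => ?_, fun n => ⟨_, hx n⟩⟩
  · obtain ⟨u, hu, hu', hu''⟩ := hbig n (x n).length le_rfl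
    rw [hu'.eq_of_length hu.symm]
    exact hu''
  · induction n with
    | zero => rfl
    | succ n ih => rw [hx]; simp [ih]

/-- The kill lemma: two perfect trees can be thinned by two reals with prescribed values at the
nodes of length less than `L0` in such a way that the intersection is finite. -/
theorem kill {T T' : Set (List Bool)} (hT : PerfectTree T) (L0 : ℕ)
    (a a' : Set (List Bool)) :
    ∃ g g' : Set (List Bool), (∀ s : List Bool, s.length < L0 → (s ∈ g ↔ s ∈ a)) ∧
      (∀ s : List Bool, s.length < L0 → (s ∈ g' ↔ s ∈ a')) ∧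
      ∃ L, ∀ s : List Bool, s.length = L → ¬ (thin T g s ∧ thin T' g' s) := by
  classical
  let g : Set (List Bool) := {s | if s.length < L0 then s ∈ a else (true :: s) ∉ T'}
  let g' : Set (List Bool) :=
    {s | if s.length < L0 then s ∈ a' else ¬ ((true :: s) ∈ T ∧ (false :: s) ∉ T)}
  have hg : ∀ s : List Bool, L0 ≤ s.length → (s ∈ g ↔ (true :: s) ∉ T') := by
    intro s hs
    change (if s.length < L0 then s ∈ a else (true :: s) ∉ T') ↔ _
    rw [if_neg (not_lt.2 hs)]
  have hg' : ∀ s : List Bool, L0 ≤ s.length →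
      (s ∈ g' ↔ ¬ ((true :: s) ∈ T ∧ (false :: s) ∉ T)) := by
    intro s hs
    change (if s.length < L0 then s ∈ a' else _) ↔ _
    rw [if_neg (not_lt.2 hs)]
  refine ⟨g, g', fun s hs => ?_, fun s hs => ?_, ?_⟩
  · change (if s.length < L0 then s ∈ a else _) ↔ _
    rw [if_pos hs]
  · change (if s.length < L0 then s ∈ a' else _) ↔ _
    rw [if_pos hs]
  by_contra hcon
  push Not at hcon
  obtain ⟨x, hx1, hx2, hx3⟩ := koenig (I := fun s => thin T g s ∧ thin T' g' s)
    (fun s hs t ht => ⟨thin_suffix hs.1 ht, thin_suffix hs.2 ht⟩) hcon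
  -- constraints beyond L0
  have hα : ∀ n, L0 ≤ n → Split T (x n) → ct T (x n) ≠ 0 →
      Split T' (x n) ∧ ct T' (x n) = 0 := by
    intro n hn hsp hct
    obtain ⟨b, hb⟩ := hx3 n
    have h1 := hx1 (n + 1)
    rw [hb] at h1
    have h2 := h1.1.2.2 hsp hct
    rw [hg _ (by rw [hx2]; exact hn)] at h2
    have h3 := h1.2.2.1
    have hspl : Split T' (x n) := by
      cases b
      · have h4 : (true :: x n) ∈ T' := by simpa using h2
        exact ⟨h4, h3⟩
      · exact absurd h3 (h2.2 rfl)
    refine ⟨hspl, ?_⟩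
    by_contra hct'
    have h4 := h1.2.2.2 hspl hct'
    rw [hg' _ (by rw [hx2]; exact hn)] at h4
    have h5 : b = true := h4.1 fun h => h.2 hsp.2
    exact (h2.2 h5) hspl.1
  have hβ : ∀ n, L0 ≤ n → Split T' (x n) → ct T' (x n) ≠ 0 →
      Split T (x n) ∧ ct T (x n) = 0 := by
    intro n hn hsp hct
    obtain ⟨b, hb⟩ := hx3 n
    have h1 := hx1 (n + 1)
    rw [hb] at h1
    have h2 := h1.2.2.2 hsp hct
    rw [hg' _ (by rw [hx2]; exact hn)] at h2
    have h3 := h1.1.2.1
    have hspl : Split T (x n) := by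
      cases b
      · have h4 : (true :: x n) ∈ T ∧ (false :: x n) ∉ T := by
          by_contra h5
          simpa using h2.1 h5
        exact absurd h3 h4.2
      · have h4 := h2.2 rfl
        refine ⟨h3, ?_⟩
        by_contra h5
        exact h4 ⟨h3, h5⟩
    refine ⟨hspl, ?_⟩
    by_contra hct'
    exact hct (hα n hn hspl hct').2
  -- T splits at the branch infinitely often; find a splitting node with count 1
  have hxT : ∀ n, x n ∈ T := fun n => thin_mem (hx1 n).1
  have hone : ∀ c : Fin 3, ∀ n, ct T (x n) = c → ∃ k, n ≤ k ∧ Split T (x k) ∧ ct T (x k) = c := by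
    intro c n hn
    have hex := branch_splits hT x hxT hx3 n
    let k := Nat.find hex
    have hk := Nat.find_spec hex
    refine ⟨k, hk.1, hk.2, ?_⟩
    have hmin : ∀ j, n ≤ j → j ≤ k → ct T (x j) = c := by
      intro j hj
      induction j, hj using Nat.le_induction with
      | base => intro _; exact hn
      | succ j hj ih =>
        intro hjk
        obtain ⟨b, hb⟩ := hx3 j
        have hns : ¬ Split T (x j) := fun h => Nat.find_min hex (show j < k by omega) ⟨hj, h⟩
        rw [hb, ct_cons_nsplit hns]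
        exact ih (by omega)
    exact hmin k hk.1 le_rfl
  have hstep : ∀ n, ∃ k, n ≤ k ∧ ct T (x k) = ct T (x n) + 1 := by
    intro n
    obtain ⟨k, hk, hk1, hk2⟩ := hone _ n rfl
    obtain ⟨b, hb⟩ := hx3 k
    exact ⟨k + 1, by omega, by rw [hb, ct_cons_split hk1, hk2]⟩
  have hall : ∃ k, L0 ≤ k ∧ ct T (x k) = 1 := by
    obtain ⟨k1, h1, e1⟩ := hstep L0
    obtain ⟨k2, h2, e2⟩ := hstep k1
    rcases (by
      generalize ct T (x L0) = c
      revert c
      decide : ct T (x L0) = 1 ∨ ct T (x L0) + 1 = 1 ∨ ct T (x L0) + 1 + 1 = 1) with h | h | h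
    · exact ⟨L0, le_rfl, h⟩
    · exact ⟨k1, h1, by rw [e1, h]⟩
    · exact ⟨k2, h1.trans h2, by rw [e2, e1, h]⟩
  obtain ⟨k, hk, hk'⟩ := hall
  obtain ⟨n, hn, hn1, hn2⟩ := hone 1 k hk'
  have hnL : L0 ≤ n := hk.trans hn
  have h1 := hα n hnL hn1 (by rw [hn2]; decide)
  have hQ : ∀ j, n + 1 ≤ j → ct T (x j) = 2 ∧ ct T' (x j) = 1 := by
    intro j hj
    induction j, hj using Nat.le_induction with
    | base =>
      obtain ⟨b, hb⟩ := hx3 n
      rw [hb, ct_cons_split hn1, ct_cons_split h1.1, hn2, h1.2]
      decide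
    | succ j hj ih =>
      obtain ⟨b, hb⟩ := hx3 j
      have hn3 : ¬ Split T (x j) := fun h => by
        have := (hα j (by omega) h (by rw [ih.1]; decide)).2
        rw [ih.2] at this
        exact absurd this (by decide)
      have hn4 : ¬ Split T' (x j) := fun h => by
        have := (hβ j (by omega) h (by rw [ih.2]; decide)).2
        rw [ih.1] at this
        exact absurd this (by decide)
      rw [hb, ct_cons_nsplit hn3, ct_cons_nsplit hn4]
      exact ih
  obtain ⟨j, hj, hj'⟩ := branch_splits hT x hxT hx3 (n + 1)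
  have h2 := hQ j hj
  have h3 := (hα j (by omega) hj' (by rw [h2.1]; decide)).2
  rw [h2.2] at h3
  exact absurd h3 (by decide)

end Thin

end SymExt
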