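import Pool.Agent.Lib.MP_694cb9_lc.OrdN
import Pool.Agent.Lib.MP_694cb9_lc.Thin

/-!
# Names for trees and names for forcing names
-/

namespace SymExt

universe u v w

open Name

/-! ### Injectivity of the codings -/

theorem natSet_mem {n m : ℕ} (h : n < m) : (natSet n : ZFSet.{u}) ∈ natSet m := by
  induction m with
  | zero => omega
  | succ m ih =>
    rw [natSet, ZFSet.mem_insert_iff]
    rcases Nat.lt_succ_iff_lt_or_eq.1 h with h | rfl
    · exact Or.inr (ih h)
    · exact Or.inl rfl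

theorem natSet_inj {n m : ℕ} (h : (natSet n : ZFSet.{u}) = natSet m) : n = m := by
  rcases lt_trichotomy n m with h' | h' | h'
  · have := natSet_mem.{u} h'
    rw [h] at this
    exact absurd this (ZFSet.mem_irrefl _)
  · exact h'
  · have := natSet_mem.{u} h'
    rw [h] at this
    exact absurd this (ZFSet.mem_irrefl _)

theorem mem_nodeSet_lt {s : List Bool} {z : ZFSet.{u}} (h : z ∈ nodeSet s) :
    ∃ i < s.length, ∃ y, z = ZFSet.pair (natSet i) y := by
  induction s with
  | nil => exact absurd h (ZFSet.notMem_empty z)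
  | cons b s ih =>
    rw [nodeSet, ZFSet.mem_insert_iff] at h
    rcases h with rfl | h
    · exact ⟨s.length, by simp, _, rfl⟩
    · obtain ⟨i, hi, y, hy⟩ := ih h
      exact ⟨i, by simp; omega, y, hy⟩

theorem nodeSet_length {s s' : List Bool} (h : (nodeSet s : ZFSet.{u}) = nodeSet s') :
    s.length ≤ s'.length := by
  cases s with
  | nil => simp
  | cons b s =>
    have h1 : ZFSet.pair (natSet s.length) (natSet (if b then 1 else 0)) ∈
        (nodeSet (b :: s) : ZFSet.{u}) := by
      rw [nodeSet]; exact ZFSet.mem_insert _ _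
    rw [h] at h1
    obtain ⟨i, hi, y, hy⟩ := mem_nodeSet_lt h1
    have := natSet_inj (ZFSet.pair_inj.1 hy).1
    simp only [List.length_cons]
    omega

theorem nodeSet_inj {s : List Bool} : ∀ {s' : List Bool},
    (nodeSet s : ZFSet.{u}) = nodeSet s' → s = s' := by
  induction s with
  | nil =>
    intro s' h
    have := nodeSet_length h.symm
    simp only [List.length_nil, Nat.le_zero_eq, List.length_eq_zero_iff] at this
    exact this.symm
  | cons b s ih =>
    intro s' h
    have hlen := le_antisymm (nodeSet_length h) (nodeSet_length h.symm)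
    cases s' with
    | nil => simp at hlen
    | cons b' s' =>
      have hlen' : s.length = s'.length := by simpa using hlen
      have key : ∀ {c c' : Bool} {r r' : List Bool}, r.length = r'.length →
          (nodeSet (c :: r) : ZFSet.{u}) = nodeSet (c' :: r') → ∀ z ∈ nodeSet r, z ∈ nodeSet r' := by
        intro c c' r r' hl he z hz
        have h1 : z ∈ (nodeSet (c' :: r') : ZFSet.{u}) := by
          rw [← he, nodeSet]; exact ZFSet.mem_insert_of_mem _ hz
        rw [nodeSet, ZFSet.mem_insert_iff] at h1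
        rcases h1 with h1 | h1
        · exfalso
          obtain ⟨i, hi, y, hy⟩ := mem_nodeSet_lt hz
          rw [hy] at h1
          have := natSet_inj (ZFSet.pair_inj.1 h1).1
          omega
        · exact h1
      have h2 : (nodeSet s : ZFSet.{u}) = nodeSet s' := by
        ext z
        exact ⟨key hlen' h z, key hlen'.symm h.symm z⟩
      have h3 : ZFSet.pair (natSet s.length) (natSet (if b then 1 else 0)) ∈
          (nodeSet (b' :: s') : ZFSet.{u}) := by
        rw [← h, nodeSet]; exact ZFSet.mem_insert _ _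
      rw [nodeSet, ZFSet.mem_insert_iff] at h3
      rcases h3 with h3 | h3
      · have h4 := natSet_inj (ZFSet.pair_inj.1 h3).2
        have h5 : b = b' := by
          cases b <;> cases b' <;> simp at h4 <;> rfl
        rw [h5, ih h2]
      · exfalso
        obtain ⟨i, hi, y, hy⟩ := mem_nodeSet_lt h3
        have := natSet_inj (ZFSet.pair_inj.1 hy).1
        omega

variable {𝔹 : Type u} [CompleteBooleanAlgebra 𝔹]

/-! ### Forcing names -/

/-- The forcing name with the same elements as `x`, all with condition `one`. -/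
def sN (one : Name 𝔹) : Name 𝔹 → Name 𝔹
  | Name.mk ι A b => Name.mk ι (fun i => opN (sN one (A i)) one) b

theorem sN_eq (one x : Name 𝔹) :
    sN one x = Name.mk x.idx (fun i => opN (sN one (x.elt i)) one) x.wt := by cases x; rfl

theorem pure_sN {one x : Name 𝔹} (h1 : Pure one) (hx : Pure x) : Pure (sN one x) := by
  induction x using ind with
  | h x ih =>
    have hx' := (pure_iff x).1 hx
    rw [sN_eq, pure_iff]
    exact ⟨hx'.1, fun i => (ih i (hx'.2 i)).opN h1⟩

/-- Closure and genericity properties needed for forcing names. -/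
structure GoodS (one : Name 𝔹) (C : Set (Name 𝔹)) (U : Set 𝔹) : Prop where
  one_mem : one ∈ C
  sn : ∀ x ∈ C, sN one x ∈ C
  imp : ∀ x ∈ C, ∀ w ∈ C, Met C U (fam
    (fun i : x.idx => x.wt i ⊓ beq w (opN (sN one (x.elt i)) one)) fun i => [x.elt i])

variable {S : SymSys 𝔹} {C : Set (Name 𝔹)} {U : Set 𝔹}

theorem valG_sN {one : Name 𝔹} (h : Good S C U) (hS : GoodS one C U) {Γ : Set ZFSet.{u}}
    (hΓ : val C U one ∈ Γ) (x : Name 𝔹) : x ∈ C → valG Γ (val C U (sN one x)) = val C U x := by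
  induction x using ind with
  | h x ih =>
    intro hx
    ext z
    rw [mem_valG]
    constructor
    · rintro ⟨s, ⟨p, hp, hsp⟩, rfl⟩
      rw [sN_eq] at hsp
      obtain ⟨i, h1, h2, h3⟩ := mem_val.1 hsp
      change opN (sN one (x.elt i)) one ∈ C at h1
      change x.wt i ∈ U at h2
      change _ = val C U (opN (sN one (x.elt i)) one) at h3
      have h4 : (⨆ j : x.idx, x.wt j ⊓ beq (opN (sN one (x.elt i)) one)
          (opN (sN one (x.elt j)) one)) ∈ U := by
        refine h.up _ h2 _ (le_trans ?_ (le_iSup _ i))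
        rw [beq_refl, inf_top_eq]
      obtain ⟨j, h5, h6⟩ := (hS.imp x hx _ h1).wit h4
      have hj : x.elt j ∈ C := h6 _ (by simp)
      rw [h.inf_iff] at h5
      have hsj := hS.sn _ hj
      have hw : opN (sN one (x.elt j)) one ∈ C := h.opN_mem hsj hS.one_mem
      have h7 := (h.beq_iff _ _ h1 hw).1 h5.2
      rw [← h3, h.val_opN hsj hS.one_mem, ZFSet.pair_inj] at h7
      rw [h7.1, ih j hj]
      exact mem_val.2 ⟨j, hj, h5.1, rfl⟩
    · intro hz
      obtain ⟨i, h1, h2, rfl⟩ := mem_val.1 hz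
      have hsi := hS.sn _ h1
      refine ⟨val C U (sN one (x.elt i)), ⟨val C U one, hΓ, ?_⟩, (ih i h1).symm⟩
      rw [← h.val_opN hsi hS.one_mem, sN_eq]
      exact mem_val.2 ⟨i, h.opN_mem hsi hS.one_mem, h2, rfl⟩

/-- Forcing name of an unordered pair. -/
def pairS (one a b : Name 𝔹) : Name 𝔹 := pairN (opN a one) (opN b one)

/-- Forcing name of an ordered pair. -/
def opS (one a b : Name 𝔹) : Name 𝔹 := pairS one (pairS one a a) (pairS one a b)

theorem pairS_mem {one : Name 𝔹} (h : Good S C U) (h1 : one ∈ C) {a b : Name 𝔹} (ha : a ∈ C)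
    (hb : b ∈ C) : pairS one a b ∈ C := h.pair _ (h.opN_mem ha h1) _ (h.opN_mem hb h1)

theorem opS_mem {one : Name 𝔹} (h : Good S C U) (h1 : one ∈ C) {a b : Name 𝔹} (ha : a ∈ C)
    (hb : b ∈ C) : opS one a b ∈ C :=
  pairS_mem h h1 (pairS_mem h h1 ha ha) (pairS_mem h h1 ha hb)

theorem valG_pairS {one : Name 𝔹} (h : Good S C U) (h1 : one ∈ C) {Γ : Set ZFSet.{u}}
    (hΓ : val C U one ∈ Γ) {a b : Name 𝔹} (ha : a ∈ C) (hb : b ∈ C) :
    valG Γ (val C U (pairS one a b)) = {valG Γ (val C U a), valG Γ (val C U b)} := by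
  ext z
  rw [mem_valG, pairS, h.val_pairN (h.opN_mem ha h1) (h.opN_mem hb h1), h.val_opN ha h1,
    h.val_opN hb h1, ZFSet.mem_pair]
  simp only [ZFSet.mem_pair, ZFSet.pair_inj]
  constructor
  · rintro ⟨s, ⟨p, _, ⟨rfl, _⟩ | ⟨rfl, _⟩⟩, rfl⟩
    · exact Or.inl rfl
    · exact Or.inr rfl
  · rintro (rfl | rfl)
    · exact ⟨_, ⟨_, hΓ, Or.inl ⟨rfl, rfl⟩⟩, rfl⟩
    · exact ⟨_, ⟨_, hΓ, Or.inr ⟨rfl, rfl⟩⟩, rfl⟩

theorem valG_opS {one : Name 𝔹} (h : Good S C U) (h1 : one ∈ C) {Γ : Set ZFSet.{u}}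
    (hΓ : val C U one ∈ Γ) {a b : Name 𝔹} (ha : a ∈ C) (hb : b ∈ C) :
    valG Γ (val C U (opS one a b)) = ZFSet.pair (valG Γ (val C U a)) (valG Γ (val C U b)) := by
  rw [opS, valG_pairS h h1 hΓ (pairS_mem h h1 ha ha) (pairS_mem h h1 ha hb),
    valG_pairS h h1 hΓ ha ha, valG_pairS h h1 hΓ ha hb, ZFSet.pair, ZFSet.pair_eq_singleton]

/-! ### Trees -/

/-- The canonical name of a node. -/
def nodeN : List Bool → Name 𝔹
  | [] => empN
  | b :: s => insN (opN (natN s.length) (natN (if b then 1 else 0))) (nodeN s)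

theorem pure_nodeN (s : List Bool) : Pure (nodeN s : Name 𝔹) := by
  induction s with
  | nil => exact pure_empN
  | cons b s ih => exact ((pure_natN _).opN (pure_natN _)).insN ih

theorem val_nodeN (h : Good S C U) (s : List Bool) : val C U (nodeN s : Name 𝔹) = nodeSet s := by
  induction s with
  | nil => exact Good.val_empN
  | cons b s ih =>
    rw [nodeN, h.val_insN (h.opN_mem (h.nat _) (h.nat _)), h.val_opN (h.nat _) (h.nat _),
      h.val_natN, h.val_natN, ih, nodeSet]

/-- The name of a tree. -/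
def treeN (f : List Bool → 𝔹) : Name 𝔹 :=
  Name.mk (ULift.{u} (List Bool)) (fun s => nodeN s.down) fun s => f s.down

theorem nodes_treeN (h : Good S C U) (hn : ∀ s, (nodeN s : Name 𝔹) ∈ C) (f : List Bool → 𝔹) :
    nodes (val C U (treeN f)) = {s | f s ∈ U} := by
  ext s
  change nodeSet s ∈ val C U (treeN f) ↔ f s ∈ U
  rw [mem_val]
  constructor
  · rintro ⟨⟨t⟩, _, h2, h3⟩
    change f t ∈ U at h2
    change nodeSet s = val C U (nodeN t) at h3
    rw [val_nodeN h] at h3
    rwa [nodeSet_inj h3]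
  · intro hs
    exact ⟨⟨s⟩, hn s, hs, (val_nodeN h s).symm⟩

theorem mem_treeN (h : Good S C U) {f : List Bool → 𝔹} {z : ZFSet.{u}}
    (hz : z ∈ val C U (treeN f)) : ∃ s, z = nodeSet s := by
  obtain ⟨⟨t⟩, _, _, h3⟩ := mem_val.1 hz
  exact ⟨t, h3.trans (val_nodeN h t)⟩

theorem am_treeN (g : S.G) (f : List Bool → 𝔹) :
    S.am g (treeN f) = treeN fun s => S.act g (f s) := by
  change Name.mk _ (fun s : ULift.{u} (List Bool) => S.am g (nodeN s.down)) _ = _
  rw [treeN]
  congr 1
  exact funext fun s => S.am_pure (pure_nodeN _) g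

theorem hs_treeN {f : List Bool → 𝔹} {L : Subgroup S.G} (hL : L ∈ S.F)
    (hf : ∀ s, ∀ g ∈ L, S.act g (f s) = f s) : S.HS (treeN f) := by
  rw [SymSys.hs_iff]
  refine ⟨⟨L, hL, fun g hg => ?_⟩, fun s => S.hs_pure (pure_nodeN _)⟩
  rw [am_treeN]
  have : (fun s => S.act g (f s)) = f := funext fun s => hf s g hg
  rw [this, beq_refl]

theorem am_pairN (g : S.G) (x y : Name 𝔹) : S.am g (pairN x y) = pairN (S.am g x) (S.am g y) := by
  change Name.mk _ (fun i : ULift Bool => S.am g (cond i.down x y))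
    (fun _ => S.act g ⊤) = _
  rw [pairN]
  congr 1
  · funext i
    obtain ⟨i⟩ := i
    cases i <;> rfl
  · funext _
    exact (S.act g).map_top

theorem am_opN (g : S.G) (x y : Name 𝔹) : S.am g (opN x y) = opN (S.am g x) (S.am g y) := by
  rw [opN, am_pairN, am_pairN, am_pairN]; rfl

/-- A criterion for symmetry. -/
theorem hs_fam {ι : Type u} {A : ι → Name 𝔹} {b : ι → 𝔹} (hA : ∀ i, S.HS (A i))
    {L : Subgroup S.G} (hL : L ∈ S.F)
    (h : ∀ g ∈ L, ∀ i, ∃ j, S.act g (b i) ≤ b j ∧ S.am g (A i) = A j) :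
    S.HS (Name.mk ι A b) := by
  rw [SymSys.hs_iff]
  refine ⟨⟨L, hL, SymSys.fixed_of_bsub fun g hg => ?_⟩, hA⟩
  refine top_le_iff.1 (le_bsub_iff.2 fun i Δ _ hi => ?_)
  obtain ⟨j, h1, h2⟩ := h g hg i
  refine le_bmem_of_le (y := Name.mk ι A b) j (le_trans hi h1) ?_
  change Δ ≤ beq (S.am g (A i)) (A j)
  rw [h2, beq_refl]
  exact le_top

end SymExt
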