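import Pool.Agent.Lib.MP_694cb9_lc.Gen

/-!
# Truth lemma and the axioms of ZF
-/

namespace SymExt

universe u v w

open Name

/-! ### Renaming of variables -/

/-- Lift of a renaming under a quantifier. -/
def liftR {n m : ℕ} (f : Fin n → Fin m) : Fin (n + 1) → Fin (m + 1) :=
  Fin.cons 0 fun i => (f i).succ

/-- Renaming of the variables of a formula. -/
def Fml.rename : ∀ {n m : ℕ}, (Fin n → Fin m) → Fml n → Fml m
  | _, _, f, .mem i j => .mem (f i) (f j)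
  | _, _, f, .eq i j => .eq (f i) (f j)
  | _, _, _, .bot => .bot
  | _, _, f, .imp φ ψ => .imp (φ.rename f) (ψ.rename f)
  | _, _, f, .all φ => .all (φ.rename (liftR f))

theorem sat_rename {D : Set ZFSet.{u}} {n : ℕ} (φ : Fml n) : ∀ {m : ℕ} (f : Fin n → Fin m)
    (v : Fin m → ZFSet.{u}), Sat D (φ.rename f) v ↔ Sat D φ (fun i => v (f i)) := by
  induction φ with
  | mem i j => intros; rfl
  | eq i j => intros; rfl
  | bot => intros; rfl
  | imp φ ψ ih1 ih2 =>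
    intro m f v
    simp only [Fml.rename, Sat, ih1, ih2]
  | all φ ih =>
    intro m f v
    simp only [Fml.rename, Sat, ih]
    refine forall₂_congr fun x _ => ?_
    have : (fun i => (Fin.cons x v : Fin (m + 1) → ZFSet.{u}) (liftR f i)) =
        Fin.cons x (fun i => v (f i)) := by
      funext i
      refine Fin.cases ?_ (fun i => ?_) i <;> simp [liftR]
    rw [this]

/-- Negation. -/
def Fml.neg {n : ℕ} (φ : Fml n) : Fml n := .imp φ .bot
/-- Conjunction. -/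
def Fml.and {n : ℕ} (φ ψ : Fml n) : Fml n := (φ.imp ψ.neg).neg
/-- Existence. -/
def Fml.ex {n : ℕ} (φ : Fml (n + 1)) : Fml n := (Fml.all φ.neg).neg

@[simp] theorem sat_neg {D : Set ZFSet.{u}} {n : ℕ} (φ : Fml n) (v : Fin n → ZFSet.{u}) :
    Sat D φ.neg v ↔ ¬ Sat D φ v := Iff.rfl

@[simp] theorem sat_and {D : Set ZFSet.{u}} {n : ℕ} (φ ψ : Fml n) (v : Fin n → ZFSet.{u}) :
    Sat D (φ.and ψ) v ↔ Sat D φ v ∧ Sat D ψ v := by
  simp [Fml.and, Sat]

@[simp] theorem sat_ex {D : Set ZFSet.{u}} {n : ℕ} (φ : Fml (n + 1)) (v : Fin n → ZFSet.{u}) :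
    Sat D φ.ex v ↔ ∃ x ∈ D, Sat D φ (Fin.cons x v) := by
  simp [Fml.ex, Sat]

theorem mem_omega_iff {z : ZFSet.{u}} : z ∈ ZFSet.omega ↔ ∃ n, z = natSet n := by
  have key : ∀ n : ℕ, ZFSet.mk (PSet.ofNat n) = natSet.{u} n := by
    intro n
    induction n with
    | zero => rfl
    | succ n ih =>
      rw [natSet, ← ih]
      rfl
  constructor
  · intro h
    obtain ⟨z, rfl⟩ := Quotient.exists_rep z
    obtain ⟨⟨n⟩, hn⟩ := h
    exact ⟨n, (ZFSet.sound hn).trans (key n)⟩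
  · rintro ⟨n, rfl⟩
    induction n with
    | zero => exact ZFSet.omega_zero
    | succ n ih => exact ZFSet.omega_succ ih

variable {𝔹 : Type u}

/-- The value of a name. -/
noncomputable def val (C : Set (Name 𝔹)) (U : Set 𝔹) : Name 𝔹 → ZFSet.{u}
  | Name.mk ι A b => ZFSet.range (fun i : {i : ι // A i ∈ C ∧ b i ∈ U} => val C U (A i.1))

theorem mem_val {C : Set (Name 𝔹)} {U : Set 𝔹} {x : Name 𝔹} {z : ZFSet.{u}} :
    z ∈ val C U x ↔ ∃ i, x.elt i ∈ C ∧ x.wt i ∈ U ∧ z = val C U (x.elt i) := by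
  cases x with
  | mk ι A b =>
    simp only [val, ZFSet.mem_range, Subtype.exists, elt_mk, wt_mk]
    constructor
    · rintro ⟨i, h, rfl⟩; exact ⟨i, h.1, h.2, rfl⟩
    · rintro ⟨i, h1, h2, rfl⟩; exact ⟨i, ⟨h1, h2⟩, rfl⟩

theorem val_cons {C : Set (Name 𝔹)} {U : Set 𝔹} {n : ℕ} (a : Name 𝔹) (v : Fin n → Name 𝔹) :
    (fun i => val C U ((Fin.cons a v : Fin (n + 1) → Name 𝔹) i)) =
    Fin.cons (val C U a) (fun i => val C U (v i)) := by
  funext i
  refine Fin.cases ?_ (fun i => ?_) i <;> simp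

variable [CompleteBooleanAlgebra 𝔹] {S : SymSys 𝔹} {C : Set (Name 𝔹)} {U : Set 𝔹}

omit [CompleteBooleanAlgebra 𝔹] in
theorem forall_cons {n : ℕ} {P : Name 𝔹 → Prop} {a : Name 𝔹} {v : Fin n → Name 𝔹}
    (ha : P a) (hv : ∀ i, P (v i)) : ∀ i, P ((Fin.cons a v : Fin (n + 1) → Name 𝔹) i) := by
  intro i
  refine Fin.cases ?_ (fun i => ?_) i
  · simpa using ha
  · simpa using hv i

namespace Good

theorem inf_iff (h : Good S C U) {a b : 𝔹} : a ⊓ b ∈ U ↔ a ∈ U ∧ b ∈ U :=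
  ⟨fun h' => ⟨h.up _ h' _ inf_le_left, h.up _ h' _ inf_le_right⟩, fun h' => h.inf _ h'.1 _ h'.2⟩

theorem not_compl (h : Good S C U) {a : 𝔹} (ha : a ∈ U) : aᶜ ∉ U := fun h' =>
  h.bot (by rw [← inf_compl_eq_bot (a := a)]; exact h.inf _ ha _ h')

theorem mp (h : Good S C U) {a b : 𝔹} (h1 : a ⇨ b ∈ U) (h2 : a ∈ U) : b ∈ U :=
  h.up _ (h.inf _ h1 _ h2) _ (by rw [himp_inf_self]; exact inf_le_left)

theorem bex' (h : Good S C U) {n : ℕ} (φ : Fml (n + 1)) {x : Name 𝔹} (hx : x ∈ C)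
    {p : Fin n → Name 𝔹} (hp : ∀ i, p i ∈ C) :
    (⨆ i : x.idx, x.wt i ⊓ S.bval φ (Fin.cons (x.elt i) p)) ∈ U ↔
    ∃ i : x.idx, x.elt i ∈ C ∧ x.wt i ∈ U ∧ S.bval φ (Fin.cons (x.elt i) p) ∈ U := by
  constructor
  · intro h'
    obtain ⟨i, hi, hi'⟩ := (h.bex n φ x hx p hp).wit h'
    rw [h.inf_iff] at hi
    exact ⟨i, hi' _ (by simp), hi.1, hi.2⟩
  · rintro ⟨i, _, h1, h2⟩
    exact h.up _ (h.inf _ h1 _ h2) _ (le_iSup (fun i : x.idx =>
      x.wt i ⊓ S.bval φ (Fin.cons (x.elt i) p)) i)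

theorem bmem_iff' (h : Good S C U) {x y : Name 𝔹} (hx : x ∈ C) (hy : y ∈ C) :
    bmem x y ∈ U ↔ ∃ i, y.elt i ∈ C ∧ y.wt i ∈ U ∧ beq x (y.elt i) ∈ U :=
  h.bex' (.eq 1 0) hy (p := fun _ : Fin 1 => x) fun _ => hx

theorem bsub_iff' (h : Good S C U) {x y : Name 𝔹} (hx : x ∈ C) (hy : y ∈ C) :
    bsub x y ∈ U ↔ ∀ i, x.elt i ∈ C → x.wt i ∈ U → bmem (x.elt i) y ∈ U := by
  constructor
  · intro h' i _ h2
    exact h.mp (h.up _ h' _ (iInf_le _ i)) h2
  · intro h'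
    have key := h.bex 1 (Fml.neg (.mem 0 1)) x hx (fun _ => y) (fun _ => hy)
    rcases key.dec with h1 | h1
    · obtain ⟨i, hi, hi'⟩ := key.wit h1
      rw [h.inf_iff] at hi
      have h2 := h' i (hi' _ (by simp)) hi.1
      have h3 := h.mp hi.2 h2
      exact absurd h3 h.bot
    · refine h.up _ h1 _ ?_
      rw [compl_iSup]
      refine iInf_mono fun i => ?_
      change (x.wt i ⊓ (bmem (x.elt i) y ⇨ ⊥))ᶜ ≤ x.wt i ⇨ bmem (x.elt i) y
      rw [himp_bot, compl_inf, compl_compl, himp_eq, sup_comm]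

theorem beq_iff (h : Good S C U) (x : Name 𝔹) : ∀ y : Name 𝔹, x ∈ C → y ∈ C →
    (beq x y ∈ U ↔ val C U x = val C U y) := by
  induction x using ind with
  | h x ih =>
    intro y hx hy
    have h1 : ∀ i, x.elt i ∈ C → (bmem (x.elt i) y ∈ U ↔ val C U (x.elt i) ∈ val C U y) := by
      intro i hi
      rw [h.bmem_iff' hi hy, mem_val]
      refine exists_congr fun j => ?_
      constructor
      · rintro ⟨h1, h2, h3⟩; exact ⟨h1, h2, (ih i _ hi h1).1 h3⟩
      · rintro ⟨h1, h2, h3⟩; exact ⟨h1, h2, (ih i _ hi h1).2 h3⟩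
    have h2 : ∀ j, y.elt j ∈ C → (bmem (y.elt j) x ∈ U ↔ val C U (y.elt j) ∈ val C U x) := by
      intro j hj
      rw [h.bmem_iff' hj hx, mem_val]
      refine exists_congr fun i => ?_
      constructor
      · rintro ⟨h1, h2, h3⟩
        rw [beq_symm] at h3
        exact ⟨h1, h2, ((ih i _ h1 hj).1 h3).symm⟩
      · rintro ⟨h1, h2, h3⟩
        refine ⟨h1, h2, ?_⟩
        rw [beq_symm]
        exact (ih i _ h1 hj).2 h3.symm
    rw [beq_eq_bsub, h.inf_iff, h.bsub_iff' hx hy, h.bsub_iff' hy hx]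
    constructor
    · rintro ⟨h3, h4⟩
      ext z
      constructor
      · intro hz
        obtain ⟨i, hi, hi', rfl⟩ := mem_val.1 hz
        exact (h1 i hi).1 (h3 i hi hi')
      · intro hz
        obtain ⟨i, hi, hi', rfl⟩ := mem_val.1 hz
        exact (h2 i hi).1 (h4 i hi hi')
    · intro h3
      constructor
      · intro i hi hi'
        rw [h1 i hi, ← h3]
        exact mem_val.2 ⟨i, hi, hi', rfl⟩
      · intro i hi hi'
        rw [h2 i hi, h3]
        exact mem_val.2 ⟨i, hi, hi', rfl⟩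

theorem bmem_iff (h : Good S C U) {x y : Name 𝔹} (hx : x ∈ C) (hy : y ∈ C) :
    bmem x y ∈ U ↔ val C U x ∈ val C U y := by
  rw [h.bmem_iff' hx hy, mem_val]
  refine exists_congr fun j => ?_
  constructor
  · rintro ⟨h1, h2, h3⟩; exact ⟨h1, h2, (h.beq_iff x _ hx h1).1 h3⟩
  · rintro ⟨h1, h2, h3⟩; exact ⟨h1, h2, (h.beq_iff x _ hx h1).2 h3⟩

theorem bsub_iff (h : Good S C U) {x y : Name 𝔹} (hx : x ∈ C) (hy : y ∈ C) :
    bsub x y ∈ U ↔ val C U x ⊆ val C U y := by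
  rw [h.bsub_iff' hx hy]
  constructor
  · intro h1 z hz
    obtain ⟨i, hi, hi', rfl⟩ := mem_val.1 hz
    exact (h.bmem_iff hi hy).1 (h1 i hi hi')
  · intro h1 i hi hi'
    rw [h.bmem_iff hi hy]
    exact h1 (mem_val.2 ⟨i, hi, hi', rfl⟩)

/-- The general truth lemma. -/
theorem truth_aux (h : Good S C U) (D : Dom.{u, v} 𝔹) (M : Set ZFSet.{u})
    (hD : ∀ x : D.I, D.A x ∈ C → D.b x ∈ U → val C U (D.A x) ∈ M)
    (hM : ∀ z ∈ M, ∃ x : D.I, D.A x ∈ C ∧ D.b x ∈ U ∧ z = val C U (D.A x))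
    (hdec : ∀ (n : ℕ) (φ : Fml n) (p : Fin n → Name 𝔹), (∀ i, p i ∈ C) →
      bv D φ p ∈ U ∨ (bv D φ p)ᶜ ∈ U)
    (hall : ∀ (n : ℕ) (φ : Fml (n + 1)) (p : Fin n → Name 𝔹), (∀ i, p i ∈ C) →
      (⨆ x : D.I, D.b x ⊓ (bv D φ (Fin.cons (D.A x) p))ᶜ) ∈ U →
      ∃ x : D.I, D.A x ∈ C ∧ D.b x ∈ U ∧ (bv D φ (Fin.cons (D.A x) p))ᶜ ∈ U)
    {n : ℕ} (φ : Fml n) : ∀ v : Fin n → Name 𝔹, (∀ i, v i ∈ C) →
      (Sat M φ (fun i => val C U (v i)) ↔ bv D φ v ∈ U) := by
  induction φ with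
  | mem i j => intro v hv; exact (h.bmem_iff (hv i) (hv j)).symm
  | eq i j => intro v hv; exact (h.beq_iff _ _ (hv i) (hv j)).symm
  | bot => intro v _; exact ⟨fun h' => h'.elim, fun h' => h.bot h'⟩
  | imp φ ψ ih1 ih2 =>
    intro v hv
    simp only [Sat, bv, ih1 v hv, ih2 v hv]
    constructor
    · intro h1
      rcases hdec _ φ v hv with h2 | h2
      · exact h.up _ (h1 h2) _ le_himp
      · refine h.up _ h2 _ ?_
        rw [himp_eq]; exact le_sup_right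
    · intro h1 h2
      exact h.mp h1 h2
  | all φ ih =>
    intro v hv
    constructor
    · intro h1
      rcases hdec _ (.all φ) v hv with h2 | h2
      · exact h2
      · exfalso
        have h3 : (⨆ x : D.I, D.b x ⊓ (bv D φ (Fin.cons (D.A x) v))ᶜ) ∈ U := by
          refine h.up _ h2 _ ?_
          simp only [bv]
          rw [compl_iInf]
          refine iSup_mono fun x => ?_
          rw [himp_eq, compl_sup, compl_compl, inf_comm]
        obtain ⟨x, hx1, hx2, hx3⟩ := hall _ φ v hv h3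
        have h4 := h1 _ (hD x hx1 hx2)
        rw [← val_cons] at h4
        exact h.not_compl ((ih _ (forall_cons hx1 hv)).1 h4) hx3
    · intro h1 z hz
      obtain ⟨x, hx1, hx2, rfl⟩ := hM z hz
      rw [← val_cons]
      refine (ih _ (forall_cons hx1 hv)).2 ?_
      exact h.mp (h.up _ h1 _ (iInf_le _ x)) hx2

end Good

/-- The model. -/
def model (S : SymSys 𝔹) (C : Set (Name 𝔹)) (U : Set 𝔹) : Set ZFSet.{u} :=
  {z | ∃ x ∈ C, S.HS x ∧ z = val C U x}

theorem model_countable (h : Good S C U) : (model S C U).Countable := by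
  refine (h.countable.image (val C U)).mono ?_
  rintro z ⟨x, hx, _, rfl⟩
  exact ⟨x, hx, rfl⟩

namespace Good

theorem truth (h : Good S C U) {n : ℕ} (φ : Fml n) (v : Fin n → Name 𝔹) (hv : ∀ i, v i ∈ C) :
    Sat (model S C U) φ (fun i => val C U (v i)) ↔ S.bval φ v ∈ U := by
  refine h.truth_aux S.dom (model S C U) ?_ ?_ h.dec ?_ φ v hv
  · intro x hx _
    exact ⟨x.1, hx, x.2, rfl⟩
  · rintro z ⟨x, hx, hx', rfl⟩
    exact ⟨⟨x, hx'⟩, hx, h.top, rfl⟩
  · intro n φ p hp h'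
    have key := h.all n φ p hp
    have h2 : (⨆ x : {x // S.HS x}, (S.bval φ (Fin.cons x.1 p))ᶜ) ∈ U := by
      refine h.up _ h' _ (iSup_mono fun x => inf_le_right)
    obtain ⟨x, hx, hx'⟩ := key.wit h2
    exact ⟨x, hx' x.1 (by simp), h.top, hx⟩

/-- Truth in the structure given by a name. -/
theorem rtruth (h : Good S C U) {x : Name 𝔹} (hx : x ∈ C) {n : ℕ} (φ : Fml n)
    (v : Fin n → Name 𝔹) (hv : ∀ i, v i ∈ C) :
    Sat {z | z ∈ val C U x} φ (fun i => val C U (v i)) ↔ bv x.dom φ v ∈ U := by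
  refine h.truth_aux x.dom _ ?_ ?_ (fun n φ p hp => h.rdec n φ x hx p hp) ?_ φ v hv
  · intro i h1 h2
    exact mem_val.2 ⟨i, h1, h2, rfl⟩
  · intro z hz
    obtain ⟨i, h1, h2, h3⟩ := mem_val.1 hz
    exact ⟨i, h1, h2, h3⟩
  · intro n φ p hp h'
    obtain ⟨i, hi, hi'⟩ := (h.rall n φ x hx p hp).wit h'
    rw [h.inf_iff] at hi
    exact ⟨i, hi' (x.elt i) (by simp), hi.1, hi.2⟩

theorem val_pairN (h : Good S C U) {x y : Name 𝔹} (hx : x ∈ C) (hy : y ∈ C) :
    val C U (pairN x y) = {val C U x, val C U y} := by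
  ext z
  rw [mem_val, ZFSet.mem_pair]
  constructor
  · rintro ⟨⟨i⟩, _, _, rfl⟩
    cases i
    · exact Or.inr rfl
    · exact Or.inl rfl
  · rintro (rfl | rfl)
    · exact ⟨⟨true⟩, hx, h.top, rfl⟩
    · exact ⟨⟨false⟩, hy, h.top, rfl⟩

theorem opN_mem (h : Good S C U) {x y : Name 𝔹} (hx : x ∈ C) (hy : y ∈ C) : opN x y ∈ C :=
  h.pair _ (h.pair _ hx _ hx) _ (h.pair _ hx _ hy)

theorem val_opN (h : Good S C U) {x y : Name 𝔹} (hx : x ∈ C) (hy : y ∈ C) :
    val C U (opN x y) = ZFSet.pair (val C U x) (val C U y) := by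
  rw [opN, h.val_pairN (h.pair _ hx _ hx) (h.pair _ hx _ hy), h.val_pairN hx hx, h.val_pairN hx hy,
    ZFSet.pair, ZFSet.pair_eq_singleton]

theorem val_insN (h : Good S C U) {a x : Name 𝔹} (ha : a ∈ C) :
    val C U (insN a x) = insert (val C U a) (val C U x) := by
  ext z
  rw [mem_val, ZFSet.mem_insert_iff, mem_val]
  constructor
  · rintro ⟨i, h1, h2, rfl⟩
    cases i with
    | none => exact Or.inl rfl
    | some i => exact Or.inr ⟨i, h1, h2, rfl⟩
  · rintro (rfl | ⟨i, h1, h2, rfl⟩)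
    · exact ⟨none, ha, h.top, rfl⟩
    · exact ⟨some i, h1, h2, rfl⟩

omit [CompleteBooleanAlgebra 𝔹] in
theorem val_empN : val C U (empN : Name 𝔹) = ∅ := by
  ext z
  rw [mem_val]
  constructor
  · rintro ⟨i, _⟩; exact i.elim
  · intro hz; exact absurd hz (ZFSet.notMem_empty z)

theorem val_natN (h : Good S C U) (n : ℕ) : val C U (natN n : Name 𝔹) = natSet n := by
  induction n with
  | zero => exact val_empN
  | succ n ih => rw [natN, h.val_insN (h.nat n), ih, natSet]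

theorem val_omegaN (h : Good S C U) : val C U (omegaN : Name 𝔹) = ZFSet.omega := by
  ext z
  rw [mem_val, mem_omega_iff]
  constructor
  · rintro ⟨⟨n⟩, _, _, rfl⟩
    exact ⟨n, h.val_natN n⟩
  · rintro ⟨n, rfl⟩
    exact ⟨⟨n⟩, h.nat n, h.top, (h.val_natN n).symm⟩

theorem sep_mem (h : Good S C U) : ∀ x ∈ model S C U, ∀ (n : ℕ) (φ : Fml (n + 1))
    (p : Fin n → ZFSet.{u}), (∀ i, p i ∈ model S C U) →
    ZFSet.sep (fun y => Sat (model S C U) φ (Fin.cons y p)) x ∈ model S C U := by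
  rintro x ⟨x, hx, hx', rfl⟩ n φ p hp
  choose q hq hq' hq'' using hp
  have hpq : p = fun i => val C U (q i) := funext hq''
  refine ⟨_, h.sep n φ x hx q hq, SymSys.hs_sepN_bval hx' fun i => (hq' i).symm, ?_⟩
  ext z
  rw [ZFSet.mem_sep, mem_val, mem_val, hpq]
  constructor
  · rintro ⟨⟨i, h1, h2, rfl⟩, h3⟩
    rw [← val_cons] at h3
    exact ⟨i, h1, h.inf _ h2 _ ((h.truth φ _ (forall_cons h1 hq)).1 h3), rfl⟩
  · rintro ⟨i, h1, h2, rfl⟩
    have h3 := (h.inf_iff).1 h2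
    refine ⟨⟨i, h1, h3.1, rfl⟩, ?_⟩
    change Sat _ φ (Fin.cons (val C U (x.elt i)) _)
    rw [← val_cons]
    exact (h.truth φ _ (forall_cons h1 hq)).2 h3.2

theorem trans_mem (h : Good S C U) : ∀ x ∈ model S C U, ∀ y ∈ x, y ∈ model S C U := by
  rintro x ⟨x, hx, hx', rfl⟩ y hy
  obtain ⟨i, h1, _, rfl⟩ := mem_val.1 hy
  exact ⟨_, h1, hx'.elt i, rfl⟩

/-- The model satisfies ZF. -/
theorem isZF (h : Good S C U) : IsZF (model S C U) where
  trans := h.trans_mem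
  omega := ⟨omegaN, h.omega, S.hs_pure pure_omegaN, h.val_omegaN.symm⟩
  pair := by
    rintro x ⟨x, hx, hx', rfl⟩ y ⟨y, hy, hy', rfl⟩
    exact ⟨pairN x y, h.pair _ hx _ hy, SymSys.hs_pairN hx' hy', (h.val_pairN hx hy).symm⟩
  union := by
    rintro x ⟨x, hx, hx', rfl⟩
    refine ⟨unionN x, h.union x hx, SymSys.hs_unionN hx', ?_⟩
    ext z
    rw [ZFSet.mem_sUnion, mem_val]
    constructor
    · rintro ⟨y, hy, hz⟩
      obtain ⟨i, h1, h2, rfl⟩ := mem_val.1 hy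
      obtain ⟨j, h3, h4, rfl⟩ := mem_val.1 hz
      exact ⟨⟨i, j⟩, h3, h.inf _ h2 _ h4, rfl⟩
    · rintro ⟨⟨i, j⟩, h1, h2, rfl⟩
      have h3 : bmem ((x.elt i).elt j) (unionN x) ∈ U :=
        h.up _ h2 _ (le_bmem_elt (y := unionN x) ⟨i, j⟩ le_rfl)
      rw [bmem_unionN] at h3
      have h1' : (x.elt i).elt j ∈ C := h1
      obtain ⟨k, hk1, hk2, hk3⟩ := (h.bex' (.mem 1 0) hx
        (p := fun _ : Fin 1 => (x.elt i).elt j) fun _ => h1).1 h3
      exact ⟨_, mem_val.2 ⟨k, hk1, hk2, rfl⟩, (h.bmem_iff h1' hk1).1 hk3⟩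
  power := by
    rintro x ⟨x, hx, hx', rfl⟩
    refine ⟨val C U (S.powN x), ⟨_, h.pow x hx, SymSys.hs_powN hx', rfl⟩, fun y => ?_⟩
    constructor
    · intro hy
      obtain ⟨f, hf1, hf2, rfl⟩ := mem_val.1 hy
      exact ⟨⟨_, hf1, f.2, rfl⟩, (h.bsub_iff hf1 hx).1 hf2⟩
    · rintro ⟨⟨y, hy, hy', rfl⟩, hs⟩
      rw [← h.bmem_iff hy (h.pow x hx)]
      exact h.up _ ((h.bsub_iff hy hx).2 hs) _ (SymSys.le_bmem_powN hx' hy'.symm le_rfl)
  sep := h.sep_mem
  repl := by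
    rintro x ⟨x, hx, hx', rfl⟩ n φ p hp huniq
    choose q hq hq' hq'' using hp
    have hpq : p = fun i => val C U (q i) := funext hq''
    have hσC : S.collN x (fun a y => S.bval φ (Fin.cons y (Fin.cons a q))) ∈ C :=
      h.coll n φ x hx q hq
    set σ := S.collN x (fun a y => S.bval φ (Fin.cons y (Fin.cons a q))) with hσ
    have hσN : val C U σ ∈ model S C U := ⟨σ, hσC, SymSys.hs_collN _ _, rfl⟩
    have hxN : val C U x ∈ model S C U := ⟨x, hx, hx', rfl⟩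
    let f : Fin (n + 2) → Fin (n + 3) := Fin.cons 1 (Fin.cons 0 fun i => i.succ.succ.succ)
    let ψ : Fml (n + 2) := Fml.ex (Fml.and (.mem 0 2) (φ.rename f))
    have hψ : ∀ z, Sat (model S C U) ψ (Fin.cons z (Fin.cons (val C U x) p)) ↔
        ∃ y ∈ val C U x, Sat (model S C U) φ (Fin.cons z (Fin.cons y p)) := by
      intro z
      simp only [ψ, sat_ex, sat_and, sat_rename]
      have e : ∀ y : ZFSet.{u}, (fun i => (Fin.cons y (Fin.cons z (Fin.cons (val C U x) p)) :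
          Fin (n + 3) → ZFSet.{u}) (f i)) = Fin.cons z (Fin.cons y p) := by
        intro y
        funext i
        refine Fin.cases ?_ (fun i => ?_) i
        · simp [f]
        · refine Fin.cases ?_ (fun i => ?_) i
          · simp [f]
          · simp [f]
      constructor
      · rintro ⟨y, _, hy, hy'⟩
        rw [e] at hy'
        exact ⟨y, hy, hy'⟩
      · rintro ⟨y, hy, hy'⟩
        exact ⟨y, h.trans_mem _ hxN y hy, hy, by rw [e]; exact hy'⟩
    refine ⟨_, h.sep_mem _ hσN (n + 1) ψ (Fin.cons (val C U x) p) ?_, fun z => ?_⟩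
    · intro i
      refine Fin.cases ?_ (fun i => ?_) i
      · simpa using hxN
      · simp only [Fin.cons_succ]
        exact ⟨q i, hq i, hq' i, hq'' i⟩
    · rw [ZFSet.mem_sep, hψ]
      constructor
      · rintro ⟨h1, y, hy, hy'⟩
        exact ⟨y, hy, h.trans_mem _ hσN z h1, hy'⟩
      · rintro ⟨y, hy, ⟨ζ, hζ, hζ', rfl⟩, hz⟩
        refine ⟨?_, y, hy, hz⟩
        obtain ⟨i, h1, h2, rfl⟩ := mem_val.1 hy
        have h3 : S.bval φ (Fin.cons ζ (Fin.cons (x.elt i) q)) ∈ U := by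
          rw [← h.truth φ _ (forall_cons hζ (forall_cons h1 hq)), val_cons, val_cons, ← hpq]
          exact hz
        obtain ⟨j, hj⟩ := SymSys.exists_collN x
          (fun a y => S.bval φ (Fin.cons y (Fin.cons a q))) i hζ'
        have h4 : (⨆ j : σ.idx, σ.wt j ⊓ S.bval φ (Fin.cons (σ.elt j) (Fin.cons (x.elt i) q)))
            ∈ U := by
          refine h.up _ h3 _ (le_trans ?_ (le_iSup _ j))
          exact le_inf le_top hj.le
        obtain ⟨k, hk1, hk2, hk3⟩ := (h.bex' φ hσC (forall_cons h1 hq)).1 h4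
        have h5 : Sat (model S C U) φ (Fin.cons (val C U (σ.elt k))
            (Fin.cons (val C U (x.elt i)) p)) := by
          rw [hpq, ← val_cons, ← val_cons]
          exact (h.truth φ _ (forall_cons hk1 (forall_cons h1 hq))).2 hk3
        have hkσ : val C U (σ.elt k) ∈ val C U σ := mem_val.2 ⟨k, hk1, hk2, rfl⟩
        obtain ⟨z', _, hz'⟩ := huniq _ hy
        have e1 := hz' _ ⟨h.trans_mem _ hσN _ hkσ, h5⟩
        have e2 := hz' _ ⟨⟨ζ, hζ, hζ', rfl⟩, hz⟩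
        rw [e2, ← e1]
        exact hkσ

end Good

end SymExt
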