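import Mathlib

/-!
# Formulas of set theory, transitive models of ZF, and the constructible hierarchy over a real

Everything here is semantic: models are transitive classes `N : Set ZFSet` with the true
membership relation.
-/

namespace SymExt

universe u

/-- Formulas of the language of set theory with free variables `0, ..., n-1`.
The quantifier binds a new variable which is put in front (index `0`). -/
inductive Fml : ℕ → Type
  | mem {n : ℕ} (i j : Fin n) : Fml n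
  | eq {n : ℕ} (i j : Fin n) : Fml n
  | bot {n : ℕ} : Fml n
  | imp {n : ℕ} (φ ψ : Fml n) : Fml n
  | all {n : ℕ} (φ : Fml (n + 1)) : Fml n

/-- Satisfaction of a formula in the structure `(D, ∈)` under the assignment `v`. -/
def Sat (D : Set ZFSet.{u}) : ∀ {n : ℕ}, Fml n → (Fin n → ZFSet.{u}) → Prop
  | _, .mem i j, v => v i ∈ v j
  | _, .eq i j, v => v i = v j
  | _, .bot, _ => False
  | _, .imp φ ψ, v => Sat D φ v → Sat D ψ v
  | _, .all φ, v => ∀ x ∈ D, Sat D φ (Fin.cons x v)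

/-- `N` is a transitive model of ZF.  (Extensionality and Foundation hold in every transitive
class; the other axioms are listed, Separation and Replacement being schemes.) -/
structure IsZF (N : Set ZFSet.{u}) : Prop where
  /-- `N` is transitive -/
  trans : ∀ x ∈ N, ∀ y ∈ x, y ∈ N
  /-- Infinity -/
  omega : ZFSet.omega ∈ N
  /-- Pairing -/
  pair : ∀ x ∈ N, ∀ y ∈ N, ({x, y} : ZFSet) ∈ N
  /-- Union -/
  union : ∀ x ∈ N, ZFSet.sUnion x ∈ N
  /-- Power set -/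
  power : ∀ x ∈ N, ∃ P ∈ N, ∀ y, y ∈ P ↔ y ∈ N ∧ y ⊆ x
  /-- Separation -/
  sep : ∀ x ∈ N, ∀ (n : ℕ) (φ : Fml (n + 1)) (p : Fin n → ZFSet.{u}), (∀ i, p i ∈ N) →
    ZFSet.sep (fun y => Sat N φ (Fin.cons y p)) x ∈ N
  /-- Replacement -/
  repl : ∀ x ∈ N, ∀ (n : ℕ) (φ : Fml (n + 2)) (p : Fin n → ZFSet.{u}), (∀ i, p i ∈ N) →
    (∀ y ∈ x, ∃! z, z ∈ N ∧ Sat N φ (Fin.cons z (Fin.cons y p))) →
    ∃ w ∈ N, ∀ z, z ∈ w ↔ ∃ y ∈ x, z ∈ N ∧ Sat N φ (Fin.cons z (Fin.cons y p))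

/-- `f` is (the graph of) a function from a subset of `ω` onto `a`. -/
def PSurj (f a : ZFSet.{u}) : Prop :=
  (∀ z ∈ f, ∃ n ∈ ZFSet.omega, ∃ y ∈ a, z = ZFSet.pair n y) ∧
  (∀ n y y', ZFSet.pair n y ∈ f → ZFSet.pair n y' ∈ f → y = y') ∧
  (∀ y ∈ a, ∃ n, ZFSet.pair n y ∈ f)

/-- `κ` is the first uncountable ordinal of the transitive class `N`. -/
def IsOmegaOne (N : Set ZFSet.{u}) (κ : ZFSet.{u}) : Prop :=
  κ ∈ N ∧ κ.IsOrdinal ∧ (∀ α ∈ κ, ∃ f ∈ N, PSurj f α) ∧ ¬ ∃ f ∈ N, PSurj f κ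

/-- The subsets of the set `A` that are definable over the structure `(A, ∈)` with parameters
from `A`. -/
noncomputable def DefSet (A : ZFSet.{u}) : ZFSet.{u} :=
  ZFSet.sep (fun B => ∃ (n : ℕ) (φ : Fml (n + 1)) (p : Fin n → ZFSet.{u}), (∀ i, p i ∈ A) ∧
    ∀ y ∈ A, y ∈ B ↔ Sat {z | z ∈ A} φ (Fin.cons y p)) (ZFSet.powerset A)

/-- The levels of the constructible hierarchy over the real `x ⊆ ω`:
`LRel x β = L_β[x]` for ordinals `β`, where `L_0[x] = ω ∪ {x}`,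
`L_{β+1}[x]` is the set of definable subsets of `L_β[x]`
(and the elements of `ω ∪ {x}`, which is transitive), and unions are taken at limits. -/
noncomputable def LRel (x : ZFSet.{u}) (β : ZFSet.{u}) : ZFSet.{u} :=
  (ZFSet.omega ∪ {x}) ∪ ZFSet.iUnion (fun γ : {γ // γ ∈ β} => DefSet (LRel x γ.1))
termination_by β
decreasing_by exact γ.2

/-- In the transitive model `N`, `ω₁` (which is `κ`) is inaccessible to reals:
for every real `x` of `N`, the first uncountable cardinal of `L[x]` is less than `κ`, that is,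
some `α < κ` is not countable in `L[x]`. -/
def InaccToReals (N : Set ZFSet.{u}) (κ : ZFSet.{u}) : Prop :=
  ∀ x ∈ N, x ⊆ ZFSet.omega → ∃ α ∈ κ, ∀ β ∈ N, β.IsOrdinal → ∀ f ∈ LRel x β, ¬ PSurj f α

/-- The natural number `n` as a set. -/
noncomputable def natSet : ℕ → ZFSet.{u}
  | 0 => ∅
  | n + 1 => insert (natSet n) (natSet n)

/-- The finite 0-1 sequence `s` as a set, namely the function `length s → 2`. Sequences are
written backwards: `b :: s` is the sequence `s` extended by the last value `b`. -/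
noncomputable def nodeSet : List Bool → ZFSet.{u}
  | [] => ∅
  | b :: s => insert (ZFSet.pair (natSet s.length) (natSet (if b then 1 else 0))) (nodeSet s)

/-- A perfect subtree of `2^{<ω}`: a nonempty set of nodes, closed under initial segments, in which
every node has two incomparable extensions. (`s <:+ t` says that `t` extends `s`.) -/
def PerfectTree (T : Set (List Bool)) : Prop :=
  T.Nonempty ∧ (∀ s ∈ T, ∀ t, t <:+ s → t ∈ T) ∧
  ∀ s ∈ T, ∃ t ∈ T, ∃ t' ∈ T, s <:+ t ∧ s <:+ t' ∧ ¬ t <:+ t' ∧ ¬ t' <:+ t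

/-- The nodes of a set. -/
def nodes (p : ZFSet.{u}) : Set (List Bool) := {s | nodeSet s ∈ p}

/-- Sacks forcing of the transitive model `N`: the perfect trees in `N`; the order is `⊆`. -/
def Sacks (N : Set ZFSet.{u}) : Set ZFSet.{u} :=
  {p | p ∈ N ∧ (∀ z ∈ p, ∃ s, z = nodeSet s) ∧ PerfectTree (nodes p)}

/-- `Γ` is an `N`-generic filter on the Sacks forcing of `N`. -/
def SacksGeneric (N Γ : Set ZFSet.{u}) : Prop :=
  Γ ⊆ Sacks N ∧ Γ.Nonempty ∧ (∀ p ∈ Γ, ∀ q ∈ Sacks N, p ⊆ q → q ∈ Γ) ∧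
  (∀ p ∈ Γ, ∀ q ∈ Γ, ∃ r ∈ Γ, r ⊆ p ∧ r ⊆ q) ∧
  ∀ D ∈ N, (∀ p ∈ D, p ∈ Sacks N) → (∀ p ∈ Sacks N, ∃ q ∈ D, q ⊆ p) → ∃ p ∈ D, p ∈ Γ

/-- The interpretation of the name `t` by the filter `Γ`:
`val_Γ(t) = {val_Γ(s) : (s, p) ∈ t for some p ∈ Γ}`. -/
noncomputable def valG (Γ : Set ZFSet.{u}) (t : ZFSet.{u}) : ZFSet.{u} :=
  ZFSet.range (fun s : {s // s ∈ ZFSet.sep (fun s => ∃ p ∈ Γ, ZFSet.pair s p ∈ t)
    (ZFSet.sUnion (ZFSet.sUnion t))} => valG Γ s.1)
termination_by t.rank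
decreasing_by
  have h := s.2
  rw [ZFSet.mem_sep] at h
  obtain ⟨_, p, _, hp⟩ := h
  have h1 : s.1 ∈ ({s.1} : ZFSet) := by simp
  have h2 : ({s.1} : ZFSet) ∈ ZFSet.pair s.1 p := by simp [ZFSet.pair]
  exact (ZFSet.rank_lt_of_mem h1).trans ((ZFSet.rank_lt_of_mem h2).trans (ZFSet.rank_lt_of_mem hp))

theorem mem_valG {Γ : Set ZFSet.{u}} {t z : ZFSet.{u}} :
    z ∈ valG Γ t ↔ ∃ s, (∃ p ∈ Γ, ZFSet.pair s p ∈ t) ∧ z = valG Γ s := by
  rw [valG]
  simp only [ZFSet.mem_range, Subtype.exists]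
  constructor
  · rintro ⟨s, hs, rfl⟩
    rw [ZFSet.mem_sep] at hs
    exact ⟨s, hs.2, rfl⟩
  · rintro ⟨s, ⟨p, hp, hs⟩, rfl⟩
    refine ⟨s, ?_, rfl⟩
    rw [ZFSet.mem_sep]
    refine ⟨?_, p, hp, hs⟩
    rw [ZFSet.mem_sUnion]
    refine ⟨{s}, ?_, by simp⟩
    rw [ZFSet.mem_sUnion]
    exact ⟨_, hs, by simp [ZFSet.pair]⟩

/-- The generic extension `N[Γ]`. -/
def GenExt (N Γ : Set ZFSet.{u}) : Set ZFSet.{u} := {y | ∃ t ∈ N, y = valG Γ t}

end SymExt
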