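import Pool.Agent.Lib.MP_694cb9_lc.BName
import Pool.Agent.Lib.MP_694cb9_lc.Defs

/-!
# Boolean values of formulas, with quantifiers over a weighted family of names
-/

namespace SymExt

universe u v w

variable {𝔹 : Type u}

/-- A weighted family of names, the range of the quantifiers. -/
structure Dom (𝔹 : Type u) where
  /-- index type -/
  I : Type v
  /-- names -/
  A : I → Name 𝔹
  /-- weights -/
  b : I → 𝔹

/-- The domain given by a name. -/
def Name.dom (x : Name 𝔹) : Dom.{u, u} 𝔹 := ⟨x.idx, x.elt, x.wt⟩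

variable [CompleteBooleanAlgebra 𝔹]

open Name

/-- The Boolean value of a formula over a domain. -/
def bv (D : Dom.{u, v} 𝔹) : ∀ {n : ℕ}, Fml n → (Fin n → Name 𝔹) → 𝔹
  | _, .mem i j, v => bmem (v i) (v j)
  | _, .eq i j, v => beq (v i) (v j)
  | _, .bot, _ => ⊥
  | _, .imp φ ψ, v => bv D φ v ⇨ bv D ψ v
  | _, .all φ, v => ⨅ x : D.I, D.b x ⇨ bv D φ (Fin.cons (D.A x) v)

theorem bv_congr (D : Dom.{u, v} 𝔹) {n : ℕ} (φ : Fml n) : ∀ {v w : Fin n → Name 𝔹} {Γ : 𝔹},
    (∀ i, Γ ≤ beq (v i) (w i)) → Γ ≤ bv D φ v → Γ ≤ bv D φ w := by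
  induction φ with
  | mem i j => exact fun h h' => bmem_congr_left (h i) (bmem_congr_right (h j) h')
  | eq i j => exact fun h h' => beq_trans _ (le_beq_symm (h i)) (beq_trans _ h' (h j))
  | bot => exact fun _ h' => h'
  | imp φ ψ ih1 ih2 =>
    intro v w Γ h h'
    refine le_himp_iff_forall.2 fun Δ hΔ hφ => ?_
    refine ih2 (fun i => hΔ.trans (h i)) (le_himp_iff_forall.1 h' Δ hΔ ?_)
    exact ih1 (fun i => le_beq_symm (hΔ.trans (h i))) hφ
  | all φ ih =>
    intro v w Γ h h'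
    refine le_iInf fun x => le_himp_iff_forall.2 fun Δ hΔ hx => ?_
    refine ih ?_ (le_himp_iff_forall.1 (le_iInf_iff.1 h' x) Δ hΔ hx)
    intro i
    refine Fin.cases ?_ (fun i => ?_) i
    · simp
    · simpa using hΔ.trans (h i)

theorem bv_congr_eq (D : Dom.{u, v} 𝔹) {n : ℕ} (φ : Fml n) {v w : Fin n → Name 𝔹}
    (h : ∀ i, beq (v i) (w i) = ⊤) : bv D φ v = bv D φ w :=
  eq_of_forall_le fun Γ => ⟨bv_congr D φ fun i => by rw [h i]; exact le_top,
    bv_congr D φ fun i => by rw [beq_symm, h i]; exact le_top⟩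

end SymExt
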