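import Mathlib

/-!
# Boolean-valued names
-/

namespace SymExt

universe u v w

section Kripke

variable {𝔹 : Type u} [CompleteBooleanAlgebra 𝔹] {Γ Δ a b c : 𝔹}

theorem le_himp_iff_forall : Γ ≤ a ⇨ b ↔ ∀ Δ ≤ Γ, Δ ≤ a → Δ ≤ b := by
  rw [le_himp_iff]
  constructor
  · intro h Δ h1 h2
    exact (le_inf h1 h2).trans h
  · intro h
    exact h _ inf_le_left inf_le_right

theorem elim_iSup {ι : Sort v} {f : ι → 𝔹} (h : Γ ≤ ⨆ i, f i)
    (H : ∀ i, ∀ Δ ≤ Γ, Δ ≤ f i → Δ ≤ c) : Γ ≤ c := by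
  have h1 : Γ = ⨆ i, Γ ⊓ f i := by
    rw [← inf_iSup_eq]; exact (inf_eq_left.2 h).symm
  rw [h1]
  exact iSup_le fun i => H i _ inf_le_left inf_le_right

theorem elim_sup (h : Γ ≤ a ⊔ b) (H1 : ∀ Δ ≤ Γ, Δ ≤ a → Δ ≤ c) (H2 : ∀ Δ ≤ Γ, Δ ≤ b → Δ ≤ c) :
    Γ ≤ c := by
  have h1 : Γ = Γ ⊓ a ⊔ Γ ⊓ b := by
    rw [← inf_sup_left]; exact (inf_eq_left.2 h).symm
  rw [h1]
  exact sup_le (H1 _ inf_le_left inf_le_right) (H2 _ inf_le_left inf_le_right)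

theorem mp_le (h : Γ ≤ a ⇨ b) (h' : Γ ≤ a) : Γ ≤ b := le_himp_iff_forall.1 h _ le_rfl h'

theorem le_of_forall_le' (h : ∀ Γ : 𝔹, Γ ≤ a → Γ ≤ b) : a ≤ b := h a le_rfl

theorem eq_of_forall_le (h : ∀ Γ : 𝔹, Γ ≤ a ↔ Γ ≤ b) : a = b :=
  le_antisymm ((h a).1 le_rfl) ((h b).2 le_rfl)

theorem intro_iSup {ι : Sort v} {f : ι → 𝔹} (i : ι) (h : Γ ≤ f i) : Γ ≤ ⨆ i, f i :=
  h.trans (le_iSup f i)

end Kripke

/-- Boolean-valued names: a name is a family of names with Boolean weights. -/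
inductive Name (𝔹 : Type u) : Type (u + 1)
  | mk (ι : Type u) (A : ι → Name 𝔹) (b : ι → 𝔹) : Name 𝔹

namespace Name

variable {𝔹 : Type u}

/-- The index type of a name. -/
def idx : Name 𝔹 → Type u | mk ι _ _ => ι
/-- The elements of a name. -/
def elt : (x : Name 𝔹) → x.idx → Name 𝔹 | mk _ A _ => A
/-- The weights of a name. -/
def wt : (x : Name 𝔹) → x.idx → 𝔹 | mk _ _ b => b

@[simp] theorem idx_mk (ι : Type u) (A : ι → Name 𝔹) (b : ι → 𝔹) : (mk ι A b).idx = ι := rfl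
@[simp] theorem elt_mk (ι : Type u) (A : ι → Name 𝔹) (b : ι → 𝔹) : (mk ι A b).elt = A := rfl
@[simp] theorem wt_mk (ι : Type u) (A : ι → Name 𝔹) (b : ι → 𝔹) : (mk ι A b).wt = b := rfl

theorem eta (x : Name 𝔹) : mk x.idx x.elt x.wt = x := by cases x; rfl

instance : Inhabited (Name 𝔹) := ⟨mk PEmpty (fun i => i.elim) (fun i => i.elim)⟩

theorem ind {P : Name 𝔹 → Prop} (h : ∀ x : Name 𝔹, (∀ i, P (x.elt i)) → P x) : ∀ x, P x
  | mk ι A b => h (mk ι A b) fun i => ind h (A i)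

variable [CompleteBooleanAlgebra 𝔹]

/-- The Boolean value of equality. -/
def beq : Name 𝔹 → Name 𝔹 → 𝔹
  | mk _ A b, mk _ A' b' =>
    (⨅ i, b i ⇨ ⨆ j, b' j ⊓ beq (A i) (A' j)) ⊓ (⨅ j, b' j ⇨ ⨆ i, b i ⊓ beq (A i) (A' j))

/-- The Boolean value of membership. -/
def bmem (x y : Name 𝔹) : 𝔹 := ⨆ j, y.wt j ⊓ beq x (y.elt j)

/-- The Boolean value of inclusion. -/
def bsub (x y : Name 𝔹) : 𝔹 := ⨅ i, x.wt i ⇨ bmem (x.elt i) y

theorem beq_def (x y : Name 𝔹) : beq x y =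
    (⨅ i, x.wt i ⇨ ⨆ j, y.wt j ⊓ beq (x.elt i) (y.elt j)) ⊓
    (⨅ j, y.wt j ⇨ ⨆ i, x.wt i ⊓ beq (x.elt i) (y.elt j)) := by
  cases x; cases y; rfl

theorem beq_symm (x : Name 𝔹) : ∀ y, beq x y = beq y x := by
  induction x using ind with
  | h x ih =>
    intro y
    rw [beq_def x y, beq_def y x, inf_comm]
    congr 1
    · refine iInf_congr fun j => ?_
      congr 1
      exact iSup_congr fun i => by rw [ih]
    · refine iInf_congr fun j => ?_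
      congr 1
      exact iSup_congr fun i => by rw [ih]

theorem beq_eq_bsub (x y : Name 𝔹) : beq x y = bsub x y ⊓ bsub y x := by
  rw [beq_def, bsub, bsub]
  congr 1
  refine iInf_congr fun j => ?_
  congr 1
  exact iSup_congr fun i => by rw [beq_symm]

@[simp] theorem beq_refl (x : Name 𝔹) : beq x x = ⊤ := by
  induction x using ind with
  | h x ih =>
    refine top_le_iff.1 ?_
    rw [beq_eq_bsub]
    have : (⊤ : 𝔹) ≤ bsub x x := by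
      refine le_iInf fun i => le_himp_iff_forall.2 fun Δ _ h => ?_
      exact intro_iSup i (le_inf h (by rw [ih]; exact le_top))
    exact le_inf this this

variable {x y z : Name 𝔹} {Γ Δ : 𝔹}

theorem le_bmem_of_le (j : y.idx) (h : Γ ≤ y.wt j) (h' : Γ ≤ beq x (y.elt j)) :
    Γ ≤ bmem x y := intro_iSup j (le_inf h h')

theorem le_bmem_elt (j : y.idx) (h : Γ ≤ y.wt j) : Γ ≤ bmem (y.elt j) y :=
  le_bmem_of_le j h (by rw [beq_refl]; exact le_top)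

theorem elim_bmem {c : 𝔹} (h : Γ ≤ bmem x y)
    (H : ∀ j, ∀ Δ ≤ Γ, Δ ≤ y.wt j → Δ ≤ beq x (y.elt j) → Δ ≤ c) : Γ ≤ c :=
  elim_iSup h fun j Δ h1 h2 => H j Δ h1 (h2.trans inf_le_left) (h2.trans inf_le_right)

theorem le_beq_symm (h : Γ ≤ beq x y) : Γ ≤ beq y x := by rwa [beq_symm]

theorem le_bsub_iff : Γ ≤ bsub x y ↔ ∀ i, ∀ Δ ≤ Γ, Δ ≤ x.wt i → Δ ≤ bmem (x.elt i) y := by
  rw [bsub, le_iInf_iff]
  exact forall_congr' fun i => le_himp_iff_forall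

theorem le_beq_iff : Γ ≤ beq x y ↔ Γ ≤ bsub x y ∧ Γ ≤ bsub y x := by
  rw [beq_eq_bsub, le_inf_iff]

theorem beq_trans (x : Name 𝔹) : ∀ {y z : Name 𝔹} {Γ : 𝔹}, Γ ≤ beq x y → Γ ≤ beq y z →
    Γ ≤ beq x z := by
  induction x using ind with
  | h x ih =>
    intro y z Γ h1 h2
    rw [le_beq_iff] at h1 h2 ⊢
    constructor
    · rw [le_bsub_iff]
      intro i Δ hΔ hi
      refine elim_bmem ((le_bsub_iff.1 h1.1) i Δ hΔ hi) fun j Δ' hΔ' hj e => ?_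
      refine elim_bmem ((le_bsub_iff.1 h2.1) j Δ' (hΔ'.trans hΔ) hj) fun k Δ'' hΔ'' hk e' => ?_
      exact le_bmem_of_le k hk (ih i (hΔ''.trans e) e')
    · rw [le_bsub_iff]
      intro k Δ hΔ hk
      refine elim_bmem ((le_bsub_iff.1 h2.2) k Δ hΔ hk) fun j Δ' hΔ' hj e => ?_
      refine elim_bmem ((le_bsub_iff.1 h1.2) j Δ' (hΔ'.trans hΔ) hj) fun i Δ'' hΔ'' hi e' => ?_
      exact le_bmem_of_le i hi (le_beq_symm (ih i (le_beq_symm e') (hΔ''.trans (le_beq_symm e))))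

/-- congruence of membership on the left -/
theorem bmem_congr_left (h : Γ ≤ beq x y) (h' : Γ ≤ bmem x z) : Γ ≤ bmem y z :=
  elim_bmem h' fun j _ hΔ hj e => le_bmem_of_le j hj (beq_trans _ (le_beq_symm (hΔ.trans h)) e)

theorem bmem_of_bsub (h : Γ ≤ bsub y z) (h' : Γ ≤ bmem x y) : Γ ≤ bmem x z :=
  elim_bmem h' fun j _ hΔ hj e =>
    bmem_congr_left (le_beq_symm e) (le_bsub_iff.1 h j _ hΔ hj)

/-- congruence of membership on the right -/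
theorem bmem_congr_right (h : Γ ≤ beq y z) (h' : Γ ≤ bmem x y) : Γ ≤ bmem x z :=
  bmem_of_bsub (le_beq_iff.1 h).1 h'

theorem le_bsub_of_forall (h : ∀ w : Name 𝔹, ∀ Δ ≤ Γ, Δ ≤ bmem w x → Δ ≤ bmem w y) :
    Γ ≤ bsub x y :=
  le_bsub_iff.2 fun i Δ hΔ hi => h _ Δ hΔ (le_bmem_elt i hi)

theorem le_beq_of_forall
    (h : ∀ w : Name 𝔹, ∀ Δ ≤ Γ, Δ ≤ bmem w x ↔ Δ ≤ bmem w y) : Γ ≤ beq x y :=
  le_beq_iff.2 ⟨le_bsub_of_forall fun w Δ hΔ hw => (h w Δ hΔ).1 hw,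
    le_bsub_of_forall fun w Δ hΔ hw => (h w Δ hΔ).2 hw⟩

theorem beq_eq_top_of_forall (h : ∀ w : Name 𝔹, bmem w x = bmem w y) : beq x y = ⊤ :=
  top_le_iff.1 (le_beq_of_forall fun w Δ _ => by rw [h w])

theorem bmem_eq_of_beq_top (h : beq x y = ⊤) (w : Name 𝔹) : bmem w x = bmem w y :=
  eq_of_forall_le fun Γ => ⟨fun h' => bmem_congr_right (h ▸ le_top) h',
    fun h' => bmem_congr_right (by rw [beq_symm, h]; exact le_top) h'⟩

theorem beq_trans_top (h : beq x y = ⊤) (h' : beq y z = ⊤) : beq x z = ⊤ :=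
  top_le_iff.1 (beq_trans x (top_le_iff.2 h) (top_le_iff.2 h'))

end Name
end SymExt
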