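import Pool.Agent.Lib.MP_694cb9_lc.RO
import Pool.Agent.Lib.MP_694cb9_lc.Model

/-!
# The forcing: finite partial functions collapsing `ω_{m+1}` to `ω` for all `m`, infinitely often
-/

namespace SymExt

namespace Col

open Cardinal Ordinal

/-- `K m` is the set of ordinals below `ω_{m+1}`. -/
abbrev K (m : ℕ) : Type := (Ordinal.omega ((m : Ordinal.{0}) + 1)).ToType

/-- Indices `(m, j, k)`: the value at `k` of the `j`-th collapse of `ω_{m+1}`. -/
abbrev Idx : Type := ℕ × ℕ × ℕ

/-- Conditions. -/
@[ext]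
structure Cond : Type where
  /-- the finite partial function -/
  f : (i : Idx) → Option (K i.1)
  fin : {i | f i ≠ none}.Finite

instance : Preorder Cond where
  le q p := ∀ i x, p.f i = some x → q.f i = some x
  le_refl _ _ _ h := h
  le_trans _ _ _ h1 h2 i x h := h1 i x (h2 i x h)

theorem le_def {q p : Cond} : q ≤ p ↔ ∀ i x, p.f i = some x → q.f i = some x := Iff.rfl

/-- The empty condition. -/
def emp : Cond := ⟨fun _ => none, by simp⟩

/-- Update of a condition. -/
noncomputable def upd (p : Cond) (i : Idx) (x : K i.1) : Cond :=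
  ⟨Function.update p.f i (some x), (p.fin.union (Set.finite_singleton i)).subset fun j hj => by
    by_cases h : j = i
    · exact Or.inr h
    · left
      simpa [Function.update_of_ne h] using hj⟩

theorem upd_f_self (p : Cond) (i : Idx) (x : K i.1) : (upd p i x).f i = some x := by
  simp [upd]

theorem upd_f_ne (p : Cond) (i : Idx) (x : K i.1) {j : Idx} (h : j ≠ i) :
    (upd p i x).f j = p.f j := by
  simp [upd, Function.update_of_ne h]

theorem upd_le {p : Cond} {i : Idx} {x : K i.1} (h : p.f i = none) : upd p i x ≤ p := by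
  intro j y hj
  have : j ≠ i := by
    rintro rfl
    rw [h] at hj; cases hj
  rwa [upd_f_ne p i x this]

/-- Union of two conditions. -/
def merge (p q : Cond) : Cond :=
  ⟨fun i => (p.f i).or (q.f i), (p.fin.union q.fin).subset fun j hj => by
    by_contra hcon
    simp only [Set.mem_union, Set.mem_ofPred_eq, not_or, not_not] at hcon
    simp [hcon.1, hcon.2] at hj⟩

theorem merge_le_left (p q : Cond) : merge p q ≤ p := by
  intro i x h
  simp [merge, h]

theorem merge_le_right {p q : Cond} (h : ∀ i x y, p.f i = some x → q.f i = some y → x = y) :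
    merge p q ≤ q := by
  intro i x hx
  cases hp : p.f i with
  | none => simp [merge, hp, hx]
  | some y => simp [merge, hp, h i y x hp hx]

/-- Restriction to the stages below `m`. -/
def res (p : Cond) (m : ℕ) : Cond :=
  ⟨fun i => if i.1 < m then p.f i else none, p.fin.subset fun i hi => by
    simp only [Set.mem_ofPred_eq] at hi ⊢
    intro h
    rw [h] at hi
    simp at hi⟩

theorem le_res (p : Cond) (m : ℕ) : p ≤ res p m := by
  intro i x h
  simp only [res] at h
  split at h
  · exact h
  · cases h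

theorem res_le_res {p q : Cond} (h : q ≤ p) (m : ℕ) : res q m ≤ res p m := by
  intro i x hx
  simp only [res] at hx ⊢
  split at hx
  · rename_i hi
    rw [if_pos hi]
    exact h i x hx
  · cases hx

/-- The group. -/
abbrev Gp : Type := ℕ → Equiv.Perm ℕ

theorem f_congr (p : Cond) (i : Idx) {j : ℕ} (h : j = i.2.1) :
    p.f (i.1, j, i.2.2) = p.f i := by
  obtain ⟨a, b, c⟩ := i
  subst h
  rfl

/-- The action on conditions. -/
def actP : Gp →* (Cond ≃o Cond) where
  toFun g :=
    { toFun := fun p => ⟨fun i => p.f (i.1, (g i.1).symm i.2.1, i.2.2),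
        Set.Finite.preimage (f := fun i : Idx => ((i.1, (g i.1).symm i.2.1, i.2.2) : Idx))
          (by
            rintro ⟨a, b, c⟩ _ ⟨a', b', c'⟩ _ h
            simp only [Prod.mk.injEq] at h
            obtain ⟨rfl, h, rfl⟩ := h
            simpa using h) p.fin⟩
      invFun := fun p => ⟨fun i => p.f (i.1, (g i.1) i.2.1, i.2.2),
        Set.Finite.preimage (f := fun i : Idx => ((i.1, (g i.1) i.2.1, i.2.2) : Idx))
          (by
            rintro ⟨a, b, c⟩ _ ⟨a', b', c'⟩ _ h
            simp only [Prod.mk.injEq] at h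
            obtain ⟨rfl, h, rfl⟩ := h
            simpa using h) p.fin⟩
      left_inv := fun p => by
        ext1
        funext i
        exact f_congr p i (by simp)
      right_inv := fun p => by
        ext1
        funext i
        exact f_congr p i (by simp)
      map_rel_iff' := fun {p q} => by
        constructor
        · intro h i x hx
          have h1 := h (i.1, (g i.1) i.2.1, i.2.2) x
          have h2 : ∀ r : Cond, r.f (i.1, (g i.1).symm ((g i.1) i.2.1), i.2.2) = r.f i :=
            fun r => f_congr r i (by simp)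
          have h3 : q.f (i.1, (g i.1).symm ((g i.1) i.2.1), i.2.2) = some x := by rw [h2, hx]
          have h4 := h1 h3
          have h5 : p.f (i.1, (g i.1).symm ((g i.1) i.2.1), i.2.2) = some x := h4
          rw [h2] at h5
          exact h5
        · intro h i x hx
          exact h (i.1, (g i.1).symm i.2.1, i.2.2) x hx }
  map_one' := by
    ext p
    rfl
  map_mul' g h := by
    ext p
    rfl

theorem actP_f (g : Gp) (p : Cond) (i : Idx) :
    (actP g p).f i = p.f (i.1, (g i.1).symm i.2.1, i.2.2) := rfl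

theorem actP_f_of (g : Gp) (p : Cond) (i : Idx) {j : ℕ} (h : (g i.1).symm i.2.1 = j) :
    (actP g p).f i = p.f (i.1, j, i.2.2) := by
  subst h; rfl

/-- The Boolean algebra. -/
abbrev B : Type := RO Cond

/-- The action on the Boolean algebra. -/
noncomputable def actB : Gp →* (B ≃o B) where
  toFun g := RO.lift (actP g)
  map_one' := by rw [map_one, RO.lift_one]
  map_mul' g h := by rw [map_mul, RO.lift_mul]

theorem actB_e (g : Gp) (p : Cond) : actB g (RO.e p) = RO.e (actP g p) := RO.lift_e _ _

/-- The subgroup of those elements that are trivial at the stages below `m`. -/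
def H (m : ℕ) : Subgroup Gp where
  carrier := {g | ∀ i < m, g i = 1}
  mul_mem' := fun {a b} ha hb i hi => by simp [ha i hi, hb i hi]
  one_mem' := fun i _ => rfl
  inv_mem' := fun {a} ha i hi => by simp [ha i hi]

theorem H_anti {m n : ℕ} (h : m ≤ n) : H n ≤ H m := fun _ hg i hi => hg i (hi.trans_le h)

/-- The symmetric system. -/
noncomputable abbrev sys : SymSys B where
  G := Gp
  act := actB
  F := {L | ∃ m, H m ≤ L}
  top_mem := ⟨0, le_top⟩
  up := fun L ⟨m, hm⟩ K hK => ⟨m, hm.trans hK⟩
  inf_mem := fun L ⟨m, hm⟩ K ⟨n, hn⟩ => ⟨max m n, le_inf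
    ((H_anti (le_max_left _ _)).trans hm) ((H_anti (le_max_right _ _)).trans hn)⟩
  conj := fun L ⟨m, hm⟩ g => ⟨H m, ⟨m, le_rfl⟩, fun h hh => hm (fun i hi => by
    simp [hh i hi])⟩

/-- The permutation exchanging the blocks `[0,N)` and `[N,2N)`. -/
def blk (N : ℕ) : Equiv.Perm ℕ :=
  Function.Involutive.toPerm (fun j => if j < N then j + N else if j < 2 * N then j - N else j)
    (by
      intro j
      dsimp only
      split_ifs <;> omega)

theorem blk_apply (N j : ℕ) :
    blk N j = if j < N then j + N else if j < 2 * N then j - N else j := rfl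

theorem blk_symm (N : ℕ) : (blk N).symm = blk N := Function.Involutive.toPerm_symm _

/-- Homogeneity. -/
theorem restrict {m : ℕ} {b : B} (hb : ∀ g ∈ H m, actB g b = b) {p : Cond} (h : RO.e p ≤ b) :
    RO.e (res p m) ≤ b := by
  by_contra hcon
  obtain ⟨q, hq, hq'⟩ := RO.dense_e.exists_compl hcon
  obtain ⟨N, hN⟩ : ∃ N : ℕ, ∀ i : Idx, (p.f i ≠ none ∨ q.f i ≠ none) → i.2.1 < N := by
    have hfin := (p.fin.union q.fin).image fun i : Idx => i.2.1
    obtain ⟨N, hN⟩ := hfin.bddAbove
    refine ⟨N + 1, fun i hi => Nat.lt_succ_of_le (hN ⟨i, hi, rfl⟩)⟩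
  let g : Gp := fun i => if i < m then 1 else blk N
  have hg : g ∈ H m := fun i hi => by simp [g, hi]
  have h1 : RO.e (actP g p) ≤ b := by
    rw [← actB_e, ← hb g hg]
    exact (actB g).monotone h
  have h2 : ∀ i x y, (actP g p).f i = some x → q.f i = some y → x = y := by
    intro i x y hx hy
    by_cases hi : i.1 < m
    · rw [actP_f_of g p i (j := i.2.1) (by simp only [g, hi, if_true]; rfl), f_congr p i rfl] at hx
      have h3 : (res p m).f i = some x := by simp [res, hi, hx]
      have h4 := hq i x h3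
      rw [hy] at h4
      exact (Option.some_injective _ h4).symm
    · exfalso
      rw [actP_f_of g p i (j := (blk N) i.2.1) (by simp [g, hi, blk_symm])] at hx
      have h3 : i.2.1 < N := hN i (Or.inr (by rw [hy]; simp))
      have h4 : (blk N) i.2.1 < N := hN (i.1, (blk N) i.2.1, i.2.2) (Or.inl (by rw [hx]; simp))
      rw [blk_apply, if_pos h3] at h4
      omega
  have h5 := merge_le_right h2
  have h6 := merge_le_left (actP g p) q
  exact RO.dense_e.not_both ((RO.dense_e.mono _ _ h6).trans h1) ((RO.dense_e.mono _ _ h5).trans hq')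

/-! ### The counting argument -/

theorem card_K (m : ℕ) : #(K m) = ℵ_ ((m : Ordinal.{0}) + 1) := by
  rw [Cardinal.mk_toType, Ordinal.card_omega]

/-- Conditions living on the stages below `m`. -/
def Small (m : ℕ) : Type := {p : Cond // ∀ i : Idx, m ≤ i.1 → p.f i = none}

theorem card_sigma (m : ℕ) : #(Σ i : {i : Idx // i.1 < m}, K i.1.1) ≤ ℵ_ (m : Ordinal.{0}) := by
  rw [Cardinal.mk_sigma]
  refine (Cardinal.sum_le_mk_mul_iSup _).trans ?_
  have h1 : #{i : Idx // i.1 < m} ≤ ℵ_ (m : Ordinal.{0}) :=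
    (Cardinal.mk_le_aleph0).trans (Cardinal.aleph0_le_aleph _)
  have h2 : (⨆ i : {i : Idx // i.1 < m}, #(K i.1.1)) ≤ ℵ_ (m : Ordinal.{0}) := by
    refine ciSup_le' fun i => ?_
    rw [card_K, Cardinal.aleph_le_aleph]
    have : (i.1.1 + 1 : ℕ) ≤ m := i.2
    exact_mod_cast this
  exact (mul_le_mul' h1 h2).trans (Cardinal.mul_eq_self (Cardinal.aleph0_le_aleph _)).le

theorem card_small (m : ℕ) : #(Small m) ≤ ℵ_ (m : Ordinal.{0}) := by
  classical
  let X := Σ i : {i : Idx // i.1 < m}, K i.1.1
  let F : Small m → Set X := fun p => {x | p.1.f x.1.1 = some x.2}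
  have hF : Function.Injective F := by
    intro p q h
    apply Subtype.ext
    ext1
    funext i
    by_cases hi : i.1 < m
    · have key : ∀ x, p.1.f i = some x ↔ q.1.f i = some x := fun x => by
        have := Set.ext_iff.1 h ⟨⟨i, hi⟩, x⟩
        exact this
      exact Option.ext key
    · rw [p.2 i (not_lt.1 hi), q.2 i (not_lt.1 hi)]
  have hfin : ∀ p, (F p).Finite := by
    intro p
    refine Set.Finite.of_injOn (f := fun x : X => x.1.1) (t := {i | p.1.f i ≠ none}) ?_ ?_ p.1.fin
    · intro x hx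
      simp only [F, Set.mem_ofPred_eq] at hx ⊢
      rw [hx]; simp
    · rintro ⟨⟨i, hi⟩, x⟩ hx ⟨⟨j, hj⟩, y⟩ hy h
      simp only at h
      subst h
      simp only [F, Set.mem_ofPred_eq] at hx hy
      rw [hx] at hy
      cases hy
      rfl
  have h1 : #(Small m) ≤ #(Finset X) := by
    refine Cardinal.mk_le_of_injective (f := fun p => (hfin p).toFinset) fun p q h => hF ?_
    simpa using h
  refine h1.trans ?_
  rcases finite_or_infinite X with hX | hX
  · exact (Cardinal.mk_le_aleph0).trans (Cardinal.aleph0_le_aleph _)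
  · rw [Cardinal.mk_finset_of_infinite]
    exact card_sigma m

/-- No sufficiently symmetric Boolean-valued function maps `ω` onto `ω_{m+1}`. -/
theorem bound (m : ℕ) (b : ℕ → K m → B) (hb : ∀ n ξ, ∀ g ∈ H m, actB g (b n ξ) = b n ξ) :
    (⨅ ξ, ⨆ n, b n ξ) ⊓ (⨅ (n) (ξ) (η) (_ : ξ ≠ η), (b n ξ ⊓ b n η)ᶜ) = ⊥ := by
  by_contra hcon
  obtain ⟨p, hp⟩ := RO.dense_e.dense _ hcon
  have h1 : ∀ ξ, ∃ n, ∃ q ≤ p, RO.e q ≤ b n ξ := by
    intro ξ
    obtain ⟨q, hq, n, hn⟩ := RO.dense_e.exists_iSup
      ((hp.trans inf_le_left).trans (iInf_le _ ξ))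
    exact ⟨n, q, hq, hn⟩
  choose n q hq hqn using h1
  let F : K m → ℕ × Small m := fun ξ => (n ξ, ⟨res (q ξ) m, fun i hi => by simp [res, hi]⟩)
  have h2 : ¬ Function.Injective F := by
    intro hF
    have h3 := Cardinal.mk_le_of_injective hF
    rw [card_K, Cardinal.mk_prod, Cardinal.lift_id, Cardinal.lift_id, Cardinal.mk_nat] at h3
    have h4 : ℵ₀ * #(Small m) ≤ ℵ_ (m : Ordinal.{0}) :=
      (mul_le_mul' (Cardinal.aleph0_le_aleph _) (card_small m)).trans
        (Cardinal.mul_eq_self (Cardinal.aleph0_le_aleph _)).le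
    have h5 := h3.trans h4
    rw [Cardinal.aleph_le_aleph] at h5
    have h6 : ((m + 1 : ℕ) : Ordinal.{0}) ≤ (m : ℕ) := by exact_mod_cast h5
    have h7 := Nat.cast_le.1 h6
    omega
  rw [Function.Injective] at h2
  push Not at h2
  obtain ⟨ξ, η, hF, hne⟩ := h2
  have hF1 : n ξ = n η := congrArg Prod.fst hF
  have hF2 : res (q ξ) m = res (q η) m := congrArg (fun x => x.2.1) hF
  have h3 : RO.e (res (q ξ) m) ≤ b (n ξ) ξ := restrict (hb _ _) (hqn ξ)
  have h4 : RO.e (res (q η) m) ≤ b (n η) η := restrict (hb _ _) (hqn η)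
  rw [← hF1, ← hF2] at h4
  have h5 : RO.e (q ξ) ≤ b (n ξ) ξ ⊓ b (n ξ) η :=
    (RO.dense_e.mono _ _ (le_res _ m)).trans (le_inf h3 h4)
  have h6 : RO.e (q ξ) ≤ (b (n ξ) ξ ⊓ b (n ξ) η)ᶜ := by
    refine ((RO.dense_e.mono _ _ (hq ξ)).trans (hp.trans inf_le_right)).trans ?_
    exact (iInf_le _ (n ξ)).trans ((iInf_le _ ξ).trans ((iInf_le _ η).trans (iInf_le _ hne)))
  exact RO.dense_e.not_both h5 h6

end Col

end SymExt
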