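import Pool.Agent.Lib.MP_694cb9_lc.Thin
import Pool.Agent.Lib.MP_694cb9_lc.Col

/-!
# Boolean-valued thinning
-/

namespace SymExt

universe u v

section Ev

variable {𝔹 : Type u} [CompleteBooleanAlgebra 𝔹]

/-- `U` is a proper filter. -/
structure Filt (U : Set 𝔹) : Prop where
  bot : ⊥ ∉ U
  top : ⊤ ∈ U
  up : ∀ a ∈ U, ∀ b, a ≤ b → b ∈ U
  inf : ∀ a ∈ U, ∀ b ∈ U, a ⊓ b ∈ U

/-- The filter `U` evaluates `a` to `P`. -/
structure Ev (U : Set 𝔹) (a : 𝔹) (P : Prop) : Prop where
  pos : P → a ∈ U
  neg : ¬ P → aᶜ ∈ U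

variable {U : Set 𝔹} (hU : Filt U) {a b : 𝔹} {P Q : Prop}
include hU

theorem Ev.iff (h : Ev U a P) : a ∈ U ↔ P := by
  constructor
  · intro ha
    by_contra hP
    have := hU.inf _ ha _ (h.neg hP)
    rw [inf_compl_eq_bot] at this
    exact hU.bot this
  · exact h.pos

omit hU in
theorem Ev.of_dec (h : a ∈ U ∨ aᶜ ∈ U) : Ev U a (a ∈ U) :=
  ⟨id, fun h' => h.resolve_left h'⟩

theorem Ev.inf (h : Ev U a P) (h' : Ev U b Q) : Ev U (a ⊓ b) (P ∧ Q) := by
  refine ⟨fun hh => hU.inf _ (h.pos hh.1) _ (h'.pos hh.2), fun hh => ?_⟩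
  rw [compl_inf]
  by_cases hP : P
  · exact hU.up _ (h'.neg fun hQ => hh ⟨hP, hQ⟩) _ le_sup_right
  · exact hU.up _ (h.neg hP) _ le_sup_left

theorem Ev.sup (h : Ev U a P) (h' : Ev U b Q) : Ev U (a ⊔ b) (P ∨ Q) := by
  refine ⟨fun hh => ?_, fun hh => ?_⟩
  · rcases hh with hh | hh
    · exact hU.up _ (h.pos hh) _ le_sup_left
    · exact hU.up _ (h'.pos hh) _ le_sup_right
  · rw [compl_sup]
    exact hU.inf _ (h.neg fun hP => hh (Or.inl hP)) _ (h'.neg fun hQ => hh (Or.inr hQ))

omit hU in
theorem Ev.compl (h : Ev U a P) : Ev U aᶜ (¬ P) :=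
  ⟨h.neg, fun hh => by rw [compl_compl]; exact h.pos (not_not.1 hh)⟩

theorem Ev.himp (h : Ev U a P) (h' : Ev U b Q) : Ev U (a ⇨ b) (P → Q) := by
  rw [himp_eq]
  have := h'.sup hU h.compl
  refine ⟨fun hh => this.pos ?_, fun hh => this.neg ?_⟩
  · by_cases hP : P
    · exact Or.inl (hh hP)
    · exact Or.inr hP
  · rintro (h1 | h1)
    · exact hh fun _ => h1
    · exact hh fun h2 => absurd h2 h1

omit hU in
theorem Ev.congr (h : Ev U a P) (hPQ : P ↔ Q) : Ev U a Q :=
  ⟨fun h' => h.pos (hPQ.2 h'), fun h' => h.neg fun h'' => h' (hPQ.1 h'')⟩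

theorem Filt.mp (h1 : a ⇨ b ∈ U) (h2 : a ∈ U) : b ∈ U :=
  hU.up _ (hU.inf _ h1 _ h2) _ (by rw [himp_inf_self]; exact inf_le_left)

theorem Filt.iInf_mem {ι : Type v} [Finite ι] (f : ι → 𝔹) (h : ∀ i, f i ∈ U) :
    (⨅ i, f i) ∈ U := by
  classical
  obtain ⟨_⟩ := nonempty_fintype ι
  have key : ∀ s : Finset ι, (⨅ i ∈ s, f i) ∈ U := by
    intro s
    induction s using Finset.induction_on with
    | empty => simpa using hU.top
    | insert a s ha ih =>
      rw [Finset.iInf_insert]
      exact hU.inf _ (h a) _ ih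
  simpa using key Finset.univ

end Ev

namespace Thin

variable {𝔹 : Type u} [CompleteBooleanAlgebra 𝔹]

/-- The Boolean value of splitting. -/
def bsplit (t : List Bool → 𝔹) (s : List Bool) : 𝔹 := t (true :: s) ⊓ t (false :: s)

/-- The Boolean value of the count being `r`. -/
def bct (t : List Bool → 𝔹) : List Bool → Fin 3 → 𝔹
  | [], r => if r = 0 then ⊤ else ⊥
  | _ :: s, r => (bsplit t s ⊓ bct t s (r - 1)) ⊔ ((bsplit t s)ᶜ ⊓ bct t s r)

/-- Boolean-valued thinning. -/
def bthin (t g : List Bool → 𝔹) : List Bool → 𝔹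
  | [] => t []
  | b :: s => bthin t g s ⊓ (t (b :: s) ⊓
      (bsplit t s ⇨ ((bct t s 0)ᶜ ⇨ (if b = true then g s else (g s)ᶜ))))

theorem bthin_le (t g : List Bool → 𝔹) (s : List Bool) : bthin t g s ≤ t s := by
  cases s with
  | nil => exact le_rfl
  | cons b s => exact inf_le_right.trans inf_le_left

section

variable {U : Set 𝔹} (hU : Filt U) {t g : List Bool → 𝔹} {T G : Set (List Bool)} {n : ℕ}
  (ht : ∀ s : List Bool, s.length ≤ n → Ev U (t s) (s ∈ T))
include hU ht

theorem ev_bsplit {s : List Bool} (hs : s.length < n) : Ev U (bsplit t s) (Split T s) :=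
  (ht _ (by simpa using hs)).inf hU (ht _ (by simpa using hs))

theorem ev_bct {s : List Bool} (hs : s.length ≤ n) (r : Fin 3) :
    Ev U (bct t s r) (ct T s = r) := by
  induction s generalizing r with
  | nil =>
    rw [bct, ct]
    by_cases h : r = 0
    · rw [if_pos h]
      exact ⟨fun _ => hU.top, fun h' => absurd h.symm h'⟩
    · rw [if_neg h]
      exact ⟨fun h' => absurd h'.symm h, fun _ => by rw [compl_bot]; exact hU.top⟩
  | cons b s ih =>
    have hs' : s.length < n := by simpa using hs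
    have h1 := ev_bsplit hU ht hs'
    refine ((h1.inf hU (ih hs'.le _)).sup hU (h1.compl.inf hU (ih hs'.le _))).congr ?_
    by_cases hsp : Split T s
    · rw [ct_cons_split hsp]
      simp only [hsp, true_and, not_true_eq_false, false_and, or_false]
      exact eq_sub_iff_add_eq
    · rw [ct_cons_nsplit hsp]
      simp [hsp]

theorem ev_bthin (hg : ∀ s : List Bool, s.length < n → Ev U (g s) (s ∈ G)) {s : List Bool}
    (hs : s.length ≤ n) : Ev U (bthin t g s) (thin T G s) := by
  induction s with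
  | nil => exact ht [] hs
  | cons b s ih =>
    have hs' : s.length < n := by simpa using hs
    refine (ih hs'.le).inf hU ((ht _ hs).inf hU
      ((ev_bsplit hU ht hs').himp hU ((ev_bct hU ht hs'.le 0).compl.himp hU ?_)))
    cases b
    · simp only [Bool.false_eq_true, if_false]
      exact (hg s hs').compl.congr (by simp)
    · simp only [if_true]
      exact (hg s hs').congr (by simp)

end

/-- Pairs of incomparable extensions. -/
abbrev Inc (s : List Bool) : Type :=
  {p : List Bool × List Bool // s <:+ p.1 ∧ s <:+ p.2 ∧ ¬ p.1 <:+ p.2 ∧ ¬ p.2 <:+ p.1}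

/-- The Boolean value of being a perfect tree. -/
def perf (t : List Bool → 𝔹) : 𝔹 :=
  t [] ⊓ ((⨅ p : Bool × List Bool, t (p.1 :: p.2) ⇨ t p.2) ⊓
    ⨅ s, t s ⇨ ⨆ p : Inc s, t p.1.1 ⊓ t p.1.2)

theorem perfect_of_perf {U : Set 𝔹} (hU : Filt U) {t : List Bool → 𝔹} (h : perf t ∈ U)
    (hw : ∀ s, (⨆ p : Inc s, t p.1.1 ⊓ t p.1.2) ∈ U → ∃ p : Inc s, t p.1.1 ⊓ t p.1.2 ∈ U) :
    PerfectTree {s | t s ∈ U} := by
  refine ⟨⟨[], hU.up _ h _ inf_le_left⟩, ?_, ?_⟩
  · have key : ∀ b s, t (b :: s) ∈ U → t s ∈ U := by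
      intro b s hb
      refine hU.mp (hU.up _ h _ ?_) hb
      exact inf_le_right.trans (inf_le_left.trans (iInf_le _ ((b, s) : Bool × List Bool)))
    intro s
    induction s with
    | nil => intro hs u hu; rw [List.suffix_nil] at hu; rwa [hu]
    | cons b s ih =>
      intro hs u hu
      rcases List.suffix_cons_iff.1 hu with rfl | hu
      · exact hs
      · exact ih (key b s hs) u hu
  · intro s hs
    have h1 : (⨆ p : Inc s, t p.1.1 ⊓ t p.1.2) ∈ U :=
      hU.mp (hU.up _ h _ (inf_le_right.trans (inf_le_right.trans (iInf_le _ s)))) hs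
    obtain ⟨⟨p, hp⟩, hp'⟩ := hw s h1
    exact ⟨p.1, hU.up _ hp' _ inf_le_left, p.2, hU.up _ hp' _ inf_le_right, hp⟩

end Thin

namespace Col

open Thin

instance (m : ℕ) : Infinite (K m) := by
  rw [Cardinal.infinite_iff, card_K]
  exact Cardinal.aleph0_le_aleph _

/-- Two distinct elements of `K m`. -/
noncomputable def zr (m : ℕ) : K m := (exists_pair_ne (K m)).choose

/-- Two distinct elements of `K m`. -/
noncomputable def on (m : ℕ) : K m := (exists_pair_ne (K m)).choose_spec.choose

theorem zr_ne_on (m : ℕ) : zr m ≠ on m := (exists_pair_ne (K m)).choose_spec.choose_spec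

/-- The Boolean value of the generic function at `i` being `x`. -/
noncomputable def cv (i : Idx) (x : K i.1) : B := RO.e (upd emp i x)

theorem le_cv {p : Cond} {i : Idx} {x : K i.1} (h : p.f i = some x) : RO.e p ≤ cv i x := by
  refine RO.dense_e.mono _ _ fun j y hj => ?_
  by_cases hji : j = i
  · subst hji
    rw [upd_f_self] at hj
    rw [← hj, h]
  · rw [upd_f_ne _ _ _ hji] at hj
    cases hj

theorem cv_inf_cv {i : Idx} {x y : K i.1} (h : x ≠ y) : cv i x ⊓ cv i y = ⊥ := by
  by_contra hcon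
  obtain ⟨r, h1, h2⟩ := RO.dense_e.compat _ _ hcon
  have h3 := h1 i x (upd_f_self _ _ _)
  have h4 := h2 i y (upd_f_self _ _ _)
  rw [h3] at h4
  exact h (Option.some_injective _ h4)

theorem le_cv_compl {p : Cond} {i : Idx} {x y : K i.1} (h : p.f i = some x) (hxy : x ≠ y) :
    RO.e p ≤ (cv i y)ᶜ :=
  (le_cv h).trans (le_compl_iff_disjoint_right.2 (disjoint_iff.2 (cv_inf_cv hxy)))

theorem iSup_cv (m j : ℕ) (x : K m) : (⨆ k, cv (m, j, k) x) = ⊤ := by
  refine RO.dense_e.eq_top_of_dense fun q => ?_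
  have hfin : (q.fin.image fun i : Idx => i.2.2).toFinset.Nonempty ∨ True := Or.inr trivial
  obtain ⟨N, hN⟩ := (q.fin.image fun i : Idx => i.2.2).bddAbove
  have h1 : q.f (m, j, N + 1) = none := by
    by_contra hcon
    have h2 : N + 1 ≤ N := hN ⟨(m, j, N + 1), hcon, rfl⟩
    omega
  exact ⟨upd q (m, j, N + 1) x, upd_le h1, (le_cv (upd_f_self _ _ _)).trans
    (le_iSup (fun k => cv (m, j, k) x) (N + 1))⟩

theorem actP_upd_emp (g : Gp) (i : Idx) (x : K i.1) :
    actP g (upd emp i x) = upd emp (i.1, (g i.1) i.2.1, i.2.2) x := by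
  ext1
  funext l
  by_cases h : l = (i.1, (g i.1) i.2.1, i.2.2)
  · subst h
    rw [upd_f_self, actP_f_of (j := i.2.1) g _ _ (by simp)]
    change (upd emp i x).f (i.1, i.2.1, i.2.2) = _
    rw [f_congr _ i rfl, upd_f_self]
  · rw [upd_f_ne _ _ _ h, actP_f, upd_f_ne]
    · rfl
    · rintro rfl
      apply h
      simp

theorem act_cv (g : Gp) (i : Idx) (x : K i.1) :
    actB g (cv i x) = cv (i.1, (g i.1) i.2.1, i.2.2) x := by
  rw [cv, actB_e, actP_upd_emp]; rfl

/-- The bits of the Cohen real given by the collapse number `j` at stage `m`. -/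
noncomputable def gb (m j : ℕ) (s : List Bool) : B := cv (m, j, Encodable.encode s) (zr m)

theorem act_gb (g : Gp) (m j : ℕ) (s : List Bool) : actB g (gb m j s) = gb m (g m j) s :=
  act_cv g _ _

/-- If `t` is decided before stage `m`, then two different Cohen reals added at stage `m` thin
`t` and `t'` to almost disjoint trees. -/
theorem kill_le {m j j' : ℕ} (hj : j ≠ j') {t t' : List Bool → B}
    (ht : ∀ s, ∀ g ∈ H m, actB g (t s) = t s) (ht' : ∀ s, ∀ g ∈ H m, actB g (t' s) = t' s) :
    perf t ≤ ⨆ L : ℕ, ⨅ s : {s : List Bool // s.length = L},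
      (bthin t (gb m j) s.1 ⊓ bthin t' (gb m j') s.1)ᶜ := by
  classical
  by_contra hcon
  set V : B := ⨆ L : ℕ, ⨅ s : {s : List Bool // s.length = L},
      (bthin t (gb m j) s.1 ⊓ bthin t' (gb m j') s.1)ᶜ with hV
  have h0 : perf t ⊓ Vᶜ ≠ ⊥ := fun h => hcon (by
    rwa [← disjoint_iff, disjoint_compl_right_iff] at h)
  obtain ⟨p, hp⟩ := RO.dense_e.dense _ h0
  -- a sufficiently generic filter
  let req : (List Bool × Fin 3) → List PUnit.{1} → Set (B × List PUnit.{1}) := fun r _ =>
    match r with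
    | (s, 0) => {(t s, [])}
    | (s, 1) => {(t' s, [])}
    | (s, 2) => Set.range fun p : Inc s => (t p.1.1 ⊓ t p.1.2, [])
  obtain ⟨C, W, _, _, hb, hbot, hup, hinf, hreq⟩ := extract (O := Empty) (M := PUnit.{1})
    (fun o => o.elim) req (RO.e p) (RO.dense_e.ne_bot p)
  have hW : Filt W := ⟨hbot, hup _ hb _ le_top, hup, hinf⟩
  have hd1 : ∀ s, t s ∈ W ∨ (t s)ᶜ ∈ W := fun s => by
    have := (hreq (s, 0) [] (by simp)).1
    simpa [req] using this
  have hd2 : ∀ s, t' s ∈ W ∨ (t' s)ᶜ ∈ W := fun s => by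
    have := (hreq (s, 1) [] (by simp)).1
    simpa [req] using this
  have hperf : PerfectTree {s | t s ∈ W} := by
    refine perfect_of_perf hW (hup _ hb _ (hp.trans inf_le_left)) fun s hs => ?_
    have := (hreq (s, 2) [] (by simp)).2
    simp only [req, iSup_range] at this
    obtain ⟨q, ⟨r, rfl⟩, hq, _⟩ := this hs
    exact ⟨r, hq⟩
  set T : Set (List Bool) := {s | t s ∈ W} with hT
  set T' : Set (List Bool) := {s | t' s ∈ W} with hT'
  -- a bound for the nodes decided by p
  obtain ⟨L0, hL0⟩ : ∃ L0 : ℕ, ∀ s : List Bool, (p.f (m, j, Encodable.encode s) ≠ none ∨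
      p.f (m, j', Encodable.encode s) ≠ none) → s.length < L0 := by
    have e1 : Set.Finite {s : List Bool | p.f (m, j, Encodable.encode s) ≠ none} :=
      Set.Finite.preimage (f := fun s : List Bool => ((m, j, Encodable.encode s) : Idx))
        (fun a _ b _ h => by
          simp only [Prod.mk.injEq, true_and] at h
          exact Encodable.encode_injective h) p.fin
    have e2 : Set.Finite {s : List Bool | p.f (m, j', Encodable.encode s) ≠ none} :=
      Set.Finite.preimage (f := fun s : List Bool => ((m, j', Encodable.encode s) : Idx))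
        (fun a _ b _ h => by
          simp only [Prod.mk.injEq, true_and] at h
          exact Encodable.encode_injective h) p.fin
    obtain ⟨N, hN⟩ := ((e1.union e2).image List.length).bddAbove
    exact ⟨N + 1, fun s hs => Nat.lt_succ_of_le (hN ⟨s, hs, rfl⟩)⟩
  obtain ⟨g, g', hg, hg', L, hL⟩ := kill (T := T) (T' := T') hperf L0
    {s | p.f (m, j, Encodable.encode s) = some (zr m)}
    {s | p.f (m, j', Encodable.encode s) = some (zr m)}
  -- the element of the Boolean algebra deciding the trees up to level L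
  let lit : B → B := fun a => if a ∈ W then a else aᶜ
  have hlitW : ∀ a : B, a ∈ W ∨ aᶜ ∈ W → lit a ∈ W := by
    intro a ha
    by_cases h : a ∈ W
    · simp only [lit, if_pos h]; exact h
    · simp only [lit, if_neg h]; exact ha.resolve_left h
  have hfinL : Finite {s : List Bool // s.length ≤ L} := (List.finite_length_le Bool L).to_subtype
  let d : B := ⨅ s : {s : List Bool // s.length ≤ L}, lit (t s.1) ⊓ lit (t' s.1)
  have hdW : d ∈ W := hW.iInf_mem _ fun s =>
    hinf _ (hlitW _ (hd1 s.1)) _ (hlitW _ (hd2 s.1))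
  have hlitH : ∀ a : B, ∀ g ∈ H m, actB g a = a → actB g (lit a) = lit a := by
    intro a g _ ha
    by_cases h : a ∈ W
    · simp only [lit, if_pos h]; exact ha
    · simp only [lit, if_neg h, map_compl, ha]
  have hdH : ∀ g ∈ H m, actB g d = d := by
    intro g hg
    simp only [d, OrderIso.map_iInf, map_inf]
    refine iInf_congr fun s => ?_
    rw [hlitH _ g hg (ht _ g hg), hlitH _ g hg (ht' _ g hg)]
  have hne : RO.e p ⊓ d ≠ ⊥ := fun h => hbot (h ▸ hinf _ hb _ hdW)
  obtain ⟨q, hqp, hqd⟩ := RO.dense_e.exists_le_inf hne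
  have hres := restrict hdH hqd
  -- the extension deciding the Cohen reals up to level L
  let G : Idx → Prop := fun i => ∃ s : List Bool, i.2.2 = Encodable.encode s ∧
    ((i.2.1 = j ∧ s ∈ g) ∨ (i.2.1 = j' ∧ s ∈ g'))
  let A : Set Idx := {i | i.1 = m ∧ (i.2.1 = j ∨ i.2.1 = j') ∧
    ∃ s : List Bool, s.length ≤ L ∧ i.2.2 = Encodable.encode s}
  have hA : A.Finite := by
    have e1 : Set.Finite ((fun s : List Bool => ((m, j, Encodable.encode s) : Idx)) ''
        {s | s.length ≤ L}) := (List.finite_length_le Bool L).image _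
    have e2 : Set.Finite ((fun s : List Bool => ((m, j', Encodable.encode s) : Idx)) ''
        {s | s.length ≤ L}) := (List.finite_length_le Bool L).image _
    refine (e1.union e2).subset ?_
    rintro ⟨a, b, c⟩ ⟨h1, h2, s, hs, h3⟩
    simp only at h1 h2 h3
    subst h1 h3
    rcases h2 with rfl | rfl
    · exact Or.inl ⟨s, hs, rfl⟩
    · exact Or.inr ⟨s, hs, rfl⟩
  let h : Cond := ⟨fun i => if i ∈ A then some (if G i then zr i.1 else on i.1) else none,
    hA.subset fun i hi => by
      by_contra hcon'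
      simp only [Set.mem_ofPred_eq, if_neg hcon'] at hi
      exact hi rfl⟩
  let q' : Cond := merge (res q m) (merge p h)
  have hq'1 : q' ≤ res q m := merge_le_left _ _
  have hq'2 : q' ≤ p := by
    refine le_trans (merge_le_right ?_) (merge_le_left p h)
    intro i x y hx hy
    simp only [res] at hx
    split at hx
    · rename_i hi
      cases hpi : p.f i with
      | some z =>
        have h1 := hqp i z hpi
        have h2 : (merge p h).f i = some z := by simp [merge, hpi]
        rw [h2] at hy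
        rw [hx] at h1
        exact Option.some_injective _ (h1.trans hy)
      | none =>
        exfalso
        have h2 : (merge p h).f i = h.f i := by simp [merge, hpi]
        rw [h2] at hy
        simp only [h] at hy
        split at hy
        · rename_i hiA
          have := hiA.1
          omega
        · cases hy
    · cases hx
  -- values of q' at the new places
  have hval : ∀ (l : ℕ) (gg : Set (List Bool)), (l = j ∨ l = j') →
      (∀ s : List Bool, G (m, l, Encodable.encode s) ↔ s ∈ gg) →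
      (∀ s : List Bool, p.f (m, l, Encodable.encode s) ≠ none →
        (s ∈ gg ↔ p.f (m, l, Encodable.encode s) = some (zr m))) →
      ∀ s : List Bool, s.length < L → Ev {b : B | RO.e q' ≤ b} (gb m l s) (s ∈ gg) := by
    intro l gg hl hG hpg s hs
    have hr : (res q m).f (m, l, Encodable.encode s) = none := by simp [res]
    have hiA : ((m, l, Encodable.encode s) : Idx) ∈ A := ⟨rfl, hl, s, hs.le, rfl⟩
    cases hpi : p.f (m, l, Encodable.encode s) with
    | some x =>
      have h1 : q'.f (m, l, Encodable.encode s) = some x := by simp [q', merge, hr, hpi]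
      have h2 := hpg s (by rw [hpi]; simp)
      rw [hpi] at h2
      constructor
      · intro hs'
        have h3 : x = zr m := Option.some_injective _ (h2.1 hs')
        exact le_cv (by rw [h1, h3])
      · intro hs'
        have h3 : x ≠ zr m := fun h => hs' (h2.2 (by rw [h]))
        exact le_cv_compl h1 h3
    | none =>
      have h1 : q'.f (m, l, Encodable.encode s) =
          some (if s ∈ gg then zr m else on m) := by
        have e1 : q'.f (m, l, Encodable.encode s) = h.f (m, l, Encodable.encode s) := by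
          simp [q', merge, hr, hpi]
        rw [e1]
        simp only [h, if_pos hiA, hG]
      constructor
      · intro hs'
        rw [if_pos hs'] at h1
        exact le_cv h1
      · intro hs'
        rw [if_neg hs'] at h1
        exact le_cv_compl h1 (zr_ne_on m).symm
  have hGj : ∀ s : List Bool, G (m, j, Encodable.encode s) ↔ s ∈ g := by
    intro s
    constructor
    · rintro ⟨s', h1, h2 | h2⟩
      · rw [Encodable.encode_injective h1]; exact h2.2
      · exact absurd h2.1 hj
    · intro hs; exact ⟨s, rfl, Or.inl ⟨rfl, hs⟩⟩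
  have hGj' : ∀ s : List Bool, G (m, j', Encodable.encode s) ↔ s ∈ g' := by
    intro s
    constructor
    · rintro ⟨s', h1, h2 | h2⟩
      · exact absurd h2.1.symm hj
      · rw [Encodable.encode_injective h1]; exact h2.2
    · intro hs; exact ⟨s, rfl, Or.inr ⟨rfl, hs⟩⟩
  have hev1 := hval j g (Or.inl rfl) hGj fun s hs => hg s (hL0 s (Or.inl hs))
  have hev2 := hval j' g' (Or.inr rfl) hGj' fun s hs => hg' s (hL0 s (Or.inr hs))
  have hW' : Filt {b : B | RO.e q' ≤ b} := ⟨fun h => RO.dense_e.ne_bot q' (le_bot_iff.1 h),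
    (le_top : RO.e q' ≤ (⊤ : B)), fun a ha b hab => le_trans (α := B) ha hab,
    fun a ha b hb => (le_inf (α := B) ha hb : RO.e q' ≤ a ⊓ b)⟩
  have hd : RO.e q' ≤ d := (RO.dense_e.mono _ _ hq'1).trans hres
  have hlitev : ∀ a : B, RO.e q' ≤ lit a → Ev {b : B | RO.e q' ≤ b} a (a ∈ W) := by
    intro a ha
    constructor
    · intro h
      simp only [lit, if_pos h] at ha
      exact ha
    · intro h
      simp only [lit, if_neg h] at ha
      exact ha
  have hevt : ∀ s : List Bool, s.length ≤ L → Ev {b : B | RO.e q' ≤ b} (t s) (s ∈ T) :=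
    fun s hs => hlitev _ (hd.trans ((iInf_le _ ⟨s, hs⟩).trans inf_le_left))
  have hevt' : ∀ s : List Bool, s.length ≤ L → Ev {b : B | RO.e q' ≤ b} (t' s) (s ∈ T') :=
    fun s hs => hlitev _ (hd.trans ((iInf_le _ ⟨s, hs⟩).trans inf_le_right))
  have hfinal : RO.e q' ≤ V := by
    refine le_trans ?_ (le_iSup _ L)
    refine le_iInf fun s => ?_
    have e1 := ev_bthin hW' hevt hev1 s.2.le
    have e2 := ev_bthin hW' hevt' hev2 s.2.le
    exact (e1.inf hW' e2).neg (hL s.1 s.2)
  exact RO.dense_e.not_both hfinal ((RO.dense_e.mono _ _ hq'2).trans (hp.trans inf_le_right))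

end Col

end SymExt
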