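import Mathlib

/-!
# Extraction of a generic filter together with a countable closed set of objects
-/

namespace SymExt

universe u v w

/-- A countable set closed under countably many finitary operations. -/
theorem exists_countable_closed {E : Type v} (S : Set E) (hS : S.Countable)
    (f : List E → Set E) (hf : ∀ l, (f l).Countable) :
    ∃ C : Set E, S ⊆ C ∧ C.Countable ∧ ∀ l, (∀ x ∈ l, x ∈ C) → f l ⊆ C := by
  classical
  let nx : Set E → Set E := fun T => T ∪ ⋃ l : List {x // x ∈ T}, f (l.map fun x => x.1)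
  let st : ℕ → Set E := fun n => nx^[n] S
  have hst0 : st 0 = S := rfl
  have hst1 : ∀ n, st (n + 1) = nx (st n) := fun n => Function.iterate_succ_apply' _ _ _
  have hc : ∀ n, (st n).Countable := by
    intro n
    induction n with
    | zero => exact hS
    | succ n ih =>
      rw [hst1]
      have : Countable {x // x ∈ st n} := ih
      exact ih.union (Set.countable_iUnion fun l => hf _)
  have hmono : Monotone st := monotone_nat_of_le_succ fun n => by
    rw [hst1]; exact Set.subset_union_left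
  refine ⟨⋃ n, st n, ?_, Set.countable_iUnion hc, ?_⟩
  · exact Set.subset_iUnion st 0
  · intro l hl
    have : ∃ n, ∀ x ∈ l, x ∈ st n := by
      clear hf
      induction l with
      | nil => exact ⟨0, by simp⟩
      | cons a l ih =>
        obtain ⟨n, hn⟩ := ih fun x hx => hl x (List.mem_cons_of_mem _ hx)
        obtain ⟨m, hm⟩ := Set.mem_iUnion.1 (hl a List.mem_cons_self)
        refine ⟨max n m, fun x hx => ?_⟩
        rcases List.mem_cons.1 hx with rfl | hx
        · exact hmono (le_max_right _ _) hm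
        · exact hmono (le_max_left _ _) (hn x hx)
    obtain ⟨n, hn⟩ := this
    intro y hy
    refine Set.mem_iUnion.2 ⟨n + 1, ?_⟩
    rw [hst1]
    refine Or.inr (Set.mem_iUnion.2 ⟨l.attach.map fun x => ⟨x.1, hn x.1 x.2⟩, ?_⟩)
    rw [List.map_map]
    convert hy using 2
    conv_rhs => rw [← List.attach_map_subtype_val l]
    rfl

/-- Generic extraction: a countable set `C` of objects closed under countably many operations,
and a filter `U` which decides and meets countably many requirements with parameters in `C`. -/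
theorem extract {𝔹 : Type u} [CompleteBooleanAlgebra 𝔹] {M : Type v} {O R : Type w}
    [Countable O] [Countable R] (op : O → List M → M) (req : R → List M → Set (𝔹 × List M))
    (b0 : 𝔹) (hb0 : b0 ≠ ⊥) :
    ∃ (C : Set M) (U : Set 𝔹), C.Countable ∧ (∀ o l, (∀ x ∈ l, x ∈ C) → op o l ∈ C) ∧
      b0 ∈ U ∧ ⊥ ∉ U ∧ (∀ a ∈ U, ∀ b, a ≤ b → b ∈ U) ∧ (∀ a ∈ U, ∀ b ∈ U, a ⊓ b ∈ U) ∧
      ∀ r l, (∀ x ∈ l, x ∈ C) →
        ((⨆ q ∈ req r l, q.1) ∈ U ∨ (⨆ q ∈ req r l, q.1)ᶜ ∈ U) ∧
        ((⨆ q ∈ req r l, q.1) ∈ U → ∃ q ∈ req r l, q.1 ∈ U ∧ ∀ x ∈ q.2, x ∈ C) := by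
  classical
  -- choice of witnesses
  have key : ∀ (r : R) (l : List M) (b : 𝔹), ∃ q : 𝔹 × List M,
      (b ⊓ (⨆ q ∈ req r l, q.1) ≠ ⊥ → q ∈ req r l ∧ b ⊓ q.1 ≠ ⊥) ∧
      (b ⊓ (⨆ q ∈ req r l, q.1) = ⊥ → q = (⊤, [])) := by
    intro r l b
    by_cases h : b ⊓ (⨆ q ∈ req r l, q.1) = ⊥
    · exact ⟨(⊤, []), fun h' => absurd h h', fun _ => rfl⟩
    · have : ∃ q ∈ req r l, b ⊓ q.1 ≠ ⊥ := by
        by_contra hcon
        push Not at hcon
        apply h
        rw [inf_iSup₂_eq]
        exact le_antisymm (iSup₂_le fun q hq => (hcon q hq).le) bot_le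
      obtain ⟨q, hq, hq'⟩ := this
      exact ⟨q, fun _ => ⟨hq, hq'⟩, fun h' => absurd h' h⟩
  choose nxt hn1 hn2 using key
  let mp : List (M ⊕ 𝔹) → List M := fun l => l.filterMap (Sum.elim some fun _ => none)
  let f : List (M ⊕ 𝔹) → Set (M ⊕ 𝔹) := fun l =>
    (⋃ o : O, {Sum.inl (op o (mp l))}) ∪
    ⋃ r : R, ⋃ x ∈ {x | x ∈ l}, {e | ∃ b, x = Sum.inr b ∧
      (e = Sum.inr (b ⊓ (nxt r (mp l) b).1) ∨ ∃ y ∈ (nxt r (mp l) b).2, e = Sum.inl y)}
  have hf : ∀ l, (f l).Countable := by
    intro l
    refine (Set.countable_iUnion fun o => Set.countable_singleton _).union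
      (Set.countable_iUnion fun r => Set.Countable.biUnion ?_ fun x _ => ?_)
    · exact (List.finite_toSet l).countable
    · rcases x with x | b
      · refine Set.Countable.mono ?_ Set.countable_empty
        rintro e ⟨b, hb, _⟩
        cases hb
      · have : {e : M ⊕ 𝔹 | ∃ b', (Sum.inr b : M ⊕ 𝔹) = Sum.inr b' ∧
            (e = Sum.inr (b' ⊓ (nxt r (mp l) b').1) ∨ ∃ y ∈ (nxt r (mp l) b').2, e = Sum.inl y)} ⊆
            {Sum.inr (b ⊓ (nxt r (mp l) b).1)} ∪ Sum.inl '' {y | y ∈ (nxt r (mp l) b).2} := by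
          rintro e ⟨b', hb', h | ⟨y, hy, h⟩⟩
          · cases hb'; exact Or.inl h
          · cases hb'; exact Or.inr ⟨y, hy, h.symm⟩
        refine Set.Countable.mono this ((Set.countable_singleton _).union ?_)
        exact ((List.finite_toSet _).image _).countable
  obtain ⟨C', hS, hC', hcl⟩ := exists_countable_closed {(Sum.inr b0 : M ⊕ 𝔹)}
    (Set.countable_singleton _) f hf
  let C : Set M := {x | Sum.inl x ∈ C'}
  have hCc : C.Countable := hC'.preimage Sum.inl_injective
  have hmp : ∀ l : List M, mp (l.map Sum.inl) = l := by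
    intro l
    simp only [mp, List.filterMap_map]
    exact List.filterMap_some
  have hmp' : ∀ (l : List M) (b : 𝔹), mp (Sum.inr b :: l.map Sum.inl) = l := by
    intro l b
    have := hmp l
    simp only [mp] at this ⊢
    rw [List.filterMap_cons]
    simp [this]
  have : Countable C := hCc
  let _ : Encodable (R × List C) := Encodable.ofCountable _
  let seq : ℕ → 𝔹 := fun n => Nat.rec b0 (fun i b =>
    match (Encodable.decode i : Option (R × List C)) with
    | none => b
    | some p => b ⊓ (nxt p.1 (p.2.map Subtype.val) b).1) n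
  have hseq1 : ∀ i, seq (i + 1) = match (Encodable.decode i : Option (R × List C)) with
    | none => seq i
    | some p => seq i ⊓ (nxt p.1 (p.2.map Subtype.val) (seq i)).1 := fun i => rfl
  have hseqC : ∀ i, Sum.inr (seq i) ∈ C' := by
    intro i
    induction i with
    | zero => exact hS rfl
    | succ i ih =>
      rw [hseq1]
      split
      · exact ih
      · rename_i p hp
        refine hcl (Sum.inr (seq i) :: (p.2.map Subtype.val).map Sum.inl) ?_ ?_
        · intro x hx
          rcases List.mem_cons.1 hx with rfl | hx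
          · exact ih
          · simp only [List.map_map, List.mem_map] at hx
            obtain ⟨y, hy, rfl⟩ := hx
            exact y.2
        · refine Or.inr (Set.mem_iUnion.2 ⟨p.1, Set.mem_iUnion₂.2
            ⟨Sum.inr (seq i), List.mem_cons_self, seq i, rfl, Or.inl ?_⟩⟩)
          rw [hmp']
  have hseqne : ∀ i, seq i ≠ ⊥ := by
    intro i
    induction i with
    | zero => exact hb0
    | succ i ih =>
      rw [hseq1]
      split
      · exact ih
      · rename_i p hp
        by_cases h : seq i ⊓ (⨆ q ∈ req p.1 (p.2.map Subtype.val), q.1) = ⊥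
        · rw [hn2 _ _ _ h]; simpa using ih
        · exact (hn1 _ _ _ h).2
  have hanti : Antitone seq := antitone_nat_of_succ_le fun i => by
    rw [hseq1]
    split
    · exact le_rfl
    · exact inf_le_left
  refine ⟨C, {a | ∃ i, seq i ≤ a}, hCc, ?_, ⟨0, le_rfl⟩, ?_, ?_, ?_, ?_⟩
  · intro o l hl
    refine hcl (l.map Sum.inl) ?_ ?_
    · intro x hx
      obtain ⟨y, hy, rfl⟩ := List.mem_map.1 hx
      exact hl y hy
    · refine Or.inl (Set.mem_iUnion.2 ⟨o, ?_⟩)
      rw [hmp]; rfl
  · rintro ⟨i, hi⟩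
    exact hseqne i (le_bot_iff.1 hi)
  · rintro a ⟨i, hi⟩ b hab
    exact ⟨i, hi.trans hab⟩
  · rintro a ⟨i, hi⟩ b ⟨j, hj⟩
    exact ⟨max i j, le_inf ((hanti (le_max_left _ _)).trans hi)
      ((hanti (le_max_right _ _)).trans hj)⟩
  · intro r l hl
    let l' : List C := l.attach.map fun x => ⟨x.1, hl x.1 x.2⟩
    have hl' : l'.map Subtype.val = l := by
      simp only [l', List.map_map]
      conv_rhs => rw [← List.attach_map_subtype_val l]
      rfl
    have hdec : (Encodable.decode (Encodable.encode (r, l')) : Option (R × List C)) =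
      some (r, l') := Encodable.encodek _
    set i := Encodable.encode (r, l') with hi
    have hs := hseq1 i
    rw [hdec] at hs
    simp only [hl'] at hs
    by_cases h : seq i ⊓ (⨆ q ∈ req r l, q.1) = ⊥
    · have h2 : (⨆ q ∈ req r l, q.1)ᶜ ∈ {a | ∃ i, seq i ≤ a} :=
        ⟨i, le_compl_iff_disjoint_right.2 (disjoint_iff.2 h)⟩
      refine ⟨Or.inr h2, ?_⟩
      rintro ⟨j, hj⟩
      obtain ⟨k, hk⟩ := h2
      exfalso
      have h3 : seq (max j k) ≤ ⊥ := by
        rw [← inf_compl_eq_bot (a := ⨆ q ∈ req r l, q.1)]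
        exact le_inf ((hanti (le_max_left _ _)).trans hj) ((hanti (le_max_right _ _)).trans hk)
      exact hseqne _ (le_bot_iff.1 h3)
    · obtain ⟨hq, hq'⟩ := hn1 _ _ _ h
      have hU : (nxt r l (seq i)).1 ∈ {a | ∃ i, seq i ≤ a} := ⟨i + 1, by rw [hs]; exact inf_le_right⟩
      refine ⟨Or.inl ⟨i + 1, ?_⟩, fun _ => ⟨nxt r l (seq i), hq, hU, ?_⟩⟩
      · rw [hs]
        exact inf_le_right.trans (le_iSup₂_of_le (nxt r l (seq i)) hq le_rfl)
      · intro x hx
        refine hcl (Sum.inr (seq i) :: l.map Sum.inl) ?_ ?_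
        · intro y hy
          rcases List.mem_cons.1 hy with rfl | hy
          · exact hseqC i
          · obtain ⟨z, hz, rfl⟩ := List.mem_map.1 hy
            exact hl z hz
        · refine Or.inr (Set.mem_iUnion.2 ⟨r, Set.mem_iUnion₂.2
            ⟨Sum.inr (seq i), List.mem_cons_self, seq i, rfl, Or.inr ⟨x, ?_, rfl⟩⟩⟩)
          rw [hmp']
          exact hx

end SymExt
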