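import Pool.Agent.Lib.MP_694cb9_lc.Ops
import Pool.Agent.Lib.MP_694cb9_lc.Extract

/-!
# The countable transitive model given by a generic extraction
-/

namespace SymExt

universe u v w

open Name

/-! ### Formulas are countable -/

/-- Coding of formulas by numbers. -/
def Fml.enc : ∀ {n : ℕ}, Fml n → ℕ
  | _, .mem i j => Nat.pair 0 (Nat.pair i j)
  | _, .eq i j => Nat.pair 1 (Nat.pair i j)
  | _, .bot => Nat.pair 2 0
  | _, .imp φ ψ => Nat.pair 3 (Nat.pair φ.enc ψ.enc)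
  | _, .all φ => Nat.pair 4 φ.enc

theorem Fml.enc_inj {n : ℕ} (φ : Fml n) : ∀ ψ : Fml n, φ.enc = ψ.enc → φ = ψ := by
  induction φ with
  | mem i j =>
    intro ψ h
    cases ψ <;> simp [Fml.enc, Nat.pair_eq_pair] at h
    · obtain ⟨h1, h2⟩ := h
      rw [Fin.ext h1, Fin.ext h2]
  | eq i j =>
    intro ψ h
    cases ψ <;> simp [Fml.enc, Nat.pair_eq_pair] at h
    · obtain ⟨h1, h2⟩ := h
      rw [Fin.ext h1, Fin.ext h2]
  | bot =>
    intro ψ h
    cases ψ <;> simp [Fml.enc, Nat.pair_eq_pair] at h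
    rfl
  | imp φ χ ih1 ih2 =>
    intro ψ h
    cases ψ <;> simp [Fml.enc, Nat.pair_eq_pair] at h
    · rw [ih1 _ h.1, ih2 _ h.2]
  | all φ ih =>
    intro ψ h
    cases ψ <;> simp [Fml.enc, Nat.pair_eq_pair] at h
    · rw [ih _ h]

instance {n : ℕ} : Countable (Fml n) :=
  Function.Injective.countable (f := Fml.enc) fun φ ψ h => Fml.enc_inj φ ψ h

variable {𝔹 : Type u} [CompleteBooleanAlgebra 𝔹]

/-- The filter `U` decides the supremum of the family `q`, and if it contains the supremum then it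
contains a member of the family with witnesses in `C`. -/
def Met (C : Set (Name 𝔹)) (U : Set 𝔹) (q : Set (𝔹 × List (Name 𝔹))) : Prop :=
  ((⨆ p ∈ q, p.1) ∈ U ∨ (⨆ p ∈ q, p.1)ᶜ ∈ U) ∧
  ((⨆ p ∈ q, p.1) ∈ U → ∃ p ∈ q, p.1 ∈ U ∧ ∀ x ∈ p.2, x ∈ C)

/-- The requirement given by an indexed family. -/
def fam {ι : Sort v} (f : ι → 𝔹) (l : ι → List (Name 𝔹)) : Set (𝔹 × List (Name 𝔹)) :=
  Set.range fun i => (f i, l i)

theorem Met.dec {C : Set (Name 𝔹)} {U : Set 𝔹} {ι : Sort v} {f : ι → 𝔹} {l : ι → List (Name 𝔹)}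
    (h : Met C U (fam f l)) : (⨆ i, f i) ∈ U ∨ (⨆ i, f i)ᶜ ∈ U := by
  have := h.1
  rwa [fam, iSup_range] at this

theorem Met.wit {C : Set (Name 𝔹)} {U : Set 𝔹} {ι : Sort v} {f : ι → 𝔹} {l : ι → List (Name 𝔹)}
    (h : Met C U (fam f l)) (h' : (⨆ i, f i) ∈ U) : ∃ i, f i ∈ U ∧ ∀ x ∈ l i, x ∈ C := by
  have := h.2
  rw [fam, iSup_range] at this
  obtain ⟨p, ⟨i, rfl⟩, hp⟩ := this h'
  exact ⟨i, hp⟩

/-- A sufficiently generic pair `(C, U)`. -/
structure Good (S : SymSys 𝔹) (C : Set (Name 𝔹)) (U : Set 𝔹) : Prop where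
  countable : C.Countable
  bot : ⊥ ∉ U
  top : ⊤ ∈ U
  up : ∀ a ∈ U, ∀ b, a ≤ b → b ∈ U
  inf : ∀ a ∈ U, ∀ b ∈ U, a ⊓ b ∈ U
  pair : ∀ x ∈ C, ∀ y ∈ C, pairN x y ∈ C
  union : ∀ x ∈ C, unionN x ∈ C
  pow : ∀ x ∈ C, S.powN x ∈ C
  sep : ∀ (n : ℕ) (φ : Fml (n + 1)), ∀ x ∈ C, ∀ p : Fin n → Name 𝔹, (∀ i, p i ∈ C) →
    sepN x (fun a => S.bval φ (Fin.cons a p)) ∈ C
  coll : ∀ (n : ℕ) (φ : Fml (n + 2)), ∀ x ∈ C, ∀ p : Fin n → Name 𝔹, (∀ i, p i ∈ C) →
    S.collN x (fun a y => S.bval φ (Fin.cons y (Fin.cons a p))) ∈ C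
  nat : ∀ n, natN n ∈ C
  omega : omegaN ∈ C
  bex : ∀ (n : ℕ) (φ : Fml (n + 1)), ∀ x ∈ C, ∀ p : Fin n → Name 𝔹, (∀ i, p i ∈ C) →
    Met C U (fam (fun i : x.idx => x.wt i ⊓ S.bval φ (Fin.cons (x.elt i) p)) fun i => [x.elt i])
  all : ∀ (n : ℕ) (φ : Fml (n + 1)), ∀ p : Fin n → Name 𝔹, (∀ i, p i ∈ C) →
    Met C U (fam (fun x : {x // S.HS x} => (S.bval φ (Fin.cons x.1 p))ᶜ) fun x => [x.1])
  dec : ∀ (n : ℕ) (φ : Fml n), ∀ p : Fin n → Name 𝔹, (∀ i, p i ∈ C) →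
    S.bval φ p ∈ U ∨ (S.bval φ p)ᶜ ∈ U
  rall : ∀ (n : ℕ) (φ : Fml (n + 1)), ∀ x ∈ C, ∀ p : Fin n → Name 𝔹, (∀ i, p i ∈ C) →
    Met C U (fam (fun i : x.idx => x.wt i ⊓ (bv x.dom φ (Fin.cons (x.elt i) p))ᶜ)
      fun i => [x.elt i])
  rdec : ∀ (n : ℕ) (φ : Fml n), ∀ x ∈ C, ∀ p : Fin n → Name 𝔹, (∀ i, p i ∈ C) →
    bv x.dom φ p ∈ U ∨ (bv x.dom φ p)ᶜ ∈ U

/-- Parameters read off a list. -/
def par (l : List (Name 𝔹)) (k n : ℕ) : Fin n → Name 𝔹 := fun i => l.getD (k + i.1) empN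

omit [CompleteBooleanAlgebra 𝔹] in
theorem par_one {n : ℕ} (x : Name 𝔹) (p : Fin n → Name 𝔹) : par (x :: List.ofFn p) 1 n = p := by
  funext i
  simp [par, add_comm 1 i.1, List.getD_eq_getElem?_getD]

omit [CompleteBooleanAlgebra 𝔹] in
theorem par_zero {n : ℕ} (p : Fin n → Name 𝔹) : par (List.ofFn p) 0 n = p := by
  funext i
  simp [par, List.getD_eq_getElem?_getD]

/-- Existence of generic pairs, with additional operations and requirements. -/
theorem exists_good (S : SymSys 𝔹) {O R : Type} [Countable O] [Countable R]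
    (op : O → List (Name 𝔹) → Name 𝔹) (req : R → List (Name 𝔹) → Set (𝔹 × List (Name 𝔹)))
    (b0 : 𝔹) (hb0 : b0 ≠ ⊥) :
    ∃ (C : Set (Name 𝔹)) (U : Set 𝔹), Good S C U ∧ b0 ∈ U ∧
      (∀ o l, (∀ x ∈ l, x ∈ C) → op o l ∈ C) ∧
      (∀ r l, (∀ x ∈ l, x ∈ C) → Met C U (req r l)) := by
  classical
  let O' := O ⊕ Option (Fin 3) ⊕ ℕ ⊕ (Σ n, Fml (n + 1)) ⊕ (Σ n, Fml (n + 2))
  let R' := R ⊕ ((Σ n, Fml (n + 1)) × Fin 3) ⊕ ((Σ n, Fml n) × Bool)
  let op' : O' → List (Name 𝔹) → Name 𝔹 := fun o l =>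
    match o with
    | .inl o => op o l
    | .inr (.inl none) => omegaN
    | .inr (.inl (some 0)) => pairN (l.getD 0 empN) (l.getD 1 empN)
    | .inr (.inl (some 1)) => unionN (l.getD 0 empN)
    | .inr (.inl (some 2)) => S.powN (l.getD 0 empN)
    | .inr (.inr (.inl n)) => natN n
    | .inr (.inr (.inr (.inl ⟨n, φ⟩))) =>
      sepN (l.getD 0 empN) (fun a => S.bval φ (Fin.cons a (par l 1 n)))
    | .inr (.inr (.inr (.inr ⟨n, φ⟩))) =>
      S.collN (l.getD 0 empN) (fun a y => S.bval φ (Fin.cons y (Fin.cons a (par l 1 n))))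
  let req' : R' → List (Name 𝔹) → Set (𝔹 × List (Name 𝔹)) := fun r l =>
    match r with
    | .inl r => req r l
    | .inr (.inl (⟨n, φ⟩, 0)) => fam (fun i : (l.getD 0 empN).idx => (l.getD 0 empN).wt i ⊓
        S.bval φ (Fin.cons ((l.getD 0 empN).elt i) (par l 1 n))) fun i => [(l.getD 0 empN).elt i]
    | .inr (.inl (⟨n, φ⟩, 1)) => fam (fun i : (l.getD 0 empN).idx => (l.getD 0 empN).wt i ⊓
        (bv (l.getD 0 empN).dom φ (Fin.cons ((l.getD 0 empN).elt i) (par l 1 n)))ᶜ)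
          fun i => [(l.getD 0 empN).elt i]
    | .inr (.inl (⟨n, φ⟩, 2)) =>
      fam (fun x : {x // S.HS x} => (S.bval φ (Fin.cons x.1 (par l 0 n)))ᶜ) fun x => [x.1]
    | .inr (.inr (⟨n, φ⟩, true)) => fam (fun _ : Unit => S.bval φ (par l 0 n)) fun _ => []
    | .inr (.inr (⟨n, φ⟩, false)) =>
      fam (fun _ : Unit => bv (l.getD 0 empN).dom φ (par l 1 n)) fun _ => []
  obtain ⟨C, U, hC, hop, hb, hbot, hup, hinf, hreq⟩ := extract op' req' b0 hb0
  have hlist : ∀ (n : ℕ) (p : Fin n → Name 𝔹), (∀ i, p i ∈ C) → ∀ x ∈ List.ofFn p, x ∈ C := by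
    intro n p hp x hx
    obtain ⟨i, rfl⟩ := (List.mem_ofFn).1 hx
    exact hp i
  have hcons : ∀ (n : ℕ) (x : Name 𝔹) (p : Fin n → Name 𝔹), x ∈ C → (∀ i, p i ∈ C) →
      ∀ y ∈ x :: List.ofFn p, y ∈ C := by
    intro n x p hx hp y hy
    rcases List.mem_cons.1 hy with rfl | hy
    · exact hx
    · exact hlist n p hp y hy
  refine ⟨C, U, ⟨hC, hbot, hup _ hb _ le_top, hup, hinf, ?_, ?_, ?_, ?_, ?_, ?_, ?_, ?_, ?_, ?_,
    ?_, ?_⟩, hb, fun o l hl => hop (.inl o) l hl, fun r l hl => hreq (.inl r) l hl⟩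
  · intro x hx y hy
    exact hop (.inr (.inl (some 0))) [x, y] (by simp [hx, hy])
  · intro x hx
    exact hop (.inr (.inl (some 1))) [x] (by simp [hx])
  · intro x hx
    exact hop (.inr (.inl (some 2))) [x] (by simp [hx])
  · intro n φ x hx p hp
    have := hop (.inr (.inr (.inr (.inl ⟨n, φ⟩)))) (x :: List.ofFn p) (hcons n x p hx hp)
    simp only [op', par_one] at this
    exact this
  · intro n φ x hx p hp
    have := hop (.inr (.inr (.inr (.inr ⟨n, φ⟩)))) (x :: List.ofFn p) (hcons n x p hx hp)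
    simp only [op', par_one] at this
    exact this
  · intro n
    exact hop (.inr (.inr (.inl n))) [] (by simp)
  · exact hop (.inr (.inl none)) [] (by simp)
  · intro n φ x hx p hp
    have := hreq (.inr (.inl (⟨n, φ⟩, 0))) (x :: List.ofFn p) (hcons n x p hx hp)
    simp only [req', par_one] at this
    exact this
  · intro n φ p hp
    have := hreq (.inr (.inl (⟨n, φ⟩, 2))) (List.ofFn p) (hlist n p hp)
    simp only [req', par_zero] at this
    exact this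
  · intro n φ p hp
    have := hreq (.inr (.inr (⟨n, φ⟩, true))) (List.ofFn p) (hlist n p hp)
    simp only [req', par_zero] at this
    have h2 := Met.dec this
    rwa [iSup_const] at h2
  · intro n φ x hx p hp
    have := hreq (.inr (.inl (⟨n, φ⟩, 1))) (x :: List.ofFn p) (hcons n x p hx hp)
    simp only [req', par_one] at this
    exact this
  · intro n φ x hx p hp
    have := hreq (.inr (.inr (⟨n, φ⟩, false))) (x :: List.ofFn p) (hcons n x p hx hp)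
    simp only [req', par_one] at this
    have h2 := Met.dec this
    rwa [iSup_const] at h2

end SymExt
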