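import Pool.Agent.Lib.MP_694cb9_lc.Sigma

/-!
# The model of ZF in which `ω₁` is inaccessible to reals and Sacks forcing collapses `ω₁`
-/

namespace SymExt

universe u

/-- Generic filters exist over countable models. -/
theorem exists_generic {N : Set ZFSet.{u}} (hN : N.Countable) {p : ZFSet.{u}}
    (hp : p ∈ Sacks N) : ∃ Γ, SacksGeneric N Γ ∧ p ∈ Γ := by
  classical
  have hne : ∃ f : ℕ → ZFSet.{u}, ∀ D ∈ N, ∃ n, f n = D := by
    obtain ⟨f, hf⟩ := hN.exists_eq_range ⟨p, hp.1⟩
    exact ⟨f, fun D hD => by rw [hf] at hD; exact hD⟩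
  obtain ⟨f, hf⟩ := hne
  have hstep : ∀ (D q : ZFSet.{u}), ∃ r, (q ∈ Sacks N → (∀ p ∈ D, p ∈ Sacks N) →
      (∀ p ∈ Sacks N, ∃ q ∈ D, q ⊆ p) → r ∈ D) ∧ (q ∈ Sacks N → r ∈ Sacks N ∧ r ⊆ q) := by
    intro D q
    by_cases h : q ∈ Sacks N ∧ (∀ p ∈ D, p ∈ Sacks N) ∧ (∀ p ∈ Sacks N, ∃ q ∈ D, q ⊆ p)
    · obtain ⟨r, hr, hr'⟩ := h.2.2 q h.1
      exact ⟨r, fun _ _ _ => hr, fun _ => ⟨h.2.1 r hr, hr'⟩⟩
    · refine ⟨q, fun h1 h2 h3 => absurd ⟨h1, h2, h3⟩ h, fun h1 => ⟨h1, fun _ => id⟩⟩
  choose g hg1 hg2 using hstep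
  let s : ℕ → ZFSet.{u} := fun n => Nat.rec p (fun n q => g (f n) q) n
  have hs : ∀ n, s (n + 1) = g (f n) (s n) := fun n => rfl
  have hsS : ∀ n, s n ∈ Sacks N := by
    intro n
    induction n with
    | zero => exact hp
    | succ n ih => rw [hs]; exact (hg2 _ _ ih).1
  have hmono : ∀ n m, n ≤ m → s m ⊆ s n := by
    intro n m hnm
    induction m, hnm using Nat.le_induction with
    | base => exact fun _ => id
    | succ m hm ih =>
      rw [hs]
      exact fun z hz => ih ((hg2 (f m) (s m) (hsS m)).2 hz)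
  refine ⟨{q | q ∈ Sacks N ∧ ∃ n, s n ⊆ q}, ⟨fun q hq => hq.1, ⟨p, hp, 0, fun _ => id⟩, ?_, ?_, ?_⟩,
    ⟨hp, 0, fun _ => id⟩⟩
  · rintro q ⟨_, n, hn⟩ r hr hqr
    exact ⟨hr, n, fun z hz => hqr (hn hz)⟩
  · rintro q ⟨_, n, hn⟩ r ⟨_, m, hm⟩
    refine ⟨s (max n m), ⟨hsS _, _, fun _ => id⟩, fun z hz => hn (hmono n _ (le_max_left _ _) hz),
      fun z hz => hm (hmono m _ (le_max_right _ _) hz)⟩
  · intro D hD h1 h2
    obtain ⟨n, rfl⟩ := hf D hD
    have h3 := hg1 (f n) (s n) (hsS n) h1 h2
    exact ⟨_, h3, h1 _ h3, n + 1, fun _ => id⟩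

theorem opN_inj {𝔹 : Type u} [CompleteBooleanAlgebra 𝔹] {x y x' y' : Name 𝔹}
    (h : opN x y = opN x' y') : x = x' ∧ y = y' := by
  have key : ∀ {a b a' b' : Name 𝔹}, pairN a b = pairN a' b' → a = a' ∧ b = b' := by
    intro a b a' b' h
    have h1 := (Name.mk.inj h).2.1
    have h2 := eq_of_heq h1
    exact ⟨congrFun h2 ⟨true⟩, congrFun h2 ⟨false⟩⟩
  obtain ⟨h1, h2⟩ := key h
  exact ⟨(key h1).1, (key h2).2⟩

namespace Col

open Name Ordinal Thin

open Classical in
/-- Components of an ordered pair. -/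
noncomputable def unop (c : Bool) (x : Name B) : Name B :=
  if h : ∃ p : Name B × Name B, x = opN p.1 p.2 then cond c h.choose.1 h.choose.2 else empN

theorem unop_opN (c : Bool) (x y : Name B) : unop c (opN x y) = cond c x y := by
  have h : ∃ p : Name B × Name B, opN x y = opN p.1 p.2 := ⟨(x, y), rfl⟩
  rw [unop, dif_pos h]
  obtain ⟨h1, h2⟩ := opN_inj h.choose_spec
  cases c
  · exact h2.symm
  · exact h1.symm

open Classical in
/-- Decoding of indices. -/
noncomputable def decJ (x : Name B) : Option J :=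
  if h : ∃ i, x = codeN i then some h.choose else none

theorem decJ_codeN (i : J) : decJ (codeN i) = some i := by
  have h : ∃ i', codeN i = codeN i' := ⟨i, rfl⟩
  rw [decJ, dif_pos h, codeN_inj h.choose_spec.symm]

/-- The additional operations. -/
noncomputable def opM : (ℕ × ℕ) ⊕ (Σ n, Fml (n + 1)) → List (Name B) → Name B
  | .inl (0, _), _ => ordN omω
  | .inl (1, m), _ => ordN (om m)
  | .inl (2, _), l => unop true (l.getD 0 empN)
  | .inl (3, _), l => unop false (l.getD 0 empN)
  | .inl (4, _), l => ordN (nrank (l.getD 0 empN))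
  | .inl (5, m), l => colN m (l.getD 0 empN)
  | .inl (6, _), l => LN (l.getD 0 empN) (l.getD 1 empN)
  | .inl (7, _), _ => oneN
  | .inl (8, _), l => sN oneN (l.getD 0 empN)
  | .inl (9, _), _ => sigN
  | .inl (10, _), l => delN (l.getD 0 empN)
  | .inl (11, m), _ => nodeN ((Encodable.decode m : Option (List Bool)).getD [])
  | .inl (12, _), l => realN (l.getD 0 empN)
  | .inl (_, _), _ => empN
  | .inr ⟨n, φ⟩, l => rsepN (l.getD 0 empN) φ (par l 1 n)

open Classical in
/-- The additional requirements. -/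
noncomputable def reqM (r : ℕ × ℕ × List Bool) (l : List (Name B)) : Set (B × List (Name B)) :=
  let m := r.2.1
  let s := r.2.2
  let a := l.getD 0 empN
  let b := l.getD 1 empN
  let c := l.getD 2 empN
  match r.1 with
  | 0 => fam (fun p : ℕ × K m => (cv (m, 0, p.1) p.2 ⊓ bmem (ordN (toO p.2)) a) ⊓
      beq b (ordN (toO p.2))) fun p => [ordN (toO p.2)]
  | 1 => fam (fun x : K m => (⨆ n, bmem (opN (natN n) (ordN (toO x))) a)ᶜ)
      fun x => [ordN (toO x)]
  | 2 => fam (fun p : {p : ℕ × K m × K m // p.2.1 ≠ p.2.2} =>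
      bmem (opN (natN p.1.1) (ordN (toO p.1.2.1))) a ⊓
      bmem (opN (natN p.1.1) (ordN (toO p.1.2.2))) a)
      fun p => [ordN (toO p.1.2.1), ordN (toO p.1.2.2)]
  | 3 => fam (fun j : (Σ i : b.idx, DefI (LN a (b.elt i))) =>
      (b.wt j.1 ⊓ j.2.wt) ⊓ beq c j.2.elt)
      fun j => b.elt j.1 :: j.2.elt :: List.ofFn fun l => (LN a (b.elt j.1)).elt (j.2.2.2 l)
  | 4 => fam (fun i : a.idx => a.wt i ⊓ beq b (opN (sN oneN (a.elt i)) oneN)) fun i => [a.elt i]
  | 5 => fam (fun i : J => i.wt ⊓ beq a i.sE) fun i => [i.sE, codeN i, i.or]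
  | 6 => fam (fun i : J => (i.wt ⊓ beq a i.or) ⊓ beq b (treeN i.tr))
      fun i => [treeN i.tr, codeN i, i.or]
  | 7 => match decJ a with
    | none => ∅
    | some i => fam (fun _ : Unit => i.t.1 s) fun _ => []
  | 8 => match decJ a with
    | none => ∅
    | some i => fam (fun _ : Unit => gb i.m i.j s) fun _ => []
  | 9 => match decJ a with
    | none => ∅
    | some i => fam (fun p : Inc s => i.t.1 p.1.1 ⊓ i.t.1 p.1.2) fun _ => []
  | 10 => match decJ a, decJ b with
    | some i, some i' => fam (fun L : ℕ => ⨅ s : {s : List Bool // s.length = L},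
        (i.tr s.1 ⊓ i'.tr s.1)ᶜ) fun _ => []
    | _, _ => ∅
  | 11 => fam (fun p : Bool × List Bool =>
      bmem (nodeN (p.1 :: p.2)) a ⊓ (bmem (nodeN p.2) a)ᶜ) fun _ => []
  | 12 => fam (fun s : List Bool => bmem (nodeN s) a ⊓
      (⨆ p : Inc s, bmem (nodeN p.1.1) a ⊓ bmem (nodeN p.1.2) a)ᶜ) fun _ => []
  | 13 => if hy : (∀ s, ∀ g ∈ H m, actB g (bmem (nodeN s) a) = bmem (nodeN s) a) then
      fam (fun p : ℕ × K m => (mkJ m p.1 p.2 a hy).wt ⊓ beq b (mkJ m p.1 p.2 a hy).or)
        fun p => [codeN (mkJ m p.1 p.2 a hy), treeN (mkJ m p.1 p.2 a hy).tr,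
          (mkJ m p.1 p.2 a hy).or]
    else ∅
  | _ => ∅

/-- There is a countable transitive model of ZF in which `ω₁` is inaccessible to reals and
Sacks forcing collapses `ω₁`. -/
theorem main : ∃ (N : Set ZFSet.{0}) (κ : ZFSet.{0}), N.Countable ∧ IsZF N ∧ IsOmegaOne N κ ∧
    InaccToReals N κ ∧
    (∀ Γ, SacksGeneric N Γ → ∃ f ∈ GenExt N Γ, PSurj f κ) ∧
    (∀ p ∈ Sacks N, ∃ Γ, SacksGeneric N Γ ∧ p ∈ Γ) := by
  obtain ⟨C, U, h, _, hop, hreq⟩ := exists_good sys opM reqM ⊤ top_ne_bot
  have hmem : ∀ {a : Name B}, a ∈ C → ∀ x ∈ [a], x ∈ C := by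
    intro a ha x hx
    rw [List.mem_singleton] at hx
    rwa [hx]
  have hmem2 : ∀ {a b : Name B}, a ∈ C → b ∈ C → ∀ x ∈ [a, b], x ∈ C := by
    intro a b ha hb x hx
    simp only [List.mem_cons, List.not_mem_nil, or_false] at hx
    rcases hx with rfl | rfl
    · exact ha
    · exact hb
  have hmem3 : ∀ {a b c : Name B}, a ∈ C → b ∈ C → c ∈ C → ∀ x ∈ [a, b, c], x ∈ C := by
    intro a b c ha hb hc x hx
    simp only [List.mem_cons, List.not_mem_nil, or_false] at hx
    rcases hx with rfl | rfl | rfl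
    · exact ha
    · exact hb
    · exact hc
  have hnil : ∀ x ∈ ([] : List (Name B)), x ∈ C := by simp
  have hO : GoodO C U :=
    { ordω := hop (.inl (0, 0)) [] hnil
      ordm := fun m => hop (.inl (1, m)) [] hnil
      unop := fun x y hxy => by
        have e1 := hop (.inl (2, 0)) [opN x y] (hmem hxy)
        have e2 := hop (.inl (3, 0)) [opN x y] (hmem hxy)
        change unop true (opN x y) ∈ C at e1
        change unop false (opN x y) ∈ C at e2
        rw [unop_opN] at e1 e2
        exact ⟨e1, e2⟩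
      rank := fun x hx => hop (.inl (4, 0)) [x] (hmem hx)
      col := fun m a ha => hop (.inl (5, m)) [a] (hmem ha)
      col_req := fun m a ha w hw => hreq (0, m, []) [a, w] (hmem2 ha hw)
      surj_req := fun m f hf => hreq (1, m, []) [f] (hmem hf)
      fun_req := fun m f hf => hreq (2, m, []) [f] (hmem hf) }
  have hL : GoodL C U :=
    { ln := fun X hX a ha => hop (.inl (6, 0)) [X, a] (hmem2 hX ha)
      rsep := fun A hA n φ p hp => by
        have e1 := hop (.inr ⟨n, φ⟩) (A :: List.ofFn p) (fun x hx => by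
          rcases List.mem_cons.1 hx with rfl | hx
          · exact hA
          · obtain ⟨i, rfl⟩ := List.mem_ofFn.1 hx
            exact hp i)
        change rsepN A φ (par (A :: List.ofFn p) 1 n) ∈ C at e1
        rwa [par_one] at e1
      imp := fun X hX a ha w hw => hreq (3, 0, []) [X, a, w] (hmem3 hX ha hw) }
  have hS : GoodS oneN C U :=
    { one_mem := hop (.inl (7, 0)) [] hnil
      sn := fun x hx => hop (.inl (8, 0)) [x] (hmem hx)
      imp := fun x hx w hw => hreq (4, 0, []) [x, w] (hmem2 hx hw) }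
  have hG : GoodSig C U :=
    { sig := hop (.inl (9, 0)) [] hnil
      del := fun a ha => hop (.inl (10, 0)) [a] (hmem ha)
      node := fun s => by
        have e1 := hop (.inl (11, Encodable.encode s)) [] hnil
        change nodeN ((Encodable.decode (Encodable.encode s) : Option (List Bool)).getD []) ∈ C
          at e1
        rwa [Encodable.encodek] at e1
      imp_sig := fun w hw => hreq (5, 0, []) [w] (hmem hw)
      imp_del := fun a ha w hw => hreq (6, 0, []) [a, w] (hmem2 ha hw)
      dec_t := fun i hi s => by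
        have e1 := hreq (7, 0, s) [codeN i] (hmem hi)
        have e2 : reqM (7, 0, s) [codeN i] = fam (fun _ : Unit => i.t.1 s) fun _ => [] := by
          change (match decJ (codeN i) with
            | none => ∅
            | some i => fam (fun _ : Unit => i.t.1 s) fun _ => []) = _
          rw [decJ_codeN]
        rw [e2] at e1
        have e3 := e1.dec
        rwa [iSup_const] at e3
      dec_g := fun i hi s => by
        have e1 := hreq (8, 0, s) [codeN i] (hmem hi)
        have e2 : reqM (8, 0, s) [codeN i] = fam (fun _ : Unit => gb i.m i.j s) fun _ => [] := by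
          change (match decJ (codeN i) with
            | none => ∅
            | some i => fam (fun _ : Unit => gb i.m i.j s) fun _ => []) = _
          rw [decJ_codeN]
        rw [e2] at e1
        have e3 := e1.dec
        rwa [iSup_const] at e3
      inc := fun i hi s hs => by
        have e1 := hreq (9, 0, s) [codeN i] (hmem hi)
        have e2 : reqM (9, 0, s) [codeN i] =
            fam (fun p : Inc s => i.t.1 p.1.1 ⊓ i.t.1 p.1.2) fun _ => [] := by
          change (match decJ (codeN i) with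
            | none => ∅
            | some i => fam (fun p : Inc s => i.t.1 p.1.1 ⊓ i.t.1 p.1.2) fun _ => []) = _
          rw [decJ_codeN]
        rw [e2] at e1
        obtain ⟨p, hp, _⟩ := e1.wit hs
        exact ⟨p, hp⟩
      kill := fun i i' hi hi' hs => by
        have e1 := hreq (10, 0, []) [codeN i, codeN i'] (hmem2 hi hi')
        have e2 : reqM (10, 0, []) [codeN i, codeN i'] =
            fam (fun L : ℕ => ⨅ s : {s : List Bool // s.length = L},
              (i.tr s.1 ⊓ i'.tr s.1)ᶜ) fun _ => [] := by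
          change (match decJ (codeN i), decJ (codeN i') with
            | some i, some i' => fam (fun L : ℕ => ⨅ s : {s : List Bool // s.length = L},
                (i.tr s.1 ⊓ i'.tr s.1)ᶜ) fun _ => []
            | _, _ => ∅) = _
          rw [decJ_codeN, decJ_codeN]
        rw [e2] at e1
        obtain ⟨p, hp, _⟩ := e1.wit hs
        exact ⟨p, hp⟩
      perf1 := fun y hy => hreq (11, 0, []) [y] (hmem hy)
      perf2 := fun y hy => hreq (12, 0, []) [y] (hmem hy)
      dens := fun y hy a ha m hfix => by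
        have e1 := hreq (13, m, []) [y, a] (hmem2 hy ha)
        have e2 : reqM (13, m, []) [y, a] =
            fam (fun p : ℕ × K m => (mkJ m p.1 p.2 y hfix).wt ⊓ beq a (mkJ m p.1 p.2 y hfix).or)
              fun p => [codeN (mkJ m p.1 p.2 y hfix), treeN (mkJ m p.1 p.2 y hfix).tr,
                (mkJ m p.1 p.2 y hfix).or] := dif_pos hfix
        rw [e2] at e1
        exact e1 }
  refine ⟨model sys C U, val C U (ordN omω), model_countable h, h.isZF, isOmegaOne h hO,
    inaccToReals h hO hL (fun x hx => hop (.inl (12, 0)) [x] (hmem hx)), fun Γ hΓ =>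
    collapse h hO hG hS hΓ, fun p hp => exists_generic (model_countable h) hp⟩

end Col

end SymExt
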