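import Pool.Agent.Lib.MP_694cb9_lc.SName
import Pool.Agent.Lib.MP_694cb9_lc.BThin

/-!
# The first uncountable ordinal of the model
-/

namespace SymExt

namespace Col

open Name Ordinal

/-- The ordinal `ω_{m+1}`. -/
noncomputable abbrev om (m : ℕ) : Ordinal.{0} := Ordinal.omega ((m : Ordinal.{0}) + 1)

/-- The ordinal `ω_ω`. -/
noncomputable abbrev omω : Ordinal.{0} := Ordinal.omega Ordinal.omega0

theorem om_lt (m : ℕ) : om m < omω := by
  rw [Ordinal.omega_lt_omega]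
  exact_mod_cast Ordinal.natCast_lt_omega0 (m + 1)

theorem om_mono {m n : ℕ} (h : m ≤ n) : om m ≤ om n := by
  rw [Ordinal.omega_le_omega]
  gcongr

theorem exists_lt_om {a : Ordinal.{0}} (ha : a < omω) : ∃ m, a < om m := by
  have h1 := (Ordinal.isNormal_omega.lt_iff_exists_lt Ordinal.isSuccLimit_omega0).1 ha
  obtain ⟨b, hb, hab⟩ := h1
  obtain ⟨n, rfl⟩ := Ordinal.lt_omega0.1 hb
  refine ⟨n, hab.trans_le ?_⟩
  rw [Ordinal.omega_le_omega]
  exact_mod_cast Nat.le_succ n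

/-- The ordinal of an element of `K m`. -/
noncomputable abbrev toO {m : ℕ} (x : K m) : Ordinal.{0} := x.toOrd.1

theorem toO_lt {m : ℕ} (x : K m) : toO x < om m := x.toOrd.prop

theorem toO_inj {m : ℕ} {x y : K m} (h : toO x = toO y) : x = y := by
  apply Ordinal.ToType.mk.symm.injective
  exact Subtype.ext h

/-- The element of `K m` given by an ordinal. -/
noncomputable def ofO {m : ℕ} {a : Ordinal.{0}} (h : a < om m) : K m := Ordinal.ToType.mk ⟨a, h⟩

theorem toO_ofO {m : ℕ} {a : Ordinal.{0}} (h : a < om m) : toO (ofO h) = a := by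
  simp [toO, ofO]

/-- The name of a surjection of `ω` onto `a ⊆ ω_{m+1}`. -/
noncomputable def colN (m : ℕ) (a : Name B) : Name B :=
  Name.mk (ℕ × K m) (fun p => opN (natN p.1) (ordN (toO p.2)))
    fun p => cv (m, 0, p.1) p.2 ⊓ bmem (ordN (toO p.2)) a

/-- Closure and genericity properties. -/
structure GoodO (C : Set (Name B)) (U : Set B) : Prop where
  ordω : ordN omω ∈ C
  ordm : ∀ m, ordN (om m) ∈ C
  unop : ∀ x y, opN x y ∈ C → x ∈ C ∧ y ∈ C
  rank : ∀ x ∈ C, ordN (nrank x) ∈ C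
  col : ∀ m, ∀ a ∈ C, colN m a ∈ C
  col_req : ∀ m, ∀ a ∈ C, ∀ w ∈ C, Met C U (fam
    (fun p : ℕ × K m => (cv (m, 0, p.1) p.2 ⊓ bmem (ordN (toO p.2)) a) ⊓ beq w (ordN (toO p.2)))
    fun p => [ordN (toO p.2)])
  surj_req : ∀ m, ∀ f ∈ C, Met C U (fam
    (fun x : K m => (⨆ n, bmem (opN (natN n) (ordN (toO x))) f)ᶜ) fun x => [ordN (toO x)])
  fun_req : ∀ m, ∀ f ∈ C, Met C U (fam
    (fun p : {p : ℕ × K m × K m // p.2.1 ≠ p.2.2} =>
      bmem (opN (natN p.1.1) (ordN (toO p.1.2.1))) f ⊓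
      bmem (opN (natN p.1.1) (ordN (toO p.1.2.2))) f)
    fun p => [ordN (toO p.1.2.1), ordN (toO p.1.2.2)])

variable {C : Set (Name B)} {U : Set B}

theorem pair_iff (h : Good sys C U) {f : Name B} (hf : f ∈ C) (n : ℕ) {a : Name B}
    (ha : a ∈ C) : bmem (opN (natN n) a) f ∈ U ↔
      ZFSet.pair (natSet n) (val C U a) ∈ val C U f := by
  rw [h.bmem_iff (h.opN_mem (h.nat n) ha) hf, h.val_opN (h.nat n) ha, h.val_natN]

/-- A name fixed by `H m` does not give a surjection of `ω` onto `ω_{m+1}` of the ground model. -/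
theorem no_surj (h : Good sys C U) (hO : GoodO C U) {f : Name B} (hf : f ∈ C) {m : ℕ}
    (hfix : ∀ g ∈ H m, beq (sys.am g f) f = ⊤)
    (h1 : ∀ z ∈ val C U f, ∃ n ∈ ZFSet.omega, ∃ y, z = ZFSet.pair n y)
    (h2 : ∀ n y y', ZFSet.pair n y ∈ val C U f → ZFSet.pair n y' ∈ val C U f → y = y')
    (h3 : ∀ y ∈ val C U (ordN (om m) : Name B), ∃ n, ZFSet.pair n y ∈ val C U f) : False := by
  have key := bound m (fun n x => bmem (opN (natN n) (ordN (toO x))) f) fun n x g hg =>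
    SymSys.Fixed.bmem (S := sys) (sys.fixed_pure ((pure_natN n).opN (pure_ordN _)) _ g hg)
      (hfix g hg)
  apply h.bot
  rw [← key]
  apply h.inf
  · rcases (hO.surj_req m f hf).dec with hd | hd
    · exfalso
      obtain ⟨x, hx, hx'⟩ := (hO.surj_req m f hf).wit hd
      have hxC : ordN (toO x) ∈ C := hx' _ (by simp)
      obtain ⟨n, hn⟩ := h3 _ (val_ordN_mem h.top (toO_lt x) hxC)
      obtain ⟨n', hn', y, hy⟩ := h1 _ hn
      obtain ⟨k, hk⟩ := mem_omega_iff.1 hn'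
      have e1 : n = natSet k := by rw [(ZFSet.pair_inj.1 hy).1, hk]
      rw [e1, ← pair_iff h hf k hxC] at hn
      exact h.not_compl (h.up _ hn _ (le_iSup (fun n => bmem (opN (natN n) (ordN (toO x))) f) k)) hx
    · rw [compl_iSup] at hd
      simpa only [compl_compl] using hd
  · rcases (hO.fun_req m f hf).dec with hd | hd
    · exfalso
      obtain ⟨⟨⟨n, x, y⟩, hne⟩, hx, hx'⟩ := (hO.fun_req m f hf).wit hd
      have hxC : ordN (toO x) ∈ C := hx' _ (by simp)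
      have hyC : ordN (toO y) ∈ C := hx' _ (by simp)
      rw [h.inf_iff] at hx
      have e1 := (pair_iff h hf n hxC).1 hx.1
      have e2 := (pair_iff h hf n hyC).1 hx.2
      exact hne (toO_inj (val_ordN_inj h.top hxC hyC (h2 _ _ _ e1 e2)))
    · rw [compl_iSup] at hd
      refine h.up _ hd _ ?_
      refine le_iInf fun n => le_iInf fun x => le_iInf fun y => le_iInf fun hne => ?_
      exact iInf_le _ (⟨(n, x, y), hne⟩ : {p : ℕ × K m × K m // p.2.1 ≠ p.2.2})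

theorem H_mem (m : ℕ) : (H m : Subgroup sys.G) ∈ sys.F := ⟨m, le_rfl⟩

theorem hs_colN (m : ℕ) {a : Name B} (ha : Pure a) : sys.HS (colN m a) := by
  refine hs_fam (S := sys) (fun p => sys.hs_pure ((pure_natN _).opN (pure_ordN _)))
    (H_mem (m + 1)) fun g hg p => ⟨p, ?_, ?_⟩
  · change actB g (cv (m, 0, p.1) p.2 ⊓ bmem (ordN (toO p.2)) a) ≤ _
    rw [map_inf, act_cv]
    refine inf_le_inf (le_of_eq ?_) (le_of_eq ?_)
    · have : g m = 1 := hg m (Nat.lt_succ_self m)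
      change cv (m, (g m) 0, p.1) p.2 = _
      rw [this]; rfl
    · exact SymSys.Fixed.bmem (S := sys) (sys.fixed_pure (pure_ordN _) _ g hg)
        (sys.fixed_pure ha _ g hg)
  · exact sys.am_pure ((pure_natN _).opN (pure_ordN _)) g

theorem psurj_colN (h : Good sys C U) (hO : GoodO C U) {m : ℕ} {o : Ordinal.{0}} (ho : o < om m)
    (hoC : ordN o ∈ C) : PSurj (val C U (colN m (ordN o))) (val C U (ordN o)) := by
  have hel : ∀ z ∈ val C U (colN m (ordN o)), ∃ (n : ℕ) (x : K m), ordN (toO x) ∈ C ∧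
      cv (m, 0, n) x ∈ U ∧ val C U (ordN (toO x)) ∈ val C U (ordN o) ∧
      z = ZFSet.pair (natSet n) (val C U (ordN (toO x))) := by
    intro z hz
    obtain ⟨⟨n, x⟩, h1, h2, h3⟩ := mem_val.1 hz
    change opN (natN n) (ordN (toO x)) ∈ C at h1
    change cv (m, 0, n) x ⊓ bmem (ordN (toO x)) (ordN o) ∈ U at h2
    change z = val C U (opN (natN n) (ordN (toO x))) at h3
    have hxC := (hO.unop _ _ h1).2
    rw [h.inf_iff] at h2
    refine ⟨n, x, hxC, h2.1, (h.bmem_iff hxC hoC).1 h2.2, ?_⟩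
    rw [h3, h.val_opN (h.nat n) hxC, h.val_natN]
  refine ⟨fun z hz => ?_, fun n y y' hy hy' => ?_, fun y hy => ?_⟩
  · obtain ⟨n, x, _, _, h3, h4⟩ := hel z hz
    exact ⟨natSet n, mem_omega_iff.2 ⟨n, rfl⟩, _, h3, h4⟩
  · obtain ⟨k, x, _, h2, _, h4⟩ := hel _ hy
    obtain ⟨k', x', _, h2', _, h4'⟩ := hel _ hy'
    rw [ZFSet.pair_inj] at h4 h4'
    have hk : k = k' := natSet_inj (h4.1.symm.trans h4'.1)
    subst hk
    rw [h4.2, h4'.2]
    by_cases hx : x = x'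
    · rw [hx]
    · exfalso
      apply h.bot
      rw [← cv_inf_cv (i := (m, 0, k)) hx]
      exact h.inf _ h2 _ h2'
  · obtain ⟨b, hb, hbC, rfl⟩ := (mem_val_ordN h.top).1 hy
    obtain ⟨x0, rfl⟩ : ∃ x0 : K m, toO x0 = b := ⟨ofO (hb.trans ho), toO_ofO _⟩
    have h1 : bmem (ordN (toO x0)) (ordN o) ∈ U := (h.bmem_iff hbC hoC).2 hy
    have h2 : (⨆ p : ℕ × K m, (cv (m, 0, p.1) p.2 ⊓ bmem (ordN (toO p.2)) (ordN o)) ⊓
        beq (ordN (toO x0)) (ordN (toO p.2))) ∈ U := by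
      refine h.up _ h1 _ ?_
      have e1 : bmem (ordN (toO x0)) (ordN o) = ⨆ n, cv (m, 0, n) x0 ⊓
          bmem (ordN (toO x0)) (ordN o : Name B) := by
        rw [← iSup_inf_eq, iSup_cv, top_inf_eq]
      rw [e1]
      refine iSup_le fun n => le_trans ?_ (le_iSup _ ((n, x0) : ℕ × K m))
      simp only [beq_refl, inf_top_eq]
      exact le_rfl
    obtain ⟨⟨n, x⟩, h3, h4⟩ := (hO.col_req m _ hoC _ hbC).wit h2
    have hxC : ordN (toO x) ∈ C := h4 _ (by simp)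
    rw [h.inf_iff] at h3
    refine ⟨natSet n, ?_⟩
    rw [(h.beq_iff _ _ hbC hxC).1 h3.2, ← h.val_natN n, ← h.val_opN (h.nat n) hxC]
    exact mem_val.2 ⟨(n, x), h.opN_mem (h.nat n) hxC, h3.1, rfl⟩

theorem isOmegaOne (h : Good sys C U) (hO : GoodO C U) :
    IsOmegaOne (model sys C U) (val C U (ordN omω)) := by
  refine ⟨⟨_, hO.ordω, sys.hs_pure (pure_ordN _), rfl⟩, isOrdinal_val_ordN h.top _, ?_, ?_⟩
  · intro α hα
    obtain ⟨a, ha, haC, rfl⟩ := (mem_val_ordN h.top).1 hα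
    obtain ⟨m, hm⟩ := exists_lt_om ha
    exact ⟨_, ⟨_, hO.col m _ haC, hs_colN m (pure_ordN _), rfl⟩, psurj_colN h hO hm haC⟩
  · rintro ⟨f, ⟨f, hf, hf', rfl⟩, h1, h2, h3⟩
    obtain ⟨L, ⟨m, hm⟩, hL⟩ := hf'.symm
    refine no_surj h hO hf (m := m) (fun g hg => hL g (hm hg)) (fun z hz => ?_) h2 fun y hy =>
      h3 y (val_ordN_subset h.top (om_lt m).le hy)
    obtain ⟨n, hn, y, _, hy⟩ := h1 z hz
    exact ⟨n, hn, y, hy⟩

/-- The name of a real as a subset of `ω`. -/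
noncomputable def realN (x : Name B) : Name B :=
  Name.mk ℕ natN fun n => bmem (natN n) x

theorem val_realN (h : Good sys C U) {x : Name B} (hx : x ∈ C)
    (hxω : val C U x ⊆ ZFSet.omega) : val C U (realN x) = val C U x := by
  ext z
  rw [mem_val]
  constructor
  · rintro ⟨n, _, h2, rfl⟩
    exact (h.bmem_iff (h.nat n) hx).1 h2
  · intro hz
    obtain ⟨n, rfl⟩ := mem_omega_iff.1 (hxω hz)
    refine ⟨n, h.nat n, ?_, (h.val_natN n).symm⟩
    change bmem (natN n) x ∈ U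
    rw [h.bmem_iff (h.nat n) hx, h.val_natN]
    exact hz

theorem inaccToReals (h : Good sys C U) (hO : GoodO C U) (hL : GoodL C U)
    (hreal : ∀ x ∈ C, realN x ∈ C) :
    InaccToReals (model sys C U) (val C U (ordN omω)) := by
  rintro x ⟨x, hx, hx', rfl⟩ hxω
  obtain ⟨L, ⟨m, hm⟩, hxL⟩ := hx'.symm
  refine ⟨val C U (ordN (om m)), val_ordN_mem h.top (om_lt m) (hO.ordm m), ?_⟩
  rintro β ⟨β, hβ, _, rfl⟩ hβo f hf hsurj
  have hX := hreal x hx
  have hγ := hO.rank β hβ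
  -- `f` belongs to a level indexed by a canonical ordinal
  have hf' : f ∈ LRel (val C U x) (val C U (ordN (nrank β))) := by
    rw [LRel] at hf ⊢
    rw [ZFSet.mem_union] at hf ⊢
    rcases hf with hf | hf
    · exact Or.inl hf
    · right
      rw [ZFSet.mem_iUnion] at hf ⊢
      obtain ⟨⟨c, hc⟩, hf⟩ := hf
      exact ⟨⟨c, subset_val_ordN h.top hO.rank β hβ hβo hc⟩, hf⟩
  rw [← val_realN h hx hxω, ← val_LN h hL hX _ hγ] at hf'
  obtain ⟨i, hi, _, rfl⟩ := mem_val.1 hf'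
  have hfixX : HFix sys (H m) (realN x) := by
    rw [hfix_iff]
    refine ⟨fun n g hg => ?_, fun n => HFix.of_pure (pure_natN n)⟩
    exact SymSys.Fixed.bmem (S := sys) (sys.fixed_pure (pure_natN n) _ g hg) (hxL g (hm hg))
  have hfix := hfix_LN hfixX (ordN (nrank β)) (HFix.of_pure (pure_ordN _))
  obtain ⟨h1, h2, h3⟩ := hsurj
  refine no_surj h hO hi (m := m) ((((hfix_iff _).1 hfix).2 i).fixed) (fun z hz => ?_) h2 h3
  obtain ⟨n, hn, y, _, hy⟩ := h1 z hz
  exact ⟨n, hn, y, hy⟩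

end Col

end SymExt
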