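import Pool.Agent.Lib.MP_694cb9_lc.Sym

/-!
# Operations on names
-/

namespace SymExt

universe u v w

open Name

variable {𝔹 : Type u} [CompleteBooleanAlgebra 𝔹]

/-- Pairing. -/
def pairN (x y : Name 𝔹) : Name 𝔹 := Name.mk (ULift Bool) (fun i => cond i.down x y) fun _ => ⊤

/-- Ordered pairs. -/
def opN (x y : Name 𝔹) : Name 𝔹 := pairN (pairN x x) (pairN x y)

/-- Insertion of an element. -/
def insN (a x : Name 𝔹) : Name 𝔹 :=
  Name.mk (Option x.idx) (fun i => i.elim a x.elt) fun i => i.elim ⊤ x.wt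

/-- The empty name. -/
def empN : Name 𝔹 := Name.mk PEmpty (fun i => i.elim) (fun i => i.elim)

/-- Natural numbers. -/
def natN : ℕ → Name 𝔹
  | 0 => empN
  | n + 1 => insN (natN n) (natN n)

/-- The name of `ω`. -/
def omegaN : Name 𝔹 := Name.mk (ULift ℕ) (fun n => natN n.down) fun _ => ⊤

/-- Union. -/
def unionN (x : Name 𝔹) : Name 𝔹 :=
  Name.mk (Σ i : x.idx, (x.elt i).idx) (fun p => (x.elt p.1).elt p.2)
    fun p => x.wt p.1 ⊓ (x.elt p.1).wt p.2

/-- Separation by a Boolean function. -/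
def sepN (x : Name 𝔹) (h : Name 𝔹 → 𝔹) : Name 𝔹 :=
  Name.mk x.idx x.elt fun i => x.wt i ⊓ h (x.elt i)

/-- A Boolean function on names that respects equality. -/
def Cong (h : Name 𝔹 → 𝔹) : Prop := ∀ a b : Name 𝔹, ∀ Γ, Γ ≤ beq a b → Γ ≤ h a → Γ ≤ h b

theorem cong_bmem (z : Name 𝔹) : Cong fun a => bmem a z := fun _ _ _ h h' => bmem_congr_left h h'

theorem cong_bv (D : Dom.{u, v} 𝔹) {n : ℕ} (φ : Fml (n + 1)) (p : Fin n → Name 𝔹) :
    Cong fun a => bv D φ (Fin.cons a p) := fun a b Γ h h' => by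
  refine bv_congr D φ (fun i => ?_) h'
  refine Fin.cases ?_ (fun i => ?_) i
  · simpa using h
  · simp

theorem le_bmem_sepN {x : Name 𝔹} {h : Name 𝔹 → 𝔹} (hh : Cong h) {w : Name 𝔹} {Γ : 𝔹} :
    Γ ≤ bmem w (sepN x h) ↔ Γ ≤ bmem w x ∧ Γ ≤ h w := by
  constructor
  · intro h1
    constructor
    · exact elim_bmem h1 fun j Δ _ hj e => le_bmem_of_le j (hj.trans inf_le_left) e
    · exact elim_bmem h1 fun j Δ _ hj e => hh _ _ _ (le_beq_symm e) (hj.trans inf_le_right)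
  · rintro ⟨h1, h2⟩
    exact elim_bmem h1 fun j Δ hΔ hj e =>
      le_bmem_of_le (y := sepN x h) j (le_inf hj (hh _ _ _ e (hΔ.trans h2))) e

theorem le_bmem_pairN {x y w : Name 𝔹} {Γ : 𝔹} :
    Γ ≤ bmem w (pairN x y) ↔ Γ ≤ beq w x ⊔ beq w y := by
  constructor
  · intro h
    refine elim_bmem h fun j Δ _ _ e => ?_
    obtain ⟨j⟩ := j
    cases j
    · exact e.trans le_sup_right
    · exact e.trans le_sup_left
  · intro h
    refine elim_sup h (fun Δ _ e => ?_) (fun Δ _ e => ?_)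
    · exact le_bmem_of_le (y := pairN x y) ⟨true⟩ le_top e
    · exact le_bmem_of_le (y := pairN x y) ⟨false⟩ le_top e

theorem bmem_unionN (x w : Name 𝔹) : bmem w (unionN x) = ⨆ i, x.wt i ⊓ bmem w (x.elt i) := by
  change (⨆ p : (Σ i : x.idx, (x.elt i).idx), (x.wt p.1 ⊓ (x.elt p.1).wt p.2) ⊓
    beq w ((x.elt p.1).elt p.2)) = _
  rw [iSup_sigma]
  simp only [bmem, inf_iSup_eq, inf_assoc]

/-! ### Pure names -/

/-- All weights are `⊤`, hereditarily. -/
def Pure : Name 𝔹 → Prop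
  | Name.mk _ A b => (∀ i, b i = ⊤) ∧ ∀ i, Pure (A i)

theorem pure_iff (x : Name 𝔹) : Pure x ↔ (∀ i, x.wt i = ⊤) ∧ ∀ i, Pure (x.elt i) := by
  cases x; rfl

theorem Pure.pairN {x y : Name 𝔹} (hx : Pure x) (hy : Pure y) : Pure (pairN x y) := by
  rw [pure_iff]
  refine ⟨fun _ => rfl, fun i => ?_⟩
  obtain ⟨i⟩ := i
  cases i
  · exact hy
  · exact hx

theorem Pure.opN {x y : Name 𝔹} (hx : Pure x) (hy : Pure y) : Pure (opN x y) :=
  (hx.pairN hx).pairN (hx.pairN hy)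

theorem Pure.insN {x y : Name 𝔹} (hx : Pure x) (hy : Pure y) : Pure (insN x y) := by
  rw [pure_iff]
  refine ⟨fun i => ?_, fun i => ?_⟩
  · cases i
    · rfl
    · exact ((pure_iff y).1 hy).1 _
  · cases i
    · exact hx
    · exact ((pure_iff y).1 hy).2 _

theorem pure_empN : Pure (empN : Name 𝔹) := by
  rw [pure_iff]; exact ⟨fun i => i.elim, fun i => i.elim⟩

theorem pure_natN (n : ℕ) : Pure (natN n : Name 𝔹) := by
  induction n with
  | zero => exact pure_empN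
  | succ n ih => exact ih.insN ih

theorem pure_omegaN : Pure (omegaN : Name 𝔹) := by
  rw [pure_iff]; exact ⟨fun _ => rfl, fun i => pure_natN _⟩

namespace SymSys

variable (S : SymSys 𝔹)

theorem am_pure {x : Name 𝔹} (h : Pure x) (g : S.G) : S.am g x = x := by
  induction x using ind with
  | h x ih =>
    rw [pure_iff] at h
    rw [am_eq]
    conv_rhs => rw [← Name.eta x]
    congr 1
    · exact funext fun i => ih i (h.2 i)
    · exact funext fun i => by rw [h.1 i]; exact (S.act g).map_top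

theorem fixed_pure {x : Name 𝔹} (h : Pure x) (H : Subgroup S.G) : S.Fixed H x :=
  fun g _ => by rw [S.am_pure h g, beq_refl]

theorem hs_pure {x : Name 𝔹} (h : Pure x) : S.HS x := by
  induction x using ind with
  | h x ih =>
    rw [hs_iff]
    exact ⟨⟨⊤, S.top_mem, S.fixed_pure h _⟩, fun i => ih i (((pure_iff x).1 h).2 i)⟩

theorem bsub_am (g : S.G) (x y : Name 𝔹) : bsub (S.am g x) (S.am g y) = S.act g (bsub x y) := by
  rw [S.am_eq g x]
  simp only [bsub, wt_mk, elt_mk, bmem_am, OrderIso.map_iInf, map_himp]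
  rfl

variable {S}

/-- To show that `y` is fixed by a group it suffices to show one inclusion. -/
theorem fixed_of_bsub {H : Subgroup S.G} {y : Name 𝔹} (h : ∀ g ∈ H, bsub (S.am g y) y = ⊤) :
    S.Fixed H y := by
  intro g hg
  rw [beq_eq_bsub, h g hg, top_inf_eq]
  have h1 := h g⁻¹ (H.inv_mem hg)
  have h2 : bsub y (S.am g y) = bsub (S.am g (S.am g⁻¹ y)) (S.am g y) := by
    rw [← am_mul, mul_inv_cancel, am_one]
  rw [h2, bsub_am, h1]
  exact (S.act g).map_top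

theorem hs_pairN {x y : Name 𝔹} (hx : S.HS x) (hy : S.HS y) : S.HS (pairN x y) := by
  rw [hs_iff]
  constructor
  · obtain ⟨H, hH, h1⟩ := hx.symm
    obtain ⟨K, hK, h2⟩ := hy.symm
    refine ⟨H ⊓ K, S.inf_mem H hH K hK, fixed_of_bsub fun g hg => ?_⟩
    refine top_le_iff.1 (le_bsub_iff.2 fun i Δ _ _ => ?_)
    obtain ⟨i⟩ := i
    rw [le_bmem_pairN]
    cases i
    · refine le_trans ?_ le_sup_right
      change Δ ≤ beq (S.am g y) y
      rw [h2 g hg.2]; exact le_top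
    · refine le_trans ?_ le_sup_left
      change Δ ≤ beq (S.am g x) x
      rw [h1 g hg.1]; exact le_top
  · intro i
    obtain ⟨i⟩ := i
    cases i
    · exact hy
    · exact hx

theorem hs_opN {x y : Name 𝔹} (hx : S.HS x) (hy : S.HS y) : S.HS (opN x y) :=
  hs_pairN (hs_pairN hx hx) (hs_pairN hx hy)

theorem hs_unionN {x : Name 𝔹} (hx : S.HS x) : S.HS (unionN x) := by
  rw [hs_iff]
  constructor
  · obtain ⟨H, hH, h1⟩ := hx.symm
    refine ⟨H, hH, fixed_of_bsub fun g hg => ?_⟩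
    refine top_le_iff.1 (le_bsub_iff.2 fun p Δ _ hp => ?_)
    obtain ⟨i, j⟩ := p
    change Δ ≤ S.act g (x.wt i ⊓ (x.elt i).wt j) at hp
    change Δ ≤ bmem (S.am g ((x.elt i).elt j)) (unionN x)
    rw [map_inf, le_inf_iff] at hp
    have h3 : Δ ≤ bmem (S.am g (x.elt i)) x := by
      refine bmem_congr_right (y := S.am g x) (h1 g hg ▸ le_top) ?_
      rw [bmem_am]
      exact hp.1.trans ((S.act g).monotone (le_bmem_elt i le_rfl))
    have h4 : Δ ≤ bmem (S.am g ((x.elt i).elt j)) (S.am g (x.elt i)) := by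
      rw [bmem_am]
      exact hp.2.trans ((S.act g).monotone (le_bmem_elt j le_rfl))
    refine elim_bmem h3 fun k Δ' hΔ hk e => ?_
    rw [bmem_unionN]
    exact intro_iSup k (le_inf hk (bmem_congr_right e (hΔ.trans h4)))
  · rintro ⟨i, j⟩
    exact (hx.elt i).elt j

theorem am_sepN (g : S.G) (x : Name 𝔹) (h h' : Name 𝔹 → 𝔹)
    (hh : ∀ a, S.act g (h a) = h' (S.am g a)) : S.am g (sepN x h) = sepN (S.am g x) h' := by
  rw [S.am_eq, S.am_eq g x]
  simp only [sepN, idx_mk, elt_mk, wt_mk, map_inf, hh]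

theorem hs_sepN {x : Name 𝔹} (hx : S.HS x) {h : Name 𝔹 → 𝔹} (hh : Cong h) {H : Subgroup S.G}
    (hH : H ∈ S.F) (hs : ∀ g ∈ H, ∀ a, S.act g (h a) = h (S.am g a)) : S.HS (sepN x h) := by
  rw [hs_iff]
  constructor
  · obtain ⟨K, hK, h1⟩ := hx.symm
    refine ⟨H ⊓ K, S.inf_mem H hH K hK, fixed_of_bsub fun g hg => ?_⟩
    rw [am_sepN g x h h (hs g hg.1)]
    refine top_le_iff.1 (le_bsub_of_forall fun w Δ _ hw => ?_)
    rw [le_bmem_sepN hh] at hw ⊢
    exact ⟨bmem_congr_right (h1 g hg.2 ▸ le_top) hw.1, hw.2⟩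
  · exact fun i => hx.elt i

theorem hs_sepN_bmem {x z : Name 𝔹} (hx : S.HS x) (hz : S.Symm z) :
    S.HS (sepN x fun a => bmem a z) := by
  obtain ⟨H, hH, h1⟩ := hz
  refine hs_sepN hx (cong_bmem z) hH fun g hg a => ?_
  rw [← bmem_am]
  exact bmem_eq_of_beq_top (h1 g hg) _

theorem exists_support {n : ℕ} {p : Fin n → Name 𝔹} (hp : ∀ i, S.Symm (p i)) :
    ∃ H ∈ S.F, ∀ i, S.Fixed H (p i) := by
  choose H hH h using hp
  exact ⟨⨅ i, H i, S.iInf_mem H hH, fun i => (h i).mono (iInf_le _ _)⟩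

theorem bval_cons_am {n : ℕ} {φ : Fml (n + 1)} {p : Fin n → Name 𝔹} {g : S.G}
    (hp : ∀ i, beq (S.am g (p i)) (p i) = ⊤) (a : Name 𝔹) :
    S.act g (S.bval φ (Fin.cons a p)) = S.bval φ (Fin.cons (S.am g a) p) := by
  rw [← bval_am]
  refine bv_congr_eq _ _ fun i => ?_
  refine Fin.cases ?_ (fun i => ?_) i
  · simp
  · simpa using hp i

theorem hs_sepN_bval {n : ℕ} {φ : Fml (n + 1)} {x : Name 𝔹} {p : Fin n → Name 𝔹} (hx : S.HS x)
    (hp : ∀ i, S.Symm (p i)) : S.HS (sepN x fun a => S.bval φ (Fin.cons a p)) := by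
  obtain ⟨H, hH, h1⟩ := exists_support hp
  exact hs_sepN hx (cong_bv _ φ p) hH fun g hg a => bval_cons_am (fun i => h1 i g hg) a

variable (S)

/-- Power set. -/
def powN (x : Name 𝔹) : Name 𝔹 :=
  Name.mk {f : x.idx → 𝔹 // S.HS (Name.mk x.idx x.elt f)} (fun f => Name.mk x.idx x.elt f.1)
    fun f => bsub (Name.mk x.idx x.elt f.1) x

variable {S}

theorem le_bmem_powN {x z : Name 𝔹} (hx : S.HS x) (hz : S.Symm z) {Γ : 𝔹} (h : Γ ≤ bsub z x) :
    Γ ≤ bmem z (S.powN x) := by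
  have h1 := hs_sepN_bmem hx hz
  refine le_bmem_of_le (y := S.powN x)
    ⟨fun i => x.wt i ⊓ bmem (x.elt i) z, h1⟩ ?_ ?_
  · change Γ ≤ bsub (sepN x fun a => bmem a z) x
    exact le_bsub_of_forall fun w Δ _ hw => ((le_bmem_sepN (cong_bmem z)).1 hw).1
  · change Γ ≤ beq z (sepN x fun a => bmem a z)
    refine le_beq_of_forall fun w Δ hΔ => ?_
    rw [le_bmem_sepN (cong_bmem z)]
    exact ⟨fun hw => ⟨bmem_of_bsub (hΔ.trans h) hw, hw⟩, fun hw => hw.2⟩

theorem bsub_of_bmem_powN {x z : Name 𝔹} {Γ : 𝔹} (h : Γ ≤ bmem z (S.powN x)) : Γ ≤ bsub z x := by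
  refine elim_bmem h fun f Δ _ hf e => ?_
  exact le_bsub_of_forall fun w Δ' hΔ' hw => bmem_of_bsub (hΔ'.trans hf)
    (bmem_congr_right (hΔ'.trans e) hw)

theorem hs_powN {x : Name 𝔹} (hx : S.HS x) : S.HS (S.powN x) := by
  rw [hs_iff]
  constructor
  · obtain ⟨H, hH, h1⟩ := hx.symm
    refine ⟨H, hH, fixed_of_bsub fun g hg => ?_⟩
    refine top_le_iff.1 (le_bsub_iff.2 fun f Δ _ hf => ?_)
    have hf' : S.HS (Name.mk x.idx x.elt f.1) := f.2
    refine le_bmem_powN hx (Symm.am S hf'.symm g) ?_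
    have h2 : Δ ≤ bsub (S.am g (Name.mk x.idx x.elt f.1)) (S.am g x) := by
      rw [bsub_am]; exact hf
    exact le_bsub_of_forall fun w Δ' hΔ' hw =>
      bmem_congr_right (h1 g hg ▸ le_top) (bmem_of_bsub (hΔ'.trans h2) hw)
  · exact fun f => f.2

/-! ### Collection -/

variable (S)

open Classical in
/-- For each element of `x` and each Boolean value `c`, a symmetric name `y` with `h x_i y = c`. -/
noncomputable def collW (x : Name 𝔹) (h : Name 𝔹 → Name 𝔹 → 𝔹) (i : x.idx) (c : 𝔹) : Name 𝔹 :=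
  if H : ∃ y, S.HS y ∧ h (x.elt i) y = c then H.choose else empN

/-- Collection. -/
noncomputable def collN (x : Name 𝔹) (h : Name 𝔹 → Name 𝔹 → 𝔹) : Name 𝔹 :=
  Name.mk (S.G × x.idx × 𝔹) (fun p => S.am p.1 (S.collW x h p.2.1 p.2.2)) fun _ => ⊤

variable {S}

theorem hs_collW (x : Name 𝔹) (h : Name 𝔹 → Name 𝔹 → 𝔹) (i : x.idx) (c : 𝔹) :
    S.HS (S.collW x h i c) := by
  unfold collW
  split
  · rename_i H; exact H.choose_spec.1
  · exact S.hs_pure pure_empN

theorem hs_collN (x : Name 𝔹) (h : Name 𝔹 → Name 𝔹 → 𝔹) : S.HS (S.collN x h) := by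
  rw [hs_iff]
  constructor
  · refine ⟨⊤, S.top_mem, fixed_of_bsub fun g _ => ?_⟩
    refine top_le_iff.1 (le_bsub_iff.2 fun p Δ _ _ => ?_)
    refine le_bmem_of_le (y := S.collN x h) (g * p.1, p.2) le_top ?_
    change Δ ≤ beq (S.am g (S.am p.1 (S.collW x h p.2.1 p.2.2)))
      (S.am (g * p.1) (S.collW x h p.2.1 p.2.2))
    rw [am_mul, beq_refl]; exact le_top
  · exact fun p => HS.am S _ _ (hs_collW _ _ _ _)

theorem exists_collN (x : Name 𝔹) (h : Name 𝔹 → Name 𝔹 → 𝔹) (i : x.idx) {y : Name 𝔹}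
    (hy : S.HS y) : ∃ j : (S.collN x h).idx, h (x.elt i) y = h (x.elt i) ((S.collN x h).elt j) := by
  refine ⟨(1, i, h (x.elt i) y), ?_⟩
  change _ = h (x.elt i) (S.am 1 (S.collW x h i (h (x.elt i) y)))
  rw [am_one, collW]
  have H : ∃ y', S.HS y' ∧ h (x.elt i) y' = h (x.elt i) y := ⟨y, hy, rfl⟩
  rw [dif_pos H]
  exact H.choose_spec.2.symm

end SymSys

end SymExt
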