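import Pool.Agent.Lib.MP_694cb9_lc.Model

/-!
# Names for ordinals and names for the constructible hierarchy over a real
-/

namespace SymExt

universe u v w

open Name

variable {𝔹 : Type u} [CompleteBooleanAlgebra 𝔹]

/-- The canonical name of an ordinal. -/
noncomputable def ordN (o : Ordinal.{u}) : Name 𝔹 :=
  Name.mk o.ToType (fun i => ordN i.toOrd.1) fun _ => ⊤
termination_by o
decreasing_by exact i.toOrd.prop

theorem pure_ordN (o : Ordinal.{u}) : Pure (ordN o : Name 𝔹) := by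
  induction o using WellFoundedLT.induction with
  | ind o ih =>
    rw [ordN, pure_iff]
    exact ⟨fun _ => rfl, fun i => ih _ i.toOrd.prop⟩

/-- The rank of a name. -/
noncomputable def nrank : Name 𝔹 → Ordinal.{u}
  | Name.mk _ A _ => ⨆ i, Order.succ (nrank (A i))

omit [CompleteBooleanAlgebra 𝔹] in
theorem nrank_elt_lt (x : Name 𝔹) (i : x.idx) : nrank (x.elt i) < nrank x := by
  cases x with
  | mk ι A b =>
    change nrank (A i) < ⨆ i, Order.succ (nrank (A i))
    exact (Order.lt_succ _).trans_le (Ordinal.le_iSup (fun i => Order.succ (nrank (A i))) i)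

variable {C : Set (Name 𝔹)} {U : Set 𝔹}

theorem mem_val_ordN (htop : ⊤ ∈ U) {o : Ordinal.{u}} {z : ZFSet.{u}} :
    z ∈ val C U (ordN o : Name 𝔹) ↔ ∃ a < o, ordN a ∈ C ∧ z = val C U (ordN a) := by
  rw [ordN, mem_val]
  constructor
  · rintro ⟨i, h1, _, h2⟩
    exact ⟨i.toOrd.1, i.toOrd.prop, h1, h2⟩
  · rintro ⟨a, ha, h1, h2⟩
    refine ⟨Ordinal.ToType.mk ⟨a, ha⟩, ?_, htop, ?_⟩
    · change ordN (Ordinal.ToType.mk ⟨a, ha⟩).toOrd.1 ∈ C
      simpa using h1
    · change z = val C U (ordN (Ordinal.ToType.mk ⟨a, ha⟩).toOrd.1)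
      simpa using h2

theorem val_ordN_mem (htop : ⊤ ∈ U) {a b : Ordinal.{u}} (h : a < b) (ha : (ordN a : Name 𝔹) ∈ C) :
    val C U (ordN a : Name 𝔹) ∈ val C U (ordN b) :=
  (mem_val_ordN htop).2 ⟨a, h, ha, rfl⟩

theorem val_ordN_subset (htop : ⊤ ∈ U) {a b : Ordinal.{u}} (h : a ≤ b) :
    val C U (ordN a : Name 𝔹) ⊆ val C U (ordN b) := by
  intro z hz
  obtain ⟨c, hc, h1, h2⟩ := (mem_val_ordN htop).1 hz
  exact (mem_val_ordN htop).2 ⟨c, hc.trans_le h, h1, h2⟩

theorem val_ordN_inj (htop : ⊤ ∈ U) {a b : Ordinal.{u}} (ha : (ordN a : Name 𝔹) ∈ C)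
    (hb : (ordN b : Name 𝔹) ∈ C) (h : val C U (ordN a : Name 𝔹) = val C U (ordN b)) : a = b := by
  rcases lt_trichotomy a b with h' | h' | h'
  · have := val_ordN_mem htop h' ha
    rw [h] at this
    exact absurd this (ZFSet.mem_irrefl _)
  · exact h'
  · have := val_ordN_mem htop h' hb
    rw [h] at this
    exact absurd this (ZFSet.mem_irrefl _)

theorem isOrdinal_val_ordN (htop : ⊤ ∈ U) (o : Ordinal.{u}) :
    (val C U (ordN o : Name 𝔹)).IsOrdinal := by
  have key : ∀ o : Ordinal.{u}, (val C U (ordN o : Name 𝔹)).IsTransitive := by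
    intro o y hy z hz
    obtain ⟨a, ha, _, rfl⟩ := (mem_val_ordN htop).1 hy
    obtain ⟨b, hb, hb', rfl⟩ := (mem_val_ordN htop).1 hz
    exact val_ordN_mem htop (hb.trans ha) hb'
  rw [ZFSet.isOrdinal_iff_forall_mem_isTransitive]
  refine ⟨key o, fun y hy => ?_⟩
  obtain ⟨a, _, _, rfl⟩ := (mem_val_ordN htop).1 hy
  exact key a

/-- Every ordinal of the model is bounded by the value of a canonical name. -/
theorem subset_val_ordN (htop : ⊤ ∈ U) (hcl : ∀ x ∈ C, ordN (nrank x) ∈ C) (x : Name 𝔹) :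
    x ∈ C → (val C U x).IsOrdinal → val C U x ⊆ val C U (ordN (nrank x)) := by
  induction x using ind with
  | h x ih =>
    intro hx ho z hz
    obtain ⟨i, h1, _, rfl⟩ := mem_val.1 hz
    have h2 := ho.mem hz
    have h3 := ih i h1 h2
    have h4 := val_ordN_mem (C := C) htop (nrank_elt_lt x i) (hcl _ h1)
    have h5 := isOrdinal_val_ordN (C := C) (𝔹 := 𝔹) htop (nrank (x.elt i))
    rcases (h2.subset_iff_eq_or_mem h5).1 h3 with h6 | h6
    · rw [h6]; exact h4
    · exact (isOrdinal_val_ordN (C := C) htop _).mem_trans h6 h4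

/-! ### Hereditarily fixed names -/

/-- All weights are fixed by the subgroup `H`, hereditarily. -/
def HFix (S : SymSys 𝔹) (H : Subgroup S.G) : Name 𝔹 → Prop
  | Name.mk _ A b => (∀ i, ∀ g ∈ H, S.act g (b i) = b i) ∧ ∀ i, HFix S H (A i)

variable {S : SymSys 𝔹} {H : Subgroup S.G}

theorem hfix_iff (x : Name 𝔹) : HFix S H x ↔
    (∀ i, ∀ g ∈ H, S.act g (x.wt i) = x.wt i) ∧ ∀ i, HFix S H (x.elt i) := by
  cases x; rfl

theorem HFix.am {x : Name 𝔹} (h : HFix S H x) {g : S.G} (hg : g ∈ H) : S.am g x = x := by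
  induction x using ind with
  | h x ih =>
    rw [hfix_iff] at h
    rw [S.am_eq]
    conv_rhs => rw [← Name.eta x]
    congr 1
    · exact funext fun i => ih i (h.2 i)
    · exact funext fun i => h.1 i g hg

theorem HFix.fixed {x : Name 𝔹} (h : HFix S H x) : S.Fixed H x := fun g hg => by
  rw [h.am hg, beq_refl]

theorem HFix.of_pure {x : Name 𝔹} (h : Pure x) : HFix S H x := by
  induction x using ind with
  | h x ih =>
    rw [pure_iff] at h
    rw [hfix_iff]
    exact ⟨fun i g _ => by rw [h.1 i]; exact (S.act g).map_top, fun i => ih i (h.2 i)⟩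

theorem HFix.act_bmem {x y : Name 𝔹} (hx : HFix S H x) (hy : HFix S H y) {g : S.G} (hg : g ∈ H) :
    S.act g (bmem x y) = bmem x y :=
  SymSys.Fixed.bmem (hx.fixed g hg) (hy.fixed g hg)

theorem HFix.act_bv {A : Name 𝔹} (hA : HFix S H A) {g : S.G} (hg : g ∈ H) {n : ℕ} (φ : Fml n)
    {v : Fin n → Name 𝔹} (hv : ∀ i, HFix S H (v i)) :
    S.act g (bv A.dom φ v) = bv A.dom φ v := by
  have h1 := bv_map (S.act g) A.dom φ v
  have h2 : A.dom.map (S.act g) = A.dom := by
    rw [hfix_iff] at hA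
    change (⟨A.idx, fun i => S.am g (A.elt i), fun i => S.act g (A.wt i)⟩ : Dom.{u, u} 𝔹) =
      ⟨A.idx, A.elt, A.wt⟩
    congr 1
    · exact funext fun i => (hA.2 i).am hg
    · exact funext fun i => hA.1 i g hg
  have h3 : (fun i => Name.map (S.act g) (v i)) = v := funext fun i => (hv i).am hg
  rw [h2, h3] at h1
  exact h1.symm

/-- The name of a definable subset. -/
def rsepN (A : Name 𝔹) {n : ℕ} (φ : Fml (n + 1)) (p : Fin n → Name 𝔹) : Name 𝔹 :=
  sepN A fun a => bv A.dom φ (Fin.cons a p)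

/-- Indices of definable subsets. -/
abbrev DefI (A : Name 𝔹) : Type u := Σ n : ℕ, Fml (n + 1) × (Fin n → A.idx)

/-- The names of the definable subsets. -/
def DefI.elt {A : Name 𝔹} (j : DefI A) : Name 𝔹 := rsepN A j.2.1 fun l => A.elt (j.2.2 l)

/-- The weights of the definable subsets: the parameters must be elements. -/
def DefI.wt {A : Name 𝔹} (j : DefI A) : 𝔹 := ⨅ l, A.wt (j.2.2 l)

/-- The name of the constructible level. -/
def LN (X : Name 𝔹) : Name 𝔹 → Name 𝔹
  | Name.mk ι A b => Name.mk (ULift.{u} ℕ ⊕ PUnit.{u + 1} ⊕ Σ i : ι, DefI (LN X (A i)))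
      (Sum.elim (fun n => natN n.down) (Sum.elim (fun _ => X) fun j => j.2.elt))
      (Sum.elim (fun _ => ⊤) (Sum.elim (fun _ => ⊤) fun j => b j.1 ⊓ j.2.wt))

/-- The index type of `LN`. -/
abbrev LNI (X a : Name 𝔹) : Type u := ULift.{u} ℕ ⊕ PUnit.{u + 1} ⊕ Σ i : a.idx, DefI (LN X (a.elt i))

theorem LN_eq (X a : Name 𝔹) : LN X a = Name.mk (LNI X a)
      (Sum.elim (fun n => natN n.down) (Sum.elim (fun _ => X) fun j => j.2.elt))
      (Sum.elim (fun _ => ⊤) (Sum.elim (fun _ => ⊤) fun j => a.wt j.1 ⊓ j.2.wt)) := by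
  cases a; rfl

theorem hfix_rsepN {A : Name 𝔹} (hA : HFix S H A) {n : ℕ} (φ : Fml (n + 1))
    {p : Fin n → Name 𝔹} (hp : ∀ i, HFix S H (p i)) : HFix S H (rsepN A φ p) := by
  have hA' := (hfix_iff A).1 hA
  rw [hfix_iff]
  refine ⟨fun i g hg => ?_, fun i => hA'.2 i⟩
  change S.act g (A.wt i ⊓ bv A.dom φ (Fin.cons (A.elt i) p)) = _
  rw [map_inf, hA'.1 i g hg, HFix.act_bv hA hg φ (forall_cons (hA'.2 i) hp)]
  rfl

theorem hfix_LN {X : Name 𝔹} (hX : HFix S H X) (a : Name 𝔹) (ha : HFix S H a) :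
    HFix S H (LN X a) := by
  induction a using ind with
  | h a ih =>
    have ha' := (hfix_iff a).1 ha
    have ih' := fun i => ih i (ha'.2 i)
    rw [LN_eq, hfix_iff]
    constructor
    · rintro (n | _ | ⟨i, j⟩) g hg
      · exact (S.act g).map_top
      · exact (S.act g).map_top
      · change S.act g (a.wt i ⊓ ⨅ l, (LN X (a.elt i)).wt (j.2.2 l)) = _
        rw [map_inf, ha'.1 i g hg, OrderIso.map_iInf]
        have : (fun l => S.act g ((LN X (a.elt i)).wt (j.2.2 l))) =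
            fun l => (LN X (a.elt i)).wt (j.2.2 l) :=
          funext fun l => ((hfix_iff _).1 (ih' i)).1 _ g hg
        rw [this]
        rfl
    · rintro (n | _ | ⟨i, j⟩)
      · exact HFix.of_pure (pure_natN _)
      · exact hX
      · exact hfix_rsepN (ih' i) _ fun l => ((hfix_iff _).1 (ih' i)).2 _

/-- The closure and genericity properties needed for the constructible hierarchy. -/
structure GoodL (C : Set (Name 𝔹)) (U : Set 𝔹) : Prop where
  ln : ∀ X ∈ C, ∀ a ∈ C, LN X a ∈ C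
  rsep : ∀ A ∈ C, ∀ (n : ℕ) (φ : Fml (n + 1)) (p : Fin n → Name 𝔹), (∀ i, p i ∈ C) →
    rsepN A φ p ∈ C
  imp : ∀ X ∈ C, ∀ a ∈ C, ∀ w ∈ C, Met C U (fam
    (fun j : (Σ i : a.idx, DefI (LN X (a.elt i))) =>
      (a.wt j.1 ⊓ j.2.wt) ⊓ beq w j.2.elt)
    fun j => a.elt j.1 :: j.2.elt :: List.ofFn fun l => (LN X (a.elt j.1)).elt (j.2.2.2 l))

theorem val_rsepN (h : Good S C U) {A : Name 𝔹} (hA : A ∈ C) {n : ℕ} (φ : Fml (n + 1))
    {p : Fin n → Name 𝔹} (hp : ∀ i, p i ∈ C) {y : ZFSet.{u}} (hy : y ∈ val C U A) :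
    y ∈ val C U (rsepN A φ p) ↔
    Sat {z | z ∈ val C U A} φ (Fin.cons y fun i => val C U (p i)) := by
  constructor
  · intro hy'
    obtain ⟨i, h1, h2, rfl⟩ := mem_val.1 hy'
    have h3 := (h.inf_iff).1 h2
    change Sat _ φ (Fin.cons (val C U (A.elt i)) _)
    rw [← val_cons]
    exact (h.rtruth hA φ _ (forall_cons h1 hp)).2 h3.2
  · intro hs
    obtain ⟨i, h1, h2, rfl⟩ := mem_val.1 hy
    rw [← val_cons] at hs
    exact mem_val.2 ⟨i, h1, h.inf _ h2 _ ((h.rtruth hA φ _ (forall_cons h1 hp)).1 hs), rfl⟩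

theorem val_LN (h : Good S C U) (hL : GoodL C U) {X : Name 𝔹} (hX : X ∈ C) (a : Name 𝔹) :
    a ∈ C → val C U (LN X a) = LRel (val C U X) (val C U a) := by
  induction a using ind with
  | h a ih =>
    intro ha
    have hLa := hL.ln X hX a ha
    rw [LRel]
    ext z
    rw [ZFSet.mem_union, ZFSet.mem_union, ZFSet.mem_singleton, mem_omega_iff, ZFSet.mem_iUnion]
    constructor
    · intro hz
      have hz' := hz
      rw [LN_eq] at hz
      obtain ⟨j0, h1, h2, rfl⟩ := mem_val.1 hz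
      rcases j0 with n | _ | j
      · exact Or.inl (Or.inl ⟨n.down, h.val_natN _⟩)
      · exact Or.inl (Or.inr rfl)
      · right
        change j.2.elt ∈ C at h1
        change a.wt j.1 ⊓ j.2.wt ∈ U at h2
        change ∃ i, val C U j.2.elt ∈ _
        have h3 : (⨆ j' : (Σ i : a.idx, DefI (LN X (a.elt i))),
            (a.wt j'.1 ⊓ j'.2.wt) ⊓ beq j.2.elt j'.2.elt) ∈ U := by
          refine h.up _ h2 _ (le_trans ?_ (le_iSup _ j))
          rw [beq_refl, inf_top_eq]
        obtain ⟨⟨i, n, φ, p⟩, h4, h5⟩ := (hL.imp X hX a ha _ h1).wit h3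
        have hi : a.elt i ∈ C := h5 _ List.mem_cons_self
        have he : DefI.elt (A := LN X (a.elt i)) ⟨n, φ, p⟩ ∈ C :=
          h5 _ (List.mem_cons_of_mem _ List.mem_cons_self)
        have hp : ∀ l, (LN X (a.elt i)).elt (p l) ∈ C := fun l =>
          h5 _ (List.mem_cons_of_mem _ (List.mem_cons_of_mem _ (List.mem_ofFn.2 ⟨l, rfl⟩)))
        rw [h.inf_iff, h.inf_iff] at h4
        obtain ⟨⟨h6, h7⟩, h8⟩ := h4
        have hA : LN X (a.elt i) ∈ C := hL.ln X hX _ hi
        have hv := (h.beq_iff _ _ h1 he).1 h8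
        change val C U j.2.elt = val C U (rsepN (LN X (a.elt i)) φ
          fun l => (LN X (a.elt i)).elt (p l)) at hv
        refine ⟨⟨val C U (a.elt i), mem_val.2 ⟨i, hi, h6, rfl⟩⟩, ?_⟩
        rw [hv]
        change _ ∈ DefSet (LRel (val C U X) (val C U (a.elt i)))
        rw [← ih i hi, DefSet, ZFSet.mem_sep, ZFSet.mem_powerset]
        constructor
        · intro y hy
          obtain ⟨k, k1, k2, rfl⟩ := mem_val.1 hy
          exact mem_val.2 ⟨k, k1, ((h.inf_iff).1 k2).1, rfl⟩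
        · refine ⟨n, φ, fun l => val C U ((LN X (a.elt i)).elt (p l)), fun l => ?_, fun y hy =>
            val_rsepN h hA φ hp hy⟩
          exact mem_val.2 ⟨p l, hp l, h.up _ h7 _ (iInf_le _ l), rfl⟩
    · rintro ((⟨n, rfl⟩ | rfl) | ⟨⟨c, hc⟩, hz⟩)
      · rw [LN_eq]
        exact mem_val.2 ⟨Sum.inl ⟨n⟩, h.nat n, h.top, (h.val_natN n).symm⟩
      · rw [LN_eq]
        exact mem_val.2 ⟨Sum.inr (Sum.inl PUnit.unit), hX, h.top, rfl⟩
      · obtain ⟨i, hi, hi', rfl⟩ := mem_val.1 hc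
        have hA : LN X (a.elt i) ∈ C := hL.ln X hX _ hi
        change z ∈ DefSet (LRel (val C U X) (val C U (a.elt i))) at hz
        rw [← ih i hi, DefSet, ZFSet.mem_sep, ZFSet.mem_powerset] at hz
        obtain ⟨hz1, n, φ, p, hp, hz2⟩ := hz
        have hp' : ∀ l, ∃ k, (LN X (a.elt i)).elt k ∈ C ∧ (LN X (a.elt i)).wt k ∈ U ∧
            p l = val C U ((LN X (a.elt i)).elt k) := fun l => mem_val.1 (hp l)
        choose q hq1 hq2 hq3 using hp'
        have e1 : p = fun l => val C U ((LN X (a.elt i)).elt (q l)) := funext hq3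
        have hr : rsepN (LN X (a.elt i)) φ (fun l => (LN X (a.elt i)).elt (q l)) ∈ C :=
          hL.rsep _ hA n φ _ hq1
        have hwt : (⨅ l, (LN X (a.elt i)).wt (q l)) ∈ U := by
          have key : ∀ s : Finset (Fin n), (⨅ l ∈ s, (LN X (a.elt i)).wt (q l)) ∈ U := by
            classical
            intro s
            induction s using Finset.induction_on with
            | empty => simpa using h.top
            | insert b s hb ih =>
              rw [Finset.iInf_insert]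
              exact h.inf _ (hq2 b) _ ih
          simpa using key Finset.univ
        rw [LN_eq]
        refine mem_val.2 ⟨Sum.inr (Sum.inr ⟨i, n, φ, q⟩), hr, h.inf _ hi' _ hwt, ?_⟩
        change z = val C U (rsepN (LN X (a.elt i)) φ (fun l => (LN X (a.elt i)).elt (q l)))
        ext y
        constructor
        · intro hy
          rw [val_rsepN h hA φ hq1 (hz1 hy), ← e1]
          exact (hz2 y (hz1 hy)).1 hy
        · intro hy
          have hy' : y ∈ val C U (LN X (a.elt i)) := by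
            obtain ⟨k, k1, k2, rfl⟩ := mem_val.1 hy
            exact mem_val.2 ⟨k, k1, ((h.inf_iff).1 k2).1, rfl⟩
          rw [val_rsepN h hA φ hq1 hy', ← e1] at hy
          exact (hz2 y hy').2 hy

end SymExt
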