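import Mathlib

/-!
# The complete Boolean algebra of a preorder
-/

namespace SymExt

universe u v w

open Heyting Heyting.Regular

/-- Regular elements of a frame form a complete Boolean algebra. -/
noncomputable instance regularCBA {α : Type u} [Order.Frame α] :
    CompleteBooleanAlgebra (Regular α) :=
  { (inferInstance : BooleanAlgebra (Regular α)) with
    sSup := fun s => toRegular (sSup ((↑) '' s))
    sInf := fun s => toRegular (sInf ((↑) '' s))
    isLUB_sSup := fun s => by
      constructor
      · intro b hb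
        have h : (b : α) ≤ sSup ((↑) '' s) := le_sSup ⟨b, hb, rfl⟩
        have := toRegular.monotone h
        rwa [toRegular_coe] at this
      · intro c hc
        have h : sSup ((↑) '' s) ≤ (c : α) := by
          refine sSup_le ?_
          rintro _ ⟨b, hb, rfl⟩
          exact coe_le_coe.2 (hc hb)
        have := toRegular.monotone h
        rwa [toRegular_coe] at this
    isGLB_sInf := fun s => by
      constructor
      · intro b hb
        have h : sInf ((↑) '' s) ≤ (b : α) := sInf_le ⟨b, hb, rfl⟩
        have := toRegular.monotone h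
        rwa [toRegular_coe] at this
      · intro c hc
        have h : (c : α) ≤ sInf ((↑) '' s) := by
          refine le_sInf ?_
          rintro _ ⟨b, hb, rfl⟩
          exact coe_le_coe.2 (hc hb)
        have := toRegular.monotone h
        rwa [toRegular_coe] at this }

/-- The complete Boolean algebra of a preorder. -/
abbrev RO' (P : Type u) [Preorder P] : Type u := Regular (LowerSet P)

/-- A dense map from a preorder to a complete Boolean algebra. -/
structure DenseMap {P : Type u} [Preorder P] {𝔹 : Type v} [CompleteBooleanAlgebra 𝔹]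
    (e : P → 𝔹) : Prop where
  mono : ∀ p q, p ≤ q → e p ≤ e q
  ne_bot : ∀ p, e p ≠ ⊥
  dense : ∀ b, b ≠ ⊥ → ∃ p, e p ≤ b
  compat : ∀ p q, e p ⊓ e q ≠ ⊥ → ∃ r, r ≤ p ∧ r ≤ q

namespace RO'

variable {P : Type u} [Preorder P]

/-- The canonical map. -/
noncomputable def e (p : P) : RO' P := toRegular (LowerSet.Iic p)

theorem toRegular_eq_bot {x : LowerSet P} (h : (toRegular x : RO' P) = ⊥) : x = ⊥ := by
  have h1 : ((toRegular x : RO' P) : LowerSet P) = ⊥ := by rw [h]; rfl
  rw [coe_toRegular] at h1
  exact le_bot_iff.1 (le_compl_compl.trans h1.le)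

theorem dense_e : DenseMap (e : P → RO' P) where
  mono := fun p q h => toRegular.monotone (LowerSet.Iic_le.2 h)
  ne_bot := fun p h => by
    have h1 := toRegular_eq_bot h
    have h2 : p ∈ LowerSet.Iic p := LowerSet.mem_Iic_iff.2 le_rfl
    rw [h1] at h2
    exact LowerSet.notMem_bot h2
  dense := fun b hb => by
    have h1 : (b : LowerSet P) ≠ ⊥ := fun h => hb (coe_injective (by rw [h]; rfl))
    have h2 : ∃ p, p ∈ (b : LowerSet P) := by
      by_contra hcon
      push Not at hcon
      apply h1
      ext p
      exact ⟨fun h => absurd h (hcon p), fun h => absurd h LowerSet.notMem_bot⟩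
    obtain ⟨p, hp⟩ := h2
    refine ⟨p, ?_⟩
    have h3 : LowerSet.Iic p ≤ (b : LowerSet P) := LowerSet.Iic_le.2 hp
    have := toRegular.monotone h3
    rwa [toRegular_coe] at this
  compat := fun p q h => by
    by_contra hcon
    push Not at hcon
    apply h
    have h1 : LowerSet.Iic p ⊓ LowerSet.Iic q = (⊥ : LowerSet P) := by
      ext r
      constructor
      · intro hr
        exact absurd hr.2 (hcon r hr.1)
      · intro hr
        exact absurd hr LowerSet.notMem_bot
    apply coe_injective
    change (e p).val ⊓ (e q).val = ⊥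
    rw [e, e, coe_toRegular, coe_toRegular, ← compl_compl_inf_distrib, h1]
    simp

/-- The automorphism of the Boolean algebra given by an automorphism of the preorder. -/
noncomputable def lift (f : P ≃o P) : RO' P ≃o RO' P where
  toFun := fun a => ⟨LowerSet.map f a.val, by
    have h := a.prop
    rw [Heyting.IsRegular] at h ⊢
    rw [← map_compl, ← map_compl, h]⟩
  invFun := fun a => ⟨(LowerSet.map f).symm a.val, by
    have h := a.prop
    rw [Heyting.IsRegular] at h ⊢
    rw [← map_compl, ← map_compl, h]⟩
  left_inv := fun a => coe_injective (by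
    exact (LowerSet.map f).symm_apply_apply a.val)
  right_inv := fun a => coe_injective (by
    exact (LowerSet.map f).apply_symm_apply a.val)
  map_rel_iff' := fun {a b} => by
    rw [← coe_le_coe, ← coe_le_coe]
    exact (LowerSet.map f).le_iff_le

theorem coe_lift (f : P ≃o P) (a : RO' P) : (lift f a).val = LowerSet.map f a.val := rfl

theorem lift_e (f : P ≃o P) (p : P) : lift f (e p) = e (f p) := by
  apply coe_injective
  rw [coe_lift, e, e, coe_toRegular, coe_toRegular, map_compl, map_compl, LowerSet.map_Iic]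

theorem lift_mul (f g : P ≃o P) : lift (f * g) = lift f * lift g := by
  ext a
  apply coe_injective
  change LowerSet.map (f * g) a.val = LowerSet.map f (LowerSet.map g a.val)
  rw [LowerSet.map_map]
  rfl

end RO'

/-- The complete Boolean algebra of a preorder (regular open sets of the order topology). -/
def RO (P : Type u) [Preorder P] : Type u := RO' P

noncomputable instance {P : Type u} [Preorder P] : CompleteBooleanAlgebra (RO P) :=
  inferInstanceAs (CompleteBooleanAlgebra (RO' P))

namespace RO

variable {P : Type u} [Preorder P]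

/-- The canonical dense map. -/
noncomputable def e (p : P) : RO P := RO'.e p

theorem dense_e : DenseMap (e : P → RO P) := RO'.dense_e

/-- The automorphism of the Boolean algebra given by an automorphism of the preorder. -/
noncomputable def lift (f : P ≃o P) : RO P ≃o RO P := RO'.lift f

theorem lift_e (f : P ≃o P) (p : P) : lift f (e p) = e (f p) := RO'.lift_e f p

theorem lift_mul (f g : P ≃o P) : lift (f * g) = lift f * lift g := RO'.lift_mul f g

theorem lift_one : lift (1 : P ≃o P) = 1 := by
  ext a
  apply coe_injective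
  change LowerSet.map (OrderIso.refl _) a.val = a.val
  rw [LowerSet.map_refl]
  rfl

end RO

namespace DenseMap

variable {P : Type u} [Preorder P] {𝔹 : Type v} [CompleteBooleanAlgebra 𝔹] {e : P → 𝔹}
  (h : DenseMap e)
include h

theorem exists_le_inf {p : P} {b : 𝔹} (hb : e p ⊓ b ≠ ⊥) : ∃ q ≤ p, e q ≤ b := by
  obtain ⟨r, hr⟩ := h.dense _ hb
  have h1 : e r ⊓ e p ≠ ⊥ := by
    rw [inf_eq_left.2 (hr.trans inf_le_left)]
    exact h.ne_bot r
  obtain ⟨q, hq1, hq2⟩ := h.compat _ _ h1
  exact ⟨q, hq2, (h.mono _ _ hq1).trans (hr.trans inf_le_right)⟩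

theorem exists_compl {p : P} {b : 𝔹} (hb : ¬ e p ≤ b) : ∃ q ≤ p, e q ≤ bᶜ := by
  refine h.exists_le_inf fun h' => hb ?_
  rw [← disjoint_iff, disjoint_compl_right_iff] at h'
  exact h'

theorem exists_iSup {ι : Sort w} {p : P} {f : ι → 𝔹} (hp : e p ≤ ⨆ i, f i) :
    ∃ q ≤ p, ∃ i, e q ≤ f i := by
  have : ∃ i, e p ⊓ f i ≠ ⊥ := by
    by_contra hcon
    push Not at hcon
    have h1 : e p ⊓ ⨆ i, f i = ⊥ := by
      rw [inf_iSup_eq]
      simp [hcon]
    rw [inf_eq_left.2 hp] at h1
    exact h.ne_bot p h1
  obtain ⟨i, hi⟩ := this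
  obtain ⟨q, hq, hq'⟩ := h.exists_le_inf hi
  exact ⟨q, hq, i, hq'⟩

theorem not_both {p : P} {b : 𝔹} (h1 : e p ≤ b) (h2 : e p ≤ bᶜ) : False :=
  h.ne_bot p (le_bot_iff.1 ((le_inf h1 h2).trans inf_compl_eq_bot.le))

theorem le_of_dense {p : P} {b : 𝔹} (hd : ∀ q ≤ p, ∃ r ≤ q, e r ≤ b) : e p ≤ b := by
  by_contra hcon
  obtain ⟨q, hq, hq'⟩ := h.exists_compl hcon
  obtain ⟨r, hr, hr'⟩ := hd q hq
  exact h.not_both hr' ((h.mono _ _ hr).trans hq')

theorem eq_top_of_dense {b : 𝔹} (hd : ∀ q, ∃ r ≤ q, e r ≤ b) : b = ⊤ := by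
  by_contra hcon
  have h1 : bᶜ ≠ ⊥ := fun h' => hcon (compl_eq_bot.1 h')
  obtain ⟨p, hp⟩ := h.dense _ h1
  obtain ⟨r, hr, hr'⟩ := hd p
  exact h.not_both hr' ((h.mono _ _ hr).trans hp)

end DenseMap

end SymExt
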