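import Pool.Agent.Lib.MP_694cb9_lc.Omega

/-!
# The name of the collapse of `ω₁` by Sacks forcing
-/

namespace SymExt

namespace Thin

universe u

variable {𝔹 : Type u} [CompleteBooleanAlgebra 𝔹]

theorem map_bsplit (f : 𝔹 ≃o 𝔹) (t : List Bool → 𝔹) (s : List Bool) :
    f (bsplit t s) = bsplit (fun s => f (t s)) s := by
  rw [bsplit, bsplit, map_inf]

theorem map_bct (f : 𝔹 ≃o 𝔹) (t : List Bool → 𝔹) (s : List Bool) (r : Fin 3) :
    f (bct t s r) = bct (fun s => f (t s)) s r := by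
  induction s generalizing r with
  | nil =>
    rw [bct, bct]
    split
    · exact f.map_top
    · exact f.map_bot
  | cons b s ih => rw [bct, bct, map_sup, map_inf, map_inf, map_compl, ih, ih, map_bsplit]

theorem map_bthin (f : 𝔹 ≃o 𝔹) (t g : List Bool → 𝔹) (s : List Bool) :
    f (bthin t g s) = bthin (fun s => f (t s)) (fun s => f (g s)) s := by
  induction s with
  | nil => rfl
  | cons b s ih =>
    rw [bthin, bthin, map_inf, map_inf, map_himp, map_himp, map_compl, ih, map_bsplit, map_bct]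
    cases b
    · simp
    · simp

theorem map_perf (f : 𝔹 ≃o 𝔹) (t : List Bool → 𝔹) :
    f (perf t) = perf fun s => f (t s) := by
  simp only [perf, map_inf, OrderIso.map_iInf, OrderIso.map_iSup, map_himp]

/-- A perfect tree has nodes of every length. -/
theorem exists_length {T : Set (List Bool)} (hT : PerfectTree T) (L : ℕ) :
    ∃ s ∈ T, s.length = L := by
  have key : ∀ L : ℕ, ∃ s ∈ T, L ≤ s.length := by
    intro L
    induction L with
    | zero =>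
      obtain ⟨s, hs⟩ := hT.1
      exact ⟨s, hs, Nat.zero_le _⟩
    | succ L ih =>
      obtain ⟨s, hs, hs'⟩ := ih
      obtain ⟨l, hl⟩ := exists_split hT hs
      exact ⟨_, hl.1, by simp; omega⟩
  obtain ⟨s, hs, hs'⟩ := key L
  exact ⟨s.drop (s.length - L), hT.2.1 s hs _ (List.drop_suffix _ _), by
    rw [List.length_drop]; omega⟩

end Thin

namespace Col

open Name Ordinal Thin

/-- Boolean-valued trees decided before stage `m`. -/
abbrev TT (m : ℕ) : Type := {t : List Bool → B // ∀ s, ∀ g ∈ H m, actB g (t s) = t s}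

/-- The indices `(m, k, j, x, t)` of the collapsing name. -/
structure J : Type where
  /-- the stage -/
  m : ℕ
  /-- the argument of the collapsing function -/
  k : ℕ
  /-- the number of the collapsing function -/
  j : ℕ
  /-- its value -/
  x : K m
  /-- the tree that is thinned -/
  t : TT m

/-- The thinned tree. -/
noncomputable def J.tr (i : J) : List Bool → B := bthin i.t.1 (gb i.m i.j)

/-- The weight. -/
noncomputable def J.wt (i : J) : B := perf i.t.1 ⊓ cv (i.m, i.j, i.k) i.x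

/-- The name of the ordinal. -/
noncomputable def J.or (i : J) : Name B := ordN (toO i.x)

/-- The name of the full tree. -/
noncomputable def oneN : Name B := treeN fun _ => ⊤

theorem pure_oneN : Pure oneN := by
  rw [oneN, treeN, pure_iff]
  exact ⟨fun _ => rfl, fun s => pure_nodeN _⟩

/-- The elements of the collapsing name. -/
noncomputable def J.sE (i : J) : Name B :=
  opN (opS oneN (sN oneN (natN (Nat.pair i.m i.k))) (sN oneN i.or)) (treeN i.tr)

/-- The collapsing name. -/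
noncomputable def sigN : Name B := Name.mk J J.sE J.wt

/-- The name of the dense set of conditions forcing `a` into the range. -/
noncomputable def delN (a : Name B) : Name B :=
  Name.mk J (fun i => treeN i.tr) fun i => i.wt ⊓ beq a i.or

open Classical in
/-- Indices coded by names. -/
noncomputable def codeN (i : J) : Name B :=
  Name.mk J (fun _ => empN) fun j => if j = i then ⊤ else ⊥

theorem top_ne_bot : (⊤ : B) ≠ ⊥ := fun h => RO.dense_e.ne_bot emp (le_bot_iff.1 (h ▸ le_top))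

theorem codeN_inj {i i' : J} (h : codeN i = codeN i') : i = i' := by
  classical
  have h1 := (Name.mk.inj h).2.2
  have h2 := congrFun (eq_of_heq h1) i
  simp only [if_true] at h2
  by_contra hne
  rw [if_neg hne] at h2
  exact top_ne_bot h2

/-- The action of the group on the indices. -/
noncomputable def gJ (g : Gp) (i : J) : J where
  m := i.m
  k := i.k
  j := g i.m i.j
  x := i.x
  t := ⟨fun s => actB g (i.t.1 s), fun s h hh => by
    have h1 : g⁻¹ * h * g ∈ H i.m := fun l hl => by simp [hh l hl]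
    have h2 := i.t.2 s _ h1
    have h3 : actB h (actB g (i.t.1 s)) = actB g (actB (g⁻¹ * h * g) (i.t.1 s)) := by
      rw [← RelIso.mul_apply, ← map_mul, ← RelIso.mul_apply, ← map_mul]
      congr 2
      group
    rw [h3, h2]⟩

theorem tr_gJ (g : Gp) (i : J) : (gJ g i).tr = fun s => actB g (i.tr s) := by
  funext s
  rw [J.tr, J.tr, map_bthin]
  simp only [act_gb]
  rfl

theorem wt_gJ (g : Gp) (i : J) : actB g i.wt = (gJ g i).wt := by
  rw [J.wt, J.wt, map_inf, map_perf, act_cv]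
  rfl

theorem am_treeN_tr (g : Gp) (i : J) : sys.am g (treeN i.tr) = treeN (gJ g i).tr := by
  rw [am_treeN, tr_gJ]

theorem am_sE (g : Gp) (i : J) : sys.am g i.sE = (gJ g i).sE := by
  rw [J.sE, am_opN, am_treeN_tr, sys.am_pure]
  · rfl
  · have h1 : Pure (sN oneN (natN (Nat.pair i.m i.k)) : Name B) :=
      pure_sN pure_oneN (pure_natN _)
    have h2 : Pure (sN oneN i.or) := pure_sN pure_oneN (pure_ordN _)
    exact (((h1.opN pure_oneN).pairN (h1.opN pure_oneN)).opN pure_oneN).pairN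
      (((h1.opN pure_oneN).pairN (h2.opN pure_oneN)).opN pure_oneN)

theorem hs_treeN_tr (i : J) : sys.HS (treeN i.tr) := by
  refine hs_treeN (S := sys) (H_mem (i.m + 1)) fun s g hg => ?_
  change actB g (i.tr s) = i.tr s
  rw [J.tr, map_bthin]
  have e1 : (fun s => actB g (i.t.1 s)) = i.t.1 :=
    funext fun s => i.t.2 s g (H_anti (Nat.le_succ _) hg)
  have e2 : (fun s => actB g (gb i.m i.j s)) = gb i.m i.j := by
    funext s
    rw [act_gb, hg i.m (Nat.lt_succ_self _)]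
    rfl
  rw [e1, e2]

theorem hs_sE (i : J) : sys.HS i.sE := by
  refine SymSys.hs_opN (sys.hs_pure ?_) (hs_treeN_tr i)
  have h1 : Pure (sN oneN (natN (Nat.pair i.m i.k)) : Name B) :=
    pure_sN pure_oneN (pure_natN _)
  have h2 : Pure (sN oneN i.or) := pure_sN pure_oneN (pure_ordN _)
  exact (((h1.opN pure_oneN).pairN (h1.opN pure_oneN)).opN pure_oneN).pairN
    (((h1.opN pure_oneN).pairN (h2.opN pure_oneN)).opN pure_oneN)

theorem hs_sigN : sys.HS sigN :=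
  hs_fam (S := sys) hs_sE sys.top_mem fun g _ i => ⟨gJ g i, (wt_gJ g i).le, am_sE g i⟩

theorem hs_delN {a : Name B} (ha : Pure a) : sys.HS (delN a) := by
  refine hs_fam (S := sys) hs_treeN_tr sys.top_mem fun g _ i => ⟨gJ g i, ?_, am_treeN_tr g i⟩
  change actB g (i.wt ⊓ beq a i.or) ≤ (gJ g i).wt ⊓ beq a (gJ g i).or
  rw [map_inf, wt_gJ]
  refine inf_le_inf le_rfl (le_of_eq ?_)
  exact SymSys.Fixed.beq (S := sys) (sys.fixed_pure ha ⊤ g trivial)
    (sys.fixed_pure (pure_ordN _) ⊤ g trivial)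

/-- The index built from a name of a tree. -/
noncomputable def mkJ (m k : ℕ) (x : K m) (y : Name B)
    (hy : ∀ s, ∀ g ∈ H m, actB g (bmem (nodeN s) y) = bmem (nodeN s) y) : J :=
  ⟨m, k, 0, x, ⟨fun s => bmem (nodeN s) y, hy⟩⟩

/-- Closure and genericity properties. -/
structure GoodSig (C : Set (Name B)) (U : Set B) : Prop where
  sig : sigN ∈ C
  del : ∀ a ∈ C, delN a ∈ C
  node : ∀ s, nodeN s ∈ C
  imp_sig : ∀ w ∈ C, Met C U (fam (fun i : J => i.wt ⊓ beq w i.sE)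
    fun i => [i.sE, codeN i, i.or])
  imp_del : ∀ a ∈ C, ∀ w ∈ C, Met C U (fam
    (fun i : J => (i.wt ⊓ beq a i.or) ⊓ beq w (treeN i.tr))
    fun i => [treeN i.tr, codeN i, i.or])
  dec_t : ∀ i : J, codeN i ∈ C → ∀ s, i.t.1 s ∈ U ∨ (i.t.1 s)ᶜ ∈ U
  dec_g : ∀ i : J, codeN i ∈ C → ∀ s, gb i.m i.j s ∈ U ∨ (gb i.m i.j s)ᶜ ∈ U
  inc : ∀ i : J, codeN i ∈ C → ∀ s, (⨆ p : Inc s, i.t.1 p.1.1 ⊓ i.t.1 p.1.2) ∈ U →
    ∃ p : Inc s, i.t.1 p.1.1 ⊓ i.t.1 p.1.2 ∈ U
  kill : ∀ i i' : J, codeN i ∈ C → codeN i' ∈ C →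
    (⨆ L : ℕ, ⨅ s : {s : List Bool // s.length = L}, (i.tr s.1 ⊓ i'.tr s.1)ᶜ) ∈ U →
    ∃ L : ℕ, (⨅ s : {s : List Bool // s.length = L}, (i.tr s.1 ⊓ i'.tr s.1)ᶜ) ∈ U
  perf1 : ∀ y ∈ C, Met C U (fam (fun p : Bool × List Bool =>
    bmem (nodeN (p.1 :: p.2)) y ⊓ (bmem (nodeN p.2) y)ᶜ) fun _ => [])
  perf2 : ∀ y ∈ C, Met C U (fam (fun s : List Bool => bmem (nodeN s) y ⊓
    (⨆ p : Inc s, bmem (nodeN p.1.1) y ⊓ bmem (nodeN p.1.2) y)ᶜ) fun _ => [])
  dens : ∀ y ∈ C, ∀ a ∈ C, ∀ m,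
    ∀ hy : (∀ s, ∀ g ∈ H m, actB g (bmem (nodeN s) y) = bmem (nodeN s) y),
    Met C U (fam (fun p : ℕ × K m => (mkJ m p.1 p.2 y hy).wt ⊓ beq a (mkJ m p.1 p.2 y hy).or)
      fun p => [codeN (mkJ m p.1 p.2 y hy), treeN (mkJ m p.1 p.2 y hy).tr,
        (mkJ m p.1 p.2 y hy).or])

variable {C : Set (Name B)} {U : Set B}

theorem filt (h : Good sys C U) : Filt U := ⟨h.bot, h.top, h.up, h.inf⟩

theorem perfect_t (h : Good sys C U) (hG : GoodSig C U) {i : J} (hi : codeN i ∈ C)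
    (hw : i.wt ∈ U) : PerfectTree {s | i.t.1 s ∈ U} :=
  perfect_of_perf (filt h) (h.up _ hw _ inf_le_left) (hG.inc i hi)

theorem tr_iff (h : Good sys C U) (hG : GoodSig C U) {i : J} (hi : codeN i ∈ C) (s : List Bool) :
    i.tr s ∈ U ↔ thin {s | i.t.1 s ∈ U} {s | gb i.m i.j s ∈ U} s :=
  (ev_bthin (n := s.length) (filt h) (fun s _ => Ev.of_dec (hG.dec_t i hi s))
    (fun s _ => Ev.of_dec (hG.dec_g i hi s)) le_rfl).iff (filt h)

theorem perfect_tr (h : Good sys C U) (hG : GoodSig C U) {i : J} (hi : codeN i ∈ C)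
    (hw : i.wt ∈ U) : PerfectTree {s | i.tr s ∈ U} := by
  have : {s | i.tr s ∈ U} = {s | thin {s | i.t.1 s ∈ U} {s | gb i.m i.j s ∈ U} s} :=
    Set.ext fun s => tr_iff h hG hi s
  rw [this]
  exact thin_perfect (perfect_t h hG hi hw)

theorem sacks_tr (h : Good sys C U) (hG : GoodSig C U) {i : J} (hi : codeN i ∈ C)
    (hw : i.wt ∈ U) (ht : treeN i.tr ∈ C) : val C U (treeN i.tr) ∈ Sacks (model sys C U) := by
  refine ⟨⟨_, ht, hs_treeN_tr i, rfl⟩, fun z hz => mem_treeN h hz, ?_⟩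
  rw [nodes_treeN h hG.node]
  exact perfect_tr h hG hi hw

/-- Conditions putting different ordinals at the same place are incompatible. -/
theorem incompat (h : Good sys C U) (hG : GoodSig C U) {i i' : J} (hi : codeN i ∈ C)
    (hi' : codeN i' ∈ C) (hw : i.wt ∈ U) (hw' : i'.wt ∈ U) (hm : i.m = i'.m) (hk : i.k = i'.k)
    (hx : toO i.x ≠ toO i'.x) {r : ZFSet.{0}} (hr : PerfectTree (nodes r))
    (h1 : r ⊆ val C U (treeN i.tr)) (h2 : r ⊆ val C U (treeN i'.tr)) : False := by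
  obtain ⟨m, k, j, x, t⟩ := i
  obtain ⟨m', k', j', x', t'⟩ := i'
  simp only at hm hk
  subst hm hk
  have hp : perf t.1 ∈ U := (h.inf_iff.1 hw).1
  have hc : cv (m, j, k) x ∈ U := (h.inf_iff.1 hw).2
  have hc' : cv (m, j', k) x' ∈ U := (h.inf_iff.1 hw').2
  by_cases hj : j = j'
  · subst hj
    have hxx : x ≠ x' := fun h => hx (by rw [h])
    apply h.bot
    rw [← cv_inf_cv (i := (m, j, k)) hxx]
    exact h.inf _ hc _ hc'
  · have key := kill_le hj t.2 t'.2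
    have hV : (⨆ L : ℕ, ⨅ s : {s : List Bool // s.length = L},
        (J.tr ⟨m, k, j, x, t⟩ s.1 ⊓ J.tr ⟨m, k, j', x', t'⟩ s.1)ᶜ) ∈ U := h.up _ hp _ key
    obtain ⟨L, hL⟩ := hG.kill _ _ hi hi' hV
    obtain ⟨s, hs, hsL⟩ := exists_length hr L
    have e1 : s ∈ nodes (val C U (treeN (J.tr ⟨m, k, j, x, t⟩))) := h1 hs
    have e2 : s ∈ nodes (val C U (treeN (J.tr ⟨m, k, j', x', t'⟩))) := h2 hs
    rw [nodes_treeN h hG.node] at e1 e2
    have e1' : J.tr ⟨m, k, j, x, t⟩ s ∈ U := e1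
    have e2' : J.tr ⟨m, k, j', x', t'⟩ s ∈ U := e2
    have e3 : (J.tr ⟨m, k, j, x, t⟩ s ⊓ J.tr ⟨m, k, j', x', t'⟩ s)ᶜ ∈ U :=
      h.up _ hL _ (iInf_le (fun s : {s : List Bool // s.length = L} =>
        (J.tr ⟨m, k, j, x, t⟩ s.1 ⊓ J.tr ⟨m, k, j', x', t'⟩ s.1)ᶜ) ⟨s, hsL⟩)
    exact h.not_compl (h.inf _ e1' _ e2') e3

theorem mem_iff_nodes (h : Good sys C U) (hG : GoodSig C U) {y : Name B} (hy : y ∈ C)
    (s : List Bool) : bmem (nodeN s) y ∈ U ↔ s ∈ nodes (val C U y) := by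
  rw [h.bmem_iff (hG.node s) hy, val_nodeN h]; rfl

theorem perf_mem (h : Good sys C U) (hG : GoodSig C U) {y : Name B} (hy : y ∈ C)
    (hp : PerfectTree (nodes (val C U y))) : perf (fun s => bmem (nodeN s) y) ∈ U := by
  obtain ⟨⟨s0, hs0⟩, hcl, hinc⟩ := hp
  refine h.inf _ ?_ _ (h.inf _ ?_ _ ?_)
  · rw [mem_iff_nodes h hG hy]
    exact hcl s0 hs0 [] List.nil_suffix
  · rcases (hG.perf1 y hy).dec with hd | hd
    · exfalso
      obtain ⟨⟨b, s⟩, h1, _⟩ := (hG.perf1 y hy).wit hd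
      rw [h.inf_iff] at h1
      have h2 := (mem_iff_nodes h hG hy _).1 h1.1
      have h3 := hcl _ h2 s (List.suffix_cons _ _)
      exact h.not_compl ((mem_iff_nodes h hG hy _).2 h3) h1.2
    · rw [compl_iSup] at hd
      refine h.up _ hd _ (iInf_mono fun p => ?_)
      rw [compl_inf, compl_compl, himp_eq, sup_comm]
  · rcases (hG.perf2 y hy).dec with hd | hd
    · exfalso
      obtain ⟨s, h1, _⟩ := (hG.perf2 y hy).wit hd
      rw [h.inf_iff] at h1
      obtain ⟨u, hu, u', hu', h2, h3, h4, h5⟩ := hinc s ((mem_iff_nodes h hG hy _).1 h1.1)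
      refine h.not_compl ?_ h1.2
      refine h.up _ (h.inf _ ((mem_iff_nodes h hG hy _).2 hu) _
        ((mem_iff_nodes h hG hy _).2 hu')) _ ?_
      exact le_iSup (fun p : Inc s => bmem (nodeN p.1.1) y ⊓ bmem (nodeN p.1.2) y)
        ⟨(u, u'), h2, h3, h4, h5⟩
    · rw [compl_iSup] at hd
      refine h.up _ hd _ (iInf_mono fun s => ?_)
      rw [compl_inf, compl_compl, himp_eq, sup_comm]

/-- Density. -/
theorem density (h : Good sys C U) (hG : GoodSig C U) {y : Name B} (hy : y ∈ C) (hy' : sys.HS y)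
    (hp : PerfectTree (nodes (val C U y)))
    {ξ : Ordinal.{0}} (hξ : ξ < omω) (hξC : ordN ξ ∈ C) :
    ∃ i : J, codeN i ∈ C ∧ treeN i.tr ∈ C ∧ i.or ∈ C ∧ i.wt ∈ U ∧ beq (ordN ξ) i.or ∈ U ∧
      val C U (treeN i.tr) ⊆ val C U y := by
  obtain ⟨L, ⟨m1, hm1⟩, hL⟩ := hy'.symm
  obtain ⟨m2, hm2⟩ := exists_lt_om hξ
  let m := max m1 m2
  have hξm : ξ < om m := hm2.trans_le (om_mono (le_max_right _ _))
  have hfix : ∀ s, ∀ g ∈ H m, actB g (bmem (nodeN s) y) = bmem (nodeN s) y := fun s g hg =>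
    SymSys.Fixed.bmem (S := sys) (sys.fixed_pure (pure_nodeN s) _ g hg)
      (hL g (hm1 (H_anti (le_max_left _ _) hg)))
  obtain ⟨x0, rfl⟩ : ∃ x0 : K m, toO x0 = ξ := ⟨ofO hξm, toO_ofO _⟩
  have h1 := perf_mem h hG hy hp
  have h2 : (⨆ p : ℕ × K m, (mkJ m p.1 p.2 y hfix).wt ⊓
      beq (ordN (toO x0)) (mkJ m p.1 p.2 y hfix).or) ∈ U := by
    refine h.up _ h1 _ ?_
    have e1 : perf (fun s => bmem (nodeN s) y) = ⨆ k, perf (fun s => bmem (nodeN s) y) ⊓
        cv (m, 0, k) x0 := by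
      rw [← inf_iSup_eq, iSup_cv, inf_top_eq]
    rw [e1]
    refine iSup_le fun k => le_trans ?_ (le_iSup _ ((k, x0) : ℕ × K m))
    refine le_inf le_rfl ?_
    change _ ≤ beq (ordN (toO x0)) (ordN (toO x0))
    rw [beq_refl]
    exact le_top
  obtain ⟨⟨k, x⟩, h3, h4⟩ := (hG.dens y hy _ hξC m hfix).wit h2
  rw [h.inf_iff] at h3
  refine ⟨mkJ m k x y hfix, h4 _ (by simp), h4 _ (by simp), h4 _ (by simp), h3.1, h3.2, ?_⟩
  intro z hz
  obtain ⟨s, rfl⟩ := mem_treeN h hz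
  have h5 : s ∈ nodes (val C U (treeN (mkJ m k x y hfix).tr)) := hz
  rw [nodes_treeN h hG.node] at h5
  have h6 : bmem (nodeN s) y ∈ U := h.up _ h5 _ (bthin_le _ _ s)
  exact (mem_iff_nodes h hG hy s).1 h6

theorem one_mem_sacks (h : Good sys C U) (hG : GoodSig C U) (h1 : oneN ∈ C) :
    val C U oneN ∈ Sacks (model sys C U) := by
  refine ⟨⟨_, h1, sys.hs_pure pure_oneN, rfl⟩, fun z hz => mem_treeN h hz, ?_⟩
  have : nodes (val C U oneN) = Set.univ := by
    rw [oneN, nodes_treeN h hG.node]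
    exact Set.eq_univ_of_forall fun s => h.top
  rw [this]
  refine ⟨⟨[], trivial⟩, fun _ _ _ _ => trivial, fun s _ => ⟨true :: s, trivial, false :: s,
    trivial, List.suffix_cons _ _, List.suffix_cons _ _, ?_, ?_⟩⟩
  · intro h
    have := h.eq_of_length (by simp)
    simp at this
  · intro h
    have := h.eq_of_length (by simp)
    simp at this

theorem one_mem_generic (h : Good sys C U) (hG : GoodSig C U) (h1 : oneN ∈ C)
    {Γ : Set ZFSet.{0}} (hΓ : SacksGeneric (model sys C U) Γ) : val C U oneN ∈ Γ := by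
  obtain ⟨hsub, ⟨p, hp⟩, hup, _⟩ := hΓ
  refine hup p hp _ (one_mem_sacks h hG h1) fun z hz => ?_
  obtain ⟨s, rfl⟩ := (hsub hp).2.1 z hz
  have : s ∈ nodes (val C U oneN) := by
    rw [oneN, nodes_treeN h hG.node]
    exact h.top
  exact this

/-- The elements of the generic function. -/
theorem mem_collapse (h : Good sys C U) (hO : GoodO C U) (hG : GoodSig C U)
    (hS : GoodS oneN C U) {Γ : Set ZFSet.{0}}
    (hΓ : SacksGeneric (model sys C U) Γ) {z : ZFSet.{0}} :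
    z ∈ valG Γ (val C U sigN) ↔ ∃ i : J, codeN i ∈ C ∧ treeN i.tr ∈ C ∧ i.or ∈ C ∧ i.wt ∈ U ∧
      val C U (treeN i.tr) ∈ Γ ∧
      z = ZFSet.pair (natSet (Nat.pair i.m i.k)) (val C U i.or) := by
  have h1 := one_mem_generic h hG hS.one_mem hΓ
  have key : ∀ i : J, i.or ∈ C →
      valG Γ (val C U (opS oneN (sN oneN (natN (Nat.pair i.m i.k))) (sN oneN i.or))) =
      ZFSet.pair (natSet (Nat.pair i.m i.k)) (val C U i.or) := by
    intro i hi
    rw [valG_opS h hS.one_mem h1 (hS.sn _ (h.nat _)) (hS.sn _ hi), valG_sN h hS h1 _ (h.nat _),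
      valG_sN h hS h1 _ hi, h.val_natN]
  rw [mem_valG]
  constructor
  · rintro ⟨s, ⟨p, hp, hsp⟩, rfl⟩
    obtain ⟨i0, h2, h3, h4⟩ := mem_val.1 hsp
    change i0.sE ∈ C at h2
    change i0.wt ∈ U at h3
    change _ = val C U i0.sE at h4
    have h5 : (⨆ i : J, i.wt ⊓ beq i0.sE i.sE) ∈ U := by
      refine h.up _ h3 _ (le_trans ?_ (le_iSup _ i0))
      rw [beq_refl, inf_top_eq]
    obtain ⟨i, h6, h7⟩ := (hG.imp_sig _ h2).wit h5
    have hsE : i.sE ∈ C := h7 _ (by simp)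
    have hc : codeN i ∈ C := h7 _ (by simp)
    have ho : i.or ∈ C := h7 _ (by simp)
    rw [h.inf_iff] at h6
    have h8 := (h.beq_iff _ _ h2 hsE).1 h6.2
    obtain ⟨h9, h10⟩ := hO.unop _ _ hsE
    rw [← h4, J.sE, h.val_opN h9 h10, ZFSet.pair_inj] at h8
    refine ⟨i, hc, h10, ho, h6.1, ?_, ?_⟩
    · rw [← h8.2]; exact hp
    · rw [h8.1, key i ho]
  · rintro ⟨i, hc, ht, ho, hw, hΓt, rfl⟩
    have hop : opS oneN (sN oneN (natN (Nat.pair i.m i.k))) (sN oneN i.or) ∈ C :=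
      opS_mem h hS.one_mem (hS.sn _ (h.nat _)) (hS.sn _ ho)
    refine ⟨val C U (opS oneN (sN oneN (natN (Nat.pair i.m i.k))) (sN oneN i.or)),
      ⟨_, hΓt, ?_⟩, (key i ho).symm⟩
    rw [← h.val_opN hop ht]
    exact mem_val.2 ⟨i, h.opN_mem hop ht, hw, rfl⟩

/-- Sacks forcing collapses `ω₁`. -/
theorem collapse (h : Good sys C U) (hO : GoodO C U) (hG : GoodSig C U)
    (hS : GoodS oneN C U) {Γ : Set ZFSet.{0}}
    (hΓ : SacksGeneric (model sys C U) Γ) :
    ∃ f ∈ GenExt (model sys C U) Γ, PSurj f (val C U (ordN omω)) := by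
  refine ⟨_, ⟨_, ⟨sigN, hG.sig, hs_sigN, rfl⟩, rfl⟩, fun z hz => ?_, fun n y y' hy hy' => ?_,
    fun y hy => ?_⟩
  · obtain ⟨i, _, _, ho, _, _, hz⟩ := (mem_collapse h hO hG hS hΓ).1 hz
    exact ⟨_, mem_omega_iff.2 ⟨_, rfl⟩, _, val_ordN_mem h.top ((toO_lt i.x).trans (om_lt _)) ho, hz⟩
  · obtain ⟨i, hc, ht, ho, hw, hg, hz⟩ := (mem_collapse h hO hG hS hΓ).1 hy
    obtain ⟨i', hc', ht', ho', hw', hg', hz'⟩ := (mem_collapse h hO hG hS hΓ).1 hy'
    rw [ZFSet.pair_inj] at hz hz'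
    have hn := natSet_inj (hz.1.symm.trans hz'.1)
    rw [Nat.pair_eq_pair] at hn
    rw [hz.2, hz'.2]
    by_cases hx : toO i.x = toO i'.x
    · rw [J.or, J.or, hx]
    · exfalso
      obtain ⟨r, hr, hr1, hr2⟩ := hΓ.2.2.2.1 _ hg _ hg'
      exact incompat h hG hc hc' hw hw' hn.1 hn.2 hx (hΓ.1 hr).2.2 hr1 hr2
  · obtain ⟨ξ, hξ, hξC, rfl⟩ := (mem_val_ordN h.top).1 hy
    have hD : val C U (delN (ordN ξ)) ∈ model sys C U :=
      ⟨_, hG.del _ hξC, hs_delN (pure_ordN _), rfl⟩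
    have himp : ∀ q ∈ val C U (delN (ordN ξ)), ∃ i : J, codeN i ∈ C ∧ treeN i.tr ∈ C ∧
        i.or ∈ C ∧ i.wt ∈ U ∧ beq (ordN ξ) i.or ∈ U ∧ q = val C U (treeN i.tr) := by
      intro q hq
      obtain ⟨i0, h1, h2, rfl⟩ := mem_val.1 hq
      change treeN i0.tr ∈ C at h1
      change i0.wt ⊓ beq (ordN ξ) i0.or ∈ U at h2
      have h3 : (⨆ i : J, (i.wt ⊓ beq (ordN ξ) i.or) ⊓ beq (treeN i0.tr) (treeN i.tr)) ∈ U := by
        refine h.up _ h2 _ (le_trans ?_ (le_iSup _ i0))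
        rw [beq_refl, inf_top_eq]
      obtain ⟨i, h4, h5⟩ := (hG.imp_del _ hξC _ h1).wit h3
      rw [h.inf_iff, h.inf_iff] at h4
      have ht : treeN i.tr ∈ C := h5 _ (by simp)
      exact ⟨i, h5 _ (by simp), ht, h5 _ (by simp), h4.1.1, h4.1.2,
        (h.beq_iff _ _ h1 ht).1 h4.2⟩
    obtain ⟨q, hq, hqΓ⟩ := hΓ.2.2.2.2 _ hD (fun q hq => by
        obtain ⟨i, hc, ht, _, hw, _, rfl⟩ := himp q hq
        exact sacks_tr h hG hc hw ht) (fun p hp => by
        obtain ⟨⟨y, hy, hy', rfl⟩, _, hp3⟩ := hp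
        obtain ⟨i, hc, ht, ho, hw, hb, hsub⟩ := density h hG hy hy' hp3 hξ hξC
        exact ⟨val C U (treeN i.tr), mem_val.2 ⟨i, ht, h.inf _ hw _ hb, rfl⟩, hsub⟩)
    obtain ⟨i, hc, ht, ho, hw, hb, rfl⟩ := himp q hq
    refine ⟨natSet (Nat.pair i.m i.k), (mem_collapse h hO hG hS hΓ).2
      ⟨i, hc, ht, ho, hw, hqΓ, ?_⟩⟩
    rw [(h.beq_iff _ _ hξC ho).1 hb]

end Col

end SymExt
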