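import Pool.Agent.Lib.MP_694cb9_lc.BForm

/-!
# Symmetric names
-/

namespace SymExt

universe u v w

namespace Name

variable {𝔹 : Type u}

/-- Transport of a name along a map of the weights. -/
def map (f : 𝔹 → 𝔹) : Name 𝔹 → Name 𝔹
  | mk ι A b => mk ι (fun i => map f (A i)) (fun i => f (b i))

@[simp] theorem map_mk (f : 𝔹 → 𝔹) (ι : Type u) (A : ι → Name 𝔹) (b : ι → 𝔹) :
    map f (mk ι A b) = mk ι (fun i => map f (A i)) (fun i => f (b i)) := rfl

theorem map_eq (f : 𝔹 → 𝔹) (x : Name 𝔹) :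
    map f x = mk x.idx (fun i => map f (x.elt i)) (fun i => f (x.wt i)) := by cases x; rfl

theorem map_map (f g : 𝔹 → 𝔹) (x : Name 𝔹) : map f (map g x) = map (f ∘ g) x := by
  induction x using ind with
  | h x ih => cases x; simpa using funext fun i => ih i

theorem map_of_id {f : 𝔹 → 𝔹} (hf : ∀ a, f a = a) (x : Name 𝔹) : map f x = x := by
  induction x using ind with
  | h x ih =>
    cases x with
    | mk ι A b =>
      simp only [map_mk, hf, mk.injEq, heq_eq_eq, true_and, and_true]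
      exact funext ih

variable [CompleteBooleanAlgebra 𝔹]

theorem beq_map (f : 𝔹 ≃o 𝔹) (x : Name 𝔹) : ∀ y, beq (map f x) (map f y) = f (beq x y) := by
  induction x using ind with
  | h x ih =>
    intro y
    cases x with
    | mk ι A b =>
      cases y with
      | mk ι' A' b' =>
        have ih' : ∀ (i : ι) (y : Name 𝔹), beq (map f (A i)) (map f y) = f (beq (A i) y) := ih
        simp only [map_mk, beq, map_inf, OrderIso.map_iInf, OrderIso.map_iSup, map_himp, ih']

theorem bmem_map (f : 𝔹 ≃o 𝔹) (x y : Name 𝔹) : bmem (map f x) (map f y) = f (bmem x y) := by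
  cases y with
  | mk ι' A' b' =>
    simp only [map_mk, bmem, map_inf, OrderIso.map_iSup, wt_mk, elt_mk, ← beq_map]
    rfl

end Name

open Name

variable {𝔹 : Type u} [CompleteBooleanAlgebra 𝔹]

/-- Transport of a domain. -/
def Dom.map (f : 𝔹 → 𝔹) (D : Dom.{u, v} 𝔹) : Dom.{u, v} 𝔹 :=
  ⟨D.I, fun i => Name.map f (D.A i), fun i => f (D.b i)⟩

theorem bv_map (f : 𝔹 ≃o 𝔹) (D : Dom.{u, v} 𝔹) {n : ℕ} (φ : Fml n) : ∀ (v : Fin n → Name 𝔹),
    bv (D.map f) φ (fun i => Name.map f (v i)) = f (bv D φ v) := by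
  induction φ with
  | mem i j => intro v; exact bmem_map f _ _
  | eq i j => intro v; exact beq_map f _ _
  | bot => intro v; simp [bv]
  | imp φ ψ ih1 ih2 => intro v; simp [bv, ih1, ih2]
  | all φ ih =>
    intro v
    simp only [bv, OrderIso.map_iInf, map_himp]
    refine iInf_congr fun x => ?_
    simp only [Dom.map]
    congr 1
    rw [← ih]
    congr 1
    funext i
    refine Fin.cases ?_ (fun i => ?_) i <;> simp

theorem bv_reindex {D : Dom.{u, v} 𝔹} {D' : Dom.{u, w} 𝔹} (e : D.I ≃ D'.I)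
    (h1 : ∀ i, D'.A (e i) = D.A i) (h2 : ∀ i, D'.b (e i) = D.b i) {n : ℕ} (φ : Fml n) :
    ∀ (v : Fin n → Name 𝔹), bv D φ v = bv D' φ v := by
  induction φ with
  | mem i j => intro v; rfl
  | eq i j => intro v; rfl
  | bot => intro v; rfl
  | imp φ ψ ih1 ih2 => intro v; simp [bv, ih1, ih2]
  | all φ ih =>
    intro v
    simp only [bv]
    rw [← e.iInf_comp]
    refine iInf_congr fun x => ?_
    rw [h1, h2, ih]

/-- A symmetric system: a group acting on the Boolean algebra and a normal filter of subgroups. -/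
structure SymSys (𝔹 : Type u) [CompleteBooleanAlgebra 𝔹] where
  /-- the group -/
  G : Type u
  /-- the group structure -/
  [grp : Group G]
  /-- the action -/
  act : G →* (𝔹 ≃o 𝔹)
  /-- the filter of subgroups -/
  F : Set (Subgroup G)
  top_mem : ⊤ ∈ F
  up : ∀ H ∈ F, ∀ K : Subgroup G, H ≤ K → K ∈ F
  inf_mem : ∀ H ∈ F, ∀ K ∈ F, H ⊓ K ∈ F
  conj : ∀ H ∈ F, ∀ g : G, ∃ K ∈ F, ∀ h ∈ K, g⁻¹ * h * g ∈ H

attribute [instance] SymSys.grp

namespace SymSys

variable (S : SymSys 𝔹)

/-- The action of the group on names. -/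
def am (g : S.G) (x : Name 𝔹) : Name 𝔹 := Name.map (S.act g) x

theorem am_mk (g : S.G) (ι : Type u) (A : ι → Name 𝔹) (b : ι → 𝔹) :
    S.am g (Name.mk ι A b) = Name.mk ι (fun i => S.am g (A i)) (fun i => S.act g (b i)) := rfl

theorem am_eq (g : S.G) (x : Name 𝔹) :
    S.am g x = Name.mk x.idx (fun i => S.am g (x.elt i)) (fun i => S.act g (x.wt i)) := map_eq _ _

theorem am_mul (g h : S.G) (x : Name 𝔹) : S.am (g * h) x = S.am g (S.am h x) := by
  rw [am, am, am, map_map, map_mul]; rfl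

@[simp] theorem am_one (x : Name 𝔹) : S.am 1 x = x := by
  rw [am, map_one]; exact map_of_id (fun _ => rfl) x

theorem act_mul (g h : S.G) (a : 𝔹) : S.act (g * h) a = S.act g (S.act h a) := by
  rw [map_mul]; rfl

@[simp] theorem act_one (a : 𝔹) : S.act 1 a = a := by rw [map_one]; rfl

theorem act_inv_act (g : S.G) (a : 𝔹) : S.act g⁻¹ (S.act g a) = a := by
  rw [← act_mul, inv_mul_cancel, act_one]

theorem act_act_inv (g : S.G) (a : 𝔹) : S.act g (S.act g⁻¹ a) = a := by
  rw [← act_mul, mul_inv_cancel, act_one]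

theorem beq_am (g : S.G) (x y : Name 𝔹) : beq (S.am g x) (S.am g y) = S.act g (beq x y) :=
  beq_map _ _ _

theorem bmem_am (g : S.G) (x y : Name 𝔹) : bmem (S.am g x) (S.am g y) = S.act g (bmem x y) :=
  bmem_map _ _ _

/-- `x` is symmetric under the subgroup `H` (in the Boolean-valued sense). -/
def Fixed (H : Subgroup S.G) (x : Name 𝔹) : Prop := ∀ g ∈ H, beq (S.am g x) x = ⊤

/-- `x` is symmetric. -/
def Symm (x : Name 𝔹) : Prop := ∃ H ∈ S.F, S.Fixed H x

/-- Hereditarily symmetric names. -/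
def HS : Name 𝔹 → Prop
  | Name.mk ι A b => S.Symm (Name.mk ι A b) ∧ ∀ i, HS (A i)

theorem hs_iff (x : Name 𝔹) : S.HS x ↔ S.Symm x ∧ ∀ i, S.HS (x.elt i) := by
  cases x; rfl

variable {S} in
theorem HS.symm {x : Name 𝔹} (h : S.HS x) : S.Symm x := ((S.hs_iff x).1 h).1

variable {S} in
theorem HS.elt {x : Name 𝔹} (h : S.HS x) (i : x.idx) : S.HS (x.elt i) := ((S.hs_iff x).1 h).2 i

theorem Symm.am {x : Name 𝔹} (h : S.Symm x) (g : S.G) : S.Symm (S.am g x) := by
  obtain ⟨H, hH, hx⟩ := h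
  obtain ⟨K, hK, hK'⟩ := S.conj H hH g
  refine ⟨K, hK, fun k hk => ?_⟩
  have := hx _ (hK' k hk)
  have h2 : S.am k (S.am g x) = S.am g (S.am (g⁻¹ * k * g) x) := by
    rw [← am_mul, ← am_mul]; congr 1; group
  rw [h2, beq_am, this]
  exact (S.act g).map_top

theorem HS.am (g : S.G) (x : Name 𝔹) : S.HS x → S.HS (S.am g x) := by
  induction x using ind with
  | h x ih =>
    intro h
    rw [am_eq, hs_iff]
    refine ⟨?_, fun i => ih i (h.elt i)⟩
    rw [← am_eq]
    exact Symm.am S h.symm g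

/-- The domain of all hereditarily symmetric names. -/
def dom : Dom.{u, u + 1} 𝔹 := ⟨{x // S.HS x}, fun x => x.1, fun _ => ⊤⟩

/-- The Boolean value in the symmetric model. -/
abbrev bval {n : ℕ} (φ : Fml n) (v : Fin n → Name 𝔹) : 𝔹 := bv S.dom φ v

theorem bval_am (g : S.G) {n : ℕ} (φ : Fml n) (v : Fin n → Name 𝔹) :
    S.bval φ (fun i => S.am g (v i)) = S.act g (S.bval φ v) := by
  rw [bval, bval, ← bv_map]
  let e : S.dom.I ≃ (S.dom.map (S.act g)).I :=
    { toFun := fun x => (⟨S.am g⁻¹ x.1, HS.am S _ _ x.2⟩ : {x // S.HS x})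
      invFun := fun x => (⟨S.am g x.1, HS.am S _ _ x.2⟩ : {x // S.HS x})
      left_inv := fun x => by
        refine Subtype.ext ?_
        change S.am g (S.am g⁻¹ x.1) = x.1
        rw [← am_mul, mul_inv_cancel, am_one]
      right_inv := fun x => by
        refine Subtype.ext ?_
        change S.am g⁻¹ (S.am g x.1) = x.1
        rw [← am_mul, inv_mul_cancel, am_one] }
  refine bv_reindex e ?_ ?_ _ _
  · intro x
    change S.am g (S.am g⁻¹ x.1) = x.1
    rw [← am_mul, mul_inv_cancel, am_one]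
  · intro x
    exact (S.act g).map_top

theorem iInf_mem {n : ℕ} (H : Fin n → Subgroup S.G) (h : ∀ i, H i ∈ S.F) : (⨅ i, H i) ∈ S.F := by
  induction n with
  | zero => exact S.up _ S.top_mem _ (by simp)
  | succ n ih =>
    refine S.up _ (S.inf_mem _ (h 0) _ (ih (fun i => H i.succ) fun i => h _)) _ ?_
    refine le_iInf fun i => ?_
    refine Fin.cases ?_ (fun i => ?_) i
    · exact inf_le_left
    · exact inf_le_right.trans (iInf_le _ i)

variable {S}

theorem Fixed.mono {H K : Subgroup S.G} (h : K ≤ H) {x : Name 𝔹} (hx : S.Fixed H x) :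
    S.Fixed K x := fun g hg => hx g (h hg)

theorem Fixed.bmem {g : S.G} {x y : Name 𝔹} (hx : beq (S.am g x) x = ⊤)
    (hy : beq (S.am g y) y = ⊤) : S.act g (bmem x y) = bmem x y := by
  rw [← bmem_am]
  refine eq_of_forall_le fun Γ => ?_
  constructor
  · intro h
    exact bmem_congr_left (hx ▸ le_top) (bmem_congr_right (hy ▸ le_top) h)
  · intro h
    exact bmem_congr_left (by rw [beq_symm, hx]; exact le_top)
      (bmem_congr_right (by rw [beq_symm, hy]; exact le_top) h)

theorem Fixed.beq {g : S.G} {x y : Name 𝔹} (hx : beq (S.am g x) x = ⊤)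
    (hy : beq (S.am g y) y = ⊤) : S.act g (beq x y) = beq x y := by
  rw [← beq_am]
  refine eq_of_forall_le fun Γ => ?_
  constructor
  · intro h
    exact beq_trans _ (le_beq_symm (hx ▸ le_top)) (beq_trans _ h (hy ▸ le_top))
  · intro h
    exact beq_trans _ (hx ▸ le_top) (beq_trans _ h (le_beq_symm (hy ▸ le_top)))

theorem Fixed.bval {g : S.G} {n : ℕ} (φ : Fml n) {v : Fin n → Name 𝔹}
    (hv : ∀ i, Name.beq (S.am g (v i)) (v i) = ⊤) : S.act g (S.bval φ v) = S.bval φ v := by
  rw [← bval_am]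
  exact bv_congr_eq _ _ hv

end SymSys

end SymExt
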